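import Pool.Agent.Lib.CR5.I.Spec

/-!
# CR5, block I: the centred chart of a manifold
-/

set_option autoImplicit false
set_option linter.unusedSectionVars false

open MeasureTheory Set Filter Topology
open scoped ENNReal ComplexConjugate Manifold ContDiff

noncomputable section

namespace Pool.Agent.CR5.Man

universe u

namespace Cax

variable {M : Type u} [TopologicalSpace M] [ChartedSpace E5 M] [IsManifold 𝓘(ℝ, E5) ∞ M]

/-- The radius is admissible. -/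
def Adm (p : M) (ρ : ℝ) : Prop :=
  0 < ρ ∧ Metric.ball (extChartAt 𝓘(ℝ, E5) p p) ρ ⊆ (extChartAt 𝓘(ℝ, E5) p).target

theorem exists_adm (p : M) : ∃ ρ : ℝ, Adm p ρ := by
  have h1 : (extChartAt 𝓘(ℝ, E5) p).target ∈ 𝓝 (extChartAt 𝓘(ℝ, E5) p p) :=
    extChartAt_target_mem_nhds p
  obtain ⟨ρ, h2, h3⟩ := Metric.mem_nhds_iff.1 h1
  exact ⟨ρ, h2, h3⟩

variable {p : M} {ρ : ℝ}

theorem mem (h : Adm p ρ) {y : E5} (hy : y ∈ Metric.ball (0 : E5) ρ) :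
    extChartAt 𝓘(ℝ, E5) p p + y ∈ (extChartAt 𝓘(ℝ, E5) p).target := by
  apply h.2
  rw [Metric.mem_ball, dist_eq_norm]
  rw [mem_ball_zero_iff] at hy
  simpa using hy

theorem nh (h : Adm p ρ) {y : E5} (hy : y ∈ Metric.ball (0 : E5) ρ) :
    (extChartAt 𝓘(ℝ, E5) p).target ∈ 𝓝 (extChartAt 𝓘(ℝ, E5) p p + y) := by
  refine Filter.mem_of_superset (Metric.isOpen_ball.mem_nhds ?_) h.2
  rw [Metric.mem_ball, dist_eq_norm]
  rw [mem_ball_zero_iff] at hy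
  simpa using hy

theorem lft (h : Adm p ρ) {y : E5} (hy : y ∈ Metric.ball (0 : E5) ρ) : cs p (ct p y) = y := by
  unfold cs ct
  rw [(extChartAt 𝓘(ℝ, E5) p).right_inv (mem h hy)]
  simp

theorem src (h : Adm p ρ) {y : E5} (hy : y ∈ Metric.ball (0 : E5) ρ) :
    ct p y ∈ (extChartAt 𝓘(ℝ, E5) p).source :=
  (extChartAt 𝓘(ℝ, E5) p).map_target (mem h hy)

theorem rgt {q : M} (hq : q ∈ (extChartAt 𝓘(ℝ, E5) p).source) : ct p (cs p q) = q := by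
  unfold cs ct
  rw [add_sub_cancel]
  exact (extChartAt 𝓘(ℝ, E5) p).left_inv hq

theorem smt (h : Adm p ρ) {y : E5} (hy : y ∈ Metric.ball (0 : E5) ρ) :
    ContMDiffAt 𝓘(ℝ, E5) 𝓘(ℝ, E5) ∞ (ct p) y := by
  have h1 : ContMDiffAt 𝓘(ℝ, E5) 𝓘(ℝ, E5) ∞ (extChartAt 𝓘(ℝ, E5) p).symm
      (extChartAt 𝓘(ℝ, E5) p p + y) :=
    (contMDiffOn_extChartAt_symm p).contMDiffAt (nh h hy)
  have h2 : ContMDiffAt 𝓘(ℝ, E5) 𝓘(ℝ, E5) ∞ (fun z : E5 => extChartAt 𝓘(ℝ, E5) p p + z) y :=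
    (contDiff_const.add contDiff_id).contMDiff.contMDiffAt
  exact ContMDiffAt.comp y h1 h2

theorem sms' {q : M} (hq : q ∈ (extChartAt 𝓘(ℝ, E5) p).source) :
    ContMDiffAt 𝓘(ℝ, E5) 𝓘(ℝ, E5) ∞ (cs p) q := by
  rw [extChartAt_source] at hq
  have h1 : ContMDiffAt 𝓘(ℝ, E5) 𝓘(ℝ, E5) ∞ (extChartAt 𝓘(ℝ, E5) p) q :=
    contMDiffAt_extChartAt' hq
  have h2 : ContMDiffAt 𝓘(ℝ, E5) 𝓘(ℝ, E5) ∞ (fun z : E5 => z - extChartAt 𝓘(ℝ, E5) p p)
      (extChartAt 𝓘(ℝ, E5) p q) :=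
    (contDiff_id.sub contDiff_const).contMDiff.contMDiffAt
  have h3 : ContMDiffAt 𝓘(ℝ, E5) 𝓘(ℝ, E5) ∞
      ((fun z : E5 => z - extChartAt 𝓘(ℝ, E5) p p) ∘ (extChartAt 𝓘(ℝ, E5) p)) q :=
    ContMDiffAt.comp q h2 h1
  exact h3

theorem ope (h : Adm p ρ) {r : ℝ} (hr : r ≤ ρ) : IsOpen (ct p '' Metric.ball 0 r) := by
  have e : ct p '' Metric.ball 0 r = (extChartAt 𝓘(ℝ, E5) p).source
      ∩ (extChartAt 𝓘(ℝ, E5) p) ⁻¹' Metric.ball (extChartAt 𝓘(ℝ, E5) p p) r := by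
    ext q
    constructor
    · rintro ⟨y, hy, rfl⟩
      have hy' : y ∈ Metric.ball (0 : E5) ρ := Metric.ball_subset_ball hr hy
      refine ⟨src h hy', ?_⟩
      have h1 : extChartAt 𝓘(ℝ, E5) p (ct p y) = extChartAt 𝓘(ℝ, E5) p p + y :=
        (extChartAt 𝓘(ℝ, E5) p).right_inv (mem h hy')
      rw [mem_preimage, h1, Metric.mem_ball, dist_eq_norm]
      rw [mem_ball_zero_iff] at hy
      simpa using hy
    · rintro ⟨h1, h2⟩
      refine ⟨cs p q, ?_, rgt h1⟩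
      rw [mem_preimage, Metric.mem_ball, dist_eq_norm] at h2
      rw [mem_ball_zero_iff]
      exact h2
  rw [e]
  exact (continuousOn_extChartAt p).isOpen_inter_preimage (isOpen_extChartAt_source p)
    Metric.isOpen_ball

theorem dl (h : Adm p ρ) {y : E5} (hy : y ∈ Metric.ball (0 : E5) ρ) (w : E5) :
    mfderiv 𝓘(ℝ, E5) 𝓘(ℝ, E5) (cs p) (ct p y) (dct p y w) = w := by
  have m1 : MDifferentiableAt 𝓘(ℝ, E5) 𝓘(ℝ, E5) (cs p) (ct p y) :=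
    (sms' (src h hy)).mdifferentiableAt (by simp)
  have m2 : MDifferentiableAt 𝓘(ℝ, E5) 𝓘(ℝ, E5) (ct p) y := (smt h hy).mdifferentiableAt (by simp)
  have h1 := mfderiv_comp y m1 m2
  have h2 : (cs p ∘ ct p) =ᶠ[𝓝 y] id := by
    filter_upwards [Metric.isOpen_ball.mem_nhds hy] with z hz using lft h hz
  rw [h2.mfderiv_eq, mfderiv_id] at h1
  have h3 := congrArg (fun A : E5 →L[ℝ] E5 => A w) h1
  exact h3.symm

theorem dr (h : Adm p ρ) {y : E5} (hy : y ∈ Metric.ball (0 : E5) ρ)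
    (X : TangentSpace 𝓘(ℝ, E5) (ct p y)) :
    dct p y (mfderiv 𝓘(ℝ, E5) 𝓘(ℝ, E5) (cs p) (ct p y) X) = X := by
  have m1 : MDifferentiableAt 𝓘(ℝ, E5) 𝓘(ℝ, E5) (cs p) (ct p y) :=
    (sms' (src h hy)).mdifferentiableAt (by simp)
  have m2 : MDifferentiableAt 𝓘(ℝ, E5) 𝓘(ℝ, E5) (ct p) y := (smt h hy).mdifferentiableAt (by simp)
  have h1 : HasMFDerivAt 𝓘(ℝ, E5) 𝓘(ℝ, E5) (ct p) (cs p (ct p y)) (dct p y : E5 →L[ℝ] E5) := by
    rw [lft h hy]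
    exact m2.hasMFDerivAt
  have h2 := HasMFDerivAt.comp (ct p y) h1 m1.hasMFDerivAt
  have h3 : (ct p ∘ cs p) =ᶠ[𝓝 (ct p y)] id := by
    have h4 : (extChartAt 𝓘(ℝ, E5) p).source ∈ 𝓝 (ct p y) :=
      (isOpen_extChartAt_source p).mem_nhds (src h hy)
    filter_upwards [h4] with z hz using rgt hz
  have h5 : HasMFDerivAt 𝓘(ℝ, E5) 𝓘(ℝ, E5) (ct p ∘ cs p) (ct p y)
      (ContinuousLinearMap.id ℝ (TangentSpace 𝓘(ℝ, E5) (ct p y))) :=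
    (hasMFDerivAt_id (ct p y)).congr_of_eventuallyEq h3
  have h6 := hasMFDerivAt_unique h2 h5
  have h7 := congrArg (fun A : E5 →L[ℝ] E5 => A X) h6
  exact h7

end Cax

open Cax in
theorem pCa.{v} : S_Ca.{v} := by
  intro M _ _ _ p
  obtain ⟨ρ, h⟩ := exists_adm p
  refine ⟨ρ, ⟨h.1, fun y hy => smt h hy, fun y hy => sms' (src h hy), fun r hr => ope h hr,
    fun y hy => lft h hy, ?_, fun y hy w => dl h hy w, fun y hy X => dr h hy X⟩⟩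
  unfold ct
  rw [add_zero]
  exact extChartAt_to_inv p

end Pool.Agent.CR5.Man
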