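import Pool.Agent.Lib.CR5.I.Spec

/-!
# CR5, block I: existence of coordinates
-/

set_option autoImplicit false

open MeasureTheory Set Filter Topology
open scoped ENNReal ComplexConjugate Manifold ContDiff

noncomputable section

namespace Pool.Agent.CR5.Man

namespace Cdx

/-- The five real components. -/
def cp (ζ : Fin 2 → E5 →L[ℝ] ℂ) (θ : E5 →L[ℝ] ℝ) : Fin 5 → E5 →L[ℝ] ℝ :=
  ![Complex.reCLM.comp (ζ 0), Complex.imCLM.comp (ζ 0), Complex.reCLM.comp (ζ 1),
    Complex.imCLM.comp (ζ 1), θ]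

/-- The linear part. -/
def La (ζ : Fin 2 → E5 →L[ℝ] ℂ) (θ : E5 →L[ℝ] ℝ) : E5 →ₗ[ℝ] E5 where
  toFun x := WithLp.toLp 2 fun i => cp ζ θ i x
  map_add' x y := by
    ext i
    simp
  map_smul' c x := by
    ext i
    simp

theorem La_apply (ζ : Fin 2 → E5 →L[ℝ] ℂ) (θ : E5 →L[ℝ] ℝ) (x : E5) (i : Fin 5) :
    La ζ θ x i = cp ζ θ i x := rfl

theorem zc_La (ζ : Fin 2 → E5 →L[ℝ] ℂ) (θ : E5 →L[ℝ] ℝ) (x : E5) (l : Fin 2) :
    zc l (La ζ θ x) = ζ l x := by
  have hl : l = 0 ∨ l = 1 := by fin_cases l <;> simp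
  rcases hl with rfl | rfl
  · have e0 : La ζ θ x 0 = (ζ 0 x).re := rfl
    have e1 : La ζ θ x 1 = (ζ 0 x).im := rfl
    simp only [zc, if_true, e0, e1]
    rw [mul_comm]
    exact Complex.re_add_im _
  · have e0 : La ζ θ x 2 = (ζ 1 x).re := rfl
    have e1 : La ζ θ x 3 = (ζ 1 x).im := rfl
    have h1 : ((1 : Fin 2) = 0) = False := by simp
    simp only [zc, h1, if_false, e0, e1]
    rw [mul_comm]
    exact Complex.re_add_im _

theorem La_four (ζ : Fin 2 → E5 →L[ℝ] ℂ) (θ : E5 →L[ℝ] ℝ) (x : E5) : La ζ θ x 4 = θ x := rfl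

theorem inj (ζ : Fin 2 → E5 →L[ℝ] ℂ) (θ : E5 →L[ℝ] ℝ)
    (h : ∀ x : E5, (∀ k, ζ k x = 0) → θ x = 0 → x = 0) : Function.Injective (La ζ θ) := by
  rw [injective_iff_map_eq_zero]
  intro x hx
  apply h x
  · intro k
    rw [← zc_La ζ θ x k, hx]
    unfold zc
    split <;> simp
  · rw [← La_four ζ θ x, hx]
    rfl

theorem zc_add (l : Fin 2) (y : E5) (r : ℝ) : zc l (y + r • e5 4) = zc l y := by
  have h : ∀ i : Fin 5, i ≠ 4 → (y + r • e5 4) i = y i := by
    intro i hi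
    simp [e5, hi]
  unfold zc
  rw [h 0 (by decide), h 1 (by decide), h 2 (by decide), h 3 (by decide)]

theorem four_add (y : E5) (r : ℝ) : (y + r • e5 4) 4 = y 4 + r := by
  simp [e5]

end Cdx

open Cdx in
theorem pCd : S_Cd := by
  intro ζ θ h q hq q0
  have hi := inj ζ θ h
  set Le : E5 ≃L[ℝ] E5 := (LinearEquiv.ofInjectiveEndo (La ζ θ) hi).toContinuousLinearEquiv with hLe
  have eLe : ∀ x, Le x = La ζ θ x := fun x => rfl
  have zL : ∀ l x, zc l (Le x) = ζ l x := fun l x => zc_La ζ θ x l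
  have sζ : ContDiff ℝ (⊤ : ℕ∞) fun x : E5 => q fun k => ζ k x :=
    hq.comp (contDiff_pi.2 fun k => (ζ k).contDiff)
  have sz : ContDiff ℝ (⊤ : ℕ∞) fun y : E5 => q fun k => zc k y :=
    hq.comp (contDiff_pi.2 fun k => Sm.zc k)
  refine ⟨fun x => Le x + (q fun k => ζ k x) • e5 4,
    fun y => Le.symm (y + (-(q fun k => zc k y)) • e5 4), ?_, ?_, ?_, ?_, ?_, ?_, ?_⟩
  · exact Le.contDiff.add (sζ.smul contDiff_const)
  · exact Le.symm.contDiff.comp (contDiff_id.add (sz.neg.smul contDiff_const))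
  · intro x
    have e : (fun k => zc k (Le x + (q fun k => ζ k x) • e5 4)) = fun k => ζ k x := by
      funext k
      rw [zc_add, zL]
    show Le.symm (Le x + (q fun k => ζ k x) • e5 4
      + (-(q fun k => zc k (Le x + (q fun k => ζ k x) • e5 4))) • e5 4) = x
    rw [e, neg_smul, add_neg_cancel_right, ContinuousLinearEquiv.symm_apply_apply]
  · intro y
    have e : (fun k => ζ k (Le.symm (y + (-(q fun k => zc k y)) • e5 4))) = fun k => zc k y := by
      funext k
      rw [← zL, ContinuousLinearEquiv.apply_symm_apply, zc_add]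
    show Le (Le.symm (y + (-(q fun k => zc k y)) • e5 4))
      + (q fun k => ζ k (Le.symm (y + (-(q fun k => zc k y)) • e5 4))) • e5 4 = y
    rw [e, ContinuousLinearEquiv.apply_symm_apply, neg_smul, neg_add_cancel_right]
  · intro l x
    show zc l (Le x + (q fun k => ζ k x) • e5 4) = ζ l x
    rw [zc_add, zL]
  · intro x
    show (Le x + (q fun k => ζ k x) • e5 4) 4 = θ x + q fun k => ζ k x
    rw [four_add, eLe, La_four]
  · show Le 0 + (q fun k => ζ k 0) • e5 4 = 0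
    have e : (fun k => ζ k (0 : E5)) = 0 := by
      funext k
      simp
    rw [e, q0, map_zero, zero_smul, add_zero]

end Pool.Agent.CR5.Man
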