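import Pool.Agent.Lib.CR5.I.Spec
import Pool.Agent.Lib.CR5.Basic

/-!
# CR5, block I: normalised frames commute (`S_Cm`)
-/

open MeasureTheory Set Filter Topology
open scoped ENNReal ComplexConjugate Manifold ContDiff

noncomputable section

namespace Pool.Agent.CR5.Man

namespace Cmx

theorem sm_vd {u : VF} (hu : ∀ i, Sm (u i)) {f : E5 → ℂ} (hf : Sm f) : Sm (vd u f) :=
  Sm.sum _ fun i _ => (hu i).mul (hf.pd i)

theorem vd_congr {u : VF} {f g : E5 → ℂ} {x : E5} (h : f =ᶠ[𝓝 x] g) : vd u f x = vd u g x := by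
  unfold vd pd
  rw [h.fderiv_eq]

theorem vd_const (u : VF) (c : ℂ) (x : E5) : vd u (fun _ => c) x = 0 := by
  unfold vd
  simp [pd_const]

theorem vd_sum {u : VF} {ι : Type*} (s : Finset ι) {f : ι → E5 → ℂ} (hf : ∀ k ∈ s, Sm (f k)) (x : E5) :
    vd u (fun y => ∑ k ∈ s, f k y) x = ∑ k ∈ s, vd u (f k) x := by
  unfold vd
  simp_rw [pd_sum s hf, Finset.mul_sum]
  rw [Finset.sum_comm]

theorem vd_mul {u : VF} {f g : E5 → ℂ} (hf : Sm f) (hg : Sm g) (x : E5) :
    vd u (fun y => f y * g y) x = f x * vd u g x + vd u f x * g x := by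
  unfold vd
  simp_rw [pd_mul hf hg, mul_add, Finset.sum_add_distrib, Finset.mul_sum, Finset.sum_mul]
  congr 1 <;> refine Finset.sum_congr rfl fun i _ => by ring

theorem vd_mul_const {u : VF} {f : E5 → ℂ} (hf : Sm f) (c : ℂ) (x : E5) :
    vd u (fun y => f y * c) x = vd u f x * c := by
  rw [vd_mul hf (Sm.const c), vd_const]
  ring

/-- The commutator of two smooth fields applied to a smooth function. -/
theorem comm_eq {u v : VF} (hu : ∀ i, Sm (u i)) (hv : ∀ i, Sm (v i)) {f : E5 → ℂ} (hf : Sm f) (x : E5) :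
    vd u (vd v f) x - vd v (vd u f) x = ∑ i, vbr u v i x * pd i f x := by
  have h1 : ∀ {a b : VF}, (∀ i, Sm (a i)) → (∀ i, Sm (b i)) →
      vd a (vd b f) x = ∑ i, (b i x * vd a (pd i f) x + vd a (b i) x * pd i f x) := by
    intro a b ha hb
    have h2 : vd b f = fun y => ∑ i, b i y * pd i f y := rfl
    rw [h2, vd_sum _ fun i _ => (hb i).mul (hf.pd i)]
    exact Finset.sum_congr rfl fun i _ => vd_mul (hb i) (hf.pd i) x
  rw [h1 hu hv, h1 hv hu]
  have h3 : ∑ i, v i x * vd u (pd i f) x = ∑ i, u i x * vd v (pd i f) x := by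
    unfold vd
    simp_rw [Finset.mul_sum]
    rw [Finset.sum_comm]
    refine Finset.sum_congr rfl fun i _ => Finset.sum_congr rfl fun j _ => ?_
    rw [pd_comm hf]
    ring
  simp_rw [Finset.sum_add_distrib]
  rw [h3]
  unfold vbr
  simp_rw [sub_mul, Finset.sum_sub_distrib]
  ring

end Cmx

open Cmx in
/-- **Cm.** Normalised frames commute. -/
theorem pCm : S_Cm := by
  intro K ρ hK ζ r U hr hrρ hU hx f hf x hxr
  have hop : ∀ᶠ y in 𝓝 x, y ∈ Metric.ball (0 : E5) r := Metric.isOpen_ball.mem_nhds hxr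
  have hinv : (fun i => vbr (U 0) (U 1) i x) ∈ K x :=
    hK.invol r hrρ (U 0) (U 1) (fun i => (hU 0 i).contDiff.contDiffOn) (fun i => (hU 1 i).contDiff.contDiffOn)
      (fun y hy => (hx y hy).2.1 0) (fun y hy => (hx y hy).2.1 1) x hxr
  obtain ⟨γ, hγ⟩ := (hx x hxr).2.2 _ hinv
  have hpair : ∀ k, ∑ i, vbr (U 0) (U 1) i x * conj (ζ k (e5 i)) = 0 := by
    intro k
    have hs : ∀ a b : Fin 2, ∑ i, vd (U a) (U b i) x * conj (ζ k (e5 i)) = 0 := by
      intro a b
      have h1 : vd (U a) (fun y => ∑ i, U b i y * conj (ζ k (e5 i))) x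
          = ∑ i, vd (U a) (U b i) x * conj (ζ k (e5 i)) := by
        rw [vd_sum _ fun i _ => (hU b i).mul (Sm.const _)]
        exact Finset.sum_congr rfl fun i _ => vd_mul_const (hU b i) _ x
      rw [← h1]
      have h2 : (fun y => ∑ i, U b i y * conj (ζ k (e5 i))) =ᶠ[𝓝 x] fun _ => if b = k then (1 : ℂ) else 0 := by
        filter_upwards [hop] with y hy
        exact (hx y hy).1 b k
      rw [vd_congr h2, vd_const]
    unfold vbr
    simp_rw [sub_mul, Finset.sum_sub_distrib]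
    rw [hs 0 1, hs 1 0, sub_self]
  have hγ0 : ∀ k, γ k = 0 := by
    intro k
    have h1 := hpair k
    have h2 : ∀ i, vbr (U 0) (U 1) i x = ∑ j, γ j * U j i x := fun i => congrFun hγ i
    simp_rw [h2, Finset.sum_mul] at h1
    rw [Finset.sum_comm] at h1
    have h3 : ∀ j, ∑ i, γ j * U j i x * conj (ζ k (e5 i)) = γ j * if j = k then 1 else 0 := by
      intro j
      rw [← (hx x hxr).1 j k, Finset.mul_sum]
      exact Finset.sum_congr rfl fun i _ => by ring
    simp_rw [h3] at h1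
    simpa using h1
  have hz : ∀ i, vbr (U 0) (U 1) i x = 0 := by
    intro i
    have h := congrFun hγ i
    simp only [hγ0, zero_mul, Finset.sum_const_zero] at h
    exact h
  have h := comm_eq (hU 0) (hU 1) hf x
  simp only [hz, zero_mul, Finset.sum_const_zero] at h
  exact sub_eq_zero.1 h

end Pool.Agent.CR5.Man
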