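import Pool.Agent.Lib.CR5.I.Spec

/-!
# CR5, block I, Cn: chain rule in complex coordinates
-/

set_option autoImplicit false

open MeasureTheory Set Filter Topology
open scoped ENNReal ComplexConjugate

noncomputable section

namespace Pool.Agent.CR5.Man

namespace Cnx

theorem eq_sum (v : E5) : v = ∑ k : Fin 5, v k • e5 k := by
  ext i
  rw [WithLp.ofLp_sum, Finset.sum_apply]
  simp [e5]

theorem fderiv_sum (f : E5 → ℂ) (x v : E5) :
    fderiv ℝ f x v = ∑ k : Fin 5, (v k : ℂ) * pd k f x := by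
  conv_lhs => rw [eq_sum v]
  rw [map_sum]
  refine Finset.sum_congr rfl fun k _ => ?_
  rw [map_smul, Complex.real_smul]
  rfl

/-- The coordinates as continuous linear maps. -/
def cL (k : Fin 5) : E5 →L[ℝ] ℂ := Complex.ofRealCLM.comp (EuclideanSpace.proj k : E5 →L[ℝ] ℝ)

theorem cL_apply (k : Fin 5) (y : E5) : cL k y = (y k : ℂ) := rfl

/-- The complex coordinates as continuous linear maps. -/
def zL (l : Fin 2) : E5 →L[ℝ] ℂ := if l = 0 then cL 0 + Complex.I • cL 1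
  else cL 2 + Complex.I • cL 3

theorem zL_apply (l : Fin 2) (y : E5) : zL l y = zc l y := by
  unfold zL zc
  split_ifs
  · simp [cL_apply]
  · simp [cL_apply]

/-- The conjugate complex coordinates. -/
def zbL (l : Fin 2) : E5 →L[ℝ] ℂ := (Complex.conjCLE : ℂ →L[ℝ] ℂ).comp (zL l)

theorem zbL_apply (l : Fin 2) (y : E5) : zbL l y = conj (zc l y) := by
  unfold zbL
  rw [ContinuousLinearMap.comp_apply, zL_apply]
  rfl

theorem vd_lin {u : VF} {Ψ : E5 → E5} {x : E5} (h : DifferentiableAt ℝ Ψ x) (Z : E5 →L[ℝ] ℂ) :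
    vd u (fun y => Z (Ψ y)) x = ∑ i, u i x * Z (fderiv ℝ Ψ x (e5 i)) := by
  have h1 : fderiv ℝ (fun y => Z (Ψ y)) x = Z.comp (fderiv ℝ Ψ x) :=
    (Z.hasFDerivAt.comp x h.hasFDerivAt).fderiv
  unfold vd pd
  rw [h1]
  rfl

end Cnx

open Cnx

theorem pCn : S_Cn := by
  intro u Ψ f x hΨ hf
  have h1 : fderiv ℝ (fun y => f (Ψ y)) x = (fderiv ℝ f (Ψ x)).comp (fderiv ℝ Ψ x) :=
    (hf.hasFDerivAt.comp x hΨ.hasFDerivAt).fderiv
  have h2 : vd u (fun y => f (Ψ y)) x = ∑ i, u i x * fderiv ℝ f (Ψ x) (fderiv ℝ Ψ x (e5 i)) := by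
    unfold vd
    refine Finset.sum_congr rfl fun i _ => ?_
    show u i x * fderiv ℝ (fun y => f (Ψ y)) x (e5 i) = _
    rw [h1]
    rfl
  have h3 : ∀ l, vd u (fun y => conj (zc l (Ψ y))) x =
      ∑ i, u i x * conj (zc l (fderiv ℝ Ψ x (e5 i))) := by
    intro l
    have := vd_lin (u := u) hΨ (zbL l)
    simpa only [zbL_apply] using this
  have h4 : ∀ l, vd u (fun y => zc l (Ψ y)) x =
      ∑ i, u i x * zc l (fderiv ℝ Ψ x (e5 i)) := by
    intro l
    have := vd_lin (u := u) hΨ (zL l)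
    simpa only [zL_apply] using this
  have h5 : vd u (fun y => (Ψ y 4 : ℂ)) x =
      ∑ i, u i x * ((fderiv ℝ Ψ x (e5 i) 4 : ℝ) : ℂ) := vd_lin (u := u) hΨ (cL 4)
  rw [h2, h5]
  simp only [h3, h4]
  rw [Fin.sum_univ_two]
  simp only [Finset.sum_mul]
  rw [← Finset.sum_add_distrib, ← Finset.sum_add_distrib, ← Finset.sum_add_distrib,
    ← Finset.sum_add_distrib]
  refine Finset.sum_congr rfl fun i _ => ?_
  rw [fderiv_sum f (Ψ x) (fderiv ℝ Ψ x (e5 i)), Fin.sum_univ_five]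
  have c0 : (Fin.castSucc (0 : Fin 2)) = (0 : Fin 3) := rfl
  have c1 : (Fin.castSucc (1 : Fin 2)) = (1 : Fin 3) := rfl
  have z0 : ∀ w : E5, zc 0 w = (w 0 : ℂ) + Complex.I * (w 1 : ℂ) := fun w => by simp [zc]
  have z1 : ∀ w : E5, zc 1 w = (w 2 : ℂ) + Complex.I * (w 3 : ℂ) := fun w => by simp [zc]
  rw [c0, c1, db_zero, db_one, dz_zero, dz_one, z0, z1]
  simp only [map_add, map_mul, Complex.conj_I, Complex.conj_ofReal]
  have hI : Complex.I ^ 2 = -1 := Complex.I_sq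
  ring_nf
  rw [hI]
  ring

end Pool.Agent.CR5.Man
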