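import Pool.Agent.Lib.CR5.I.Spec

/-!
# CR5, block I: CR functions in the centred chart (`S_Cr`)
-/

open MeasureTheory Set Filter Topology
open scoped ENNReal ComplexConjugate Manifold ContDiff

noncomputable section

namespace Pool.Agent.CR5.Man

universe v

namespace Crx

variable {M : Type v} [TopologicalSpace M] [ChartedSpace E5 M] [IsManifold 𝓘(ℝ, E5) ∞ M]

theorem sum_e5 (w : E5) : w = ∑ i, (w i) • e5 i := by
  ext j
  simp only [e5, WithLp.ofLp_sum, Finset.sum_apply, PiLp.single_apply, smul_eq_mul, WithLp.ofLp_smul,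
    Pi.smul_apply]
  rw [Finset.sum_eq_single j]
  · simp
  · intro b _ hb
    simp [Ne.symm hb]
  · simp

theorem fderiv_sum (f : E5 → ℂ) (y w : E5) : fderiv ℝ f y w = ∑ i, (w i : ℂ) * pd i f y := by
  conv_lhs => rw [sum_e5 w]
  rw [map_sum]
  refine Finset.sum_congr rfl fun i _ => ?_
  rw [map_smul]
  simp [pd]

theorem rder_comp {p : M} {ρ : ℝ} (hC : Ctr p ρ) {y : E5} (hy : y ∈ Metric.ball (0 : E5) ρ)
    (f : E5 → ℂ) (hf : DifferentiableAt ℝ f y) (X : TangentSpace 𝓘(ℝ, E5) (ct p y)) :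
    rder (fun q => f (cs p q)) (ct p y) X
      = fderiv ℝ f y (mfderiv 𝓘(ℝ, E5) 𝓘(ℝ, E5) (cs p) (ct p y) X) := by
  have hl := hC.left y hy
  have h1 : MDifferentiableAt 𝓘(ℝ, E5) 𝓘(ℝ, E5) (cs p) (ct p y) :=
    (hC.sms y hy).mdifferentiableAt (by simp)
  have h2 : MDifferentiableAt 𝓘(ℝ, E5) 𝓘(ℝ, ℂ) f (cs p (ct p y)) := by
    rw [hl]
    exact hf.mdifferentiableAt
  have h3 := mfderiv_comp (ct p y) h2 h1
  unfold rder
  have h4 : (fun q => f (cs p q)) = f ∘ cs p := rfl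
  rw [h4, h3]
  show mfderiv 𝓘(ℝ, E5) 𝓘(ℝ, ℂ) f (cs p (ct p y)) (mfderiv 𝓘(ℝ, E5) 𝓘(ℝ, E5) (cs p) (ct p y) X) = _
  rw [mfderiv_eq_fderiv]
  rw [hl]
  rfl

end Crx

open Crx in
/-- **Cr.** CR functions in the centred chart. -/
theorem pCr : S_Cr.{v} := by
  intro M _ _ _ S p ρ hC y hy v hv
  let a : E5 := mfderiv 𝓘(ℝ, E5) 𝓘(ℝ, E5) (cs p) (ct p y) v.1
  let b : E5 := mfderiv 𝓘(ℝ, E5) 𝓘(ℝ, E5) (cs p) (ct p y) v.2
  refine ⟨fun i => (a i : ℂ) - Complex.I * (b i : ℂ), ?_, ?_⟩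
  · show pc p y _ ∈ S.H (ct p y)
    have h1 : vre (fun i => (a i : ℂ) - Complex.I * (b i : ℂ)) = a := by
      ext i
      simp [vre]
    have h2 : vim (fun i => (a i : ℂ) - Complex.I * (b i : ℂ)) = -b := by
      ext i
      simp [vim]
    have h3 : pc p y (fun i => (a i : ℂ) - Complex.I * (b i : ℂ)) = v := by
      unfold pc
      rw [h1, h2, map_neg, neg_neg]
      exact Prod.ext (hC.dr y hy v.1) (hC.dr y hy v.2)
    rw [h3]
    exact hv
  · intro f hf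
    unfold cder cconj
    rw [rder_comp hC hy f hf, rder_comp hC hy f hf]
    show fderiv ℝ f y a + Complex.I * fderiv ℝ f y (mfderiv 𝓘(ℝ, E5) 𝓘(ℝ, E5) (cs p) (ct p y) (-v.2)) = _
    rw [map_neg]
    show fderiv ℝ f y a + Complex.I * fderiv ℝ f y (-b) = _
    rw [map_neg, fderiv_sum f y a, fderiv_sum f y b, mul_neg, Finset.mul_sum, ← sub_eq_add_neg,
      ← Finset.sum_sub_distrib]
    exact Finset.sum_congr rfl fun i _ => by ring

end Pool.Agent.CR5.Man
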