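import Pool.Agent.Lib.CR5.I.Spec
import Pool.Agent.Lib.CR5.F.Sq

/-!
# CR5, block I, Dl: dilations
-/

set_option autoImplicit false

open MeasureTheory Set Filter Topology
open scoped ENNReal ComplexConjugate

noncomputable section

namespace Pool.Agent.CR5.Man

namespace Dlx

/-- The factor of the dilation in the direction `k`. -/
def sk (s : ℝ) (k : Fin 5) : ℝ := if k = 4 then s ^ 2 else s

/-- The dilation as a continuous linear map. -/
def dilL (s : ℝ) : E5 →L[ℝ] E5 := LinearMap.toContinuousLinearMap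
  { toFun := dil s
    map_add' := fun x y => by
      ext i
      show (if i = 4 then s ^ 2 else s) * (x i + y i) =
        (if i = 4 then s ^ 2 else s) * x i + (if i = 4 then s ^ 2 else s) * y i
      ring
    map_smul' := fun c x => by
      ext i
      show (if i = 4 then s ^ 2 else s) * (c * x i) = c * ((if i = 4 then s ^ 2 else s) * x i)
      ring }

theorem dilL_apply (s : ℝ) (x : E5) : dilL s x = dil s x := rfl

theorem dil_coord (s : ℝ) (x : E5) (i : Fin 5) : dil s x i = sk s i * x i := rfl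

theorem dilL_e5 (s : ℝ) (k : Fin 5) : dilL s (e5 k) = sk s k • e5 k := by
  ext i
  rw [dilL_apply, dil_coord]
  by_cases h : i = k
  · subst h; simp [e5]
  · simp [e5, h]

theorem sm_dil {g : E5 → ℂ} (hg : Sm g) (s : ℝ) : Sm fun y => g (dil s y) :=
  ContDiff.comp hg (dilL s).contDiff

theorem pd_dil {g : E5 → ℂ} (hg : Sm g) (s : ℝ) (k : Fin 5) (y : E5) :
    pd k (fun y => g (dil s y)) y = (sk s k : ℂ) * pd k g (dil s y) := by
  have h1 : HasFDerivAt (fun y : E5 => dil s y) (dilL s) y := (dilL s).hasFDerivAt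
  have h2 := (hg.diffAt (dil s y)).hasFDerivAt.comp y h1
  have h3 : fderiv ℝ (fun y => g (dil s y)) y = (fderiv ℝ g (dil s y)).comp (dilL s) := h2.fderiv
  unfold pd
  rw [h3, ContinuousLinearMap.comp_apply, dilL_e5, map_smul, Complex.real_smul]

theorem sk_pos {s : ℝ} (hs : 0 < s) (k : Fin 5) : 0 < sk s k := by
  unfold sk; split_ifs <;> positivity

theorem sk_le {s : ℝ} (hs : 0 < s) (hs1 : s ≤ 1) (k : Fin 5) : sk s k ≤ s := by
  unfold sk; split_ifs
  · nlinarith
  · exact le_rfl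

end Dlx

open Dlx

theorem pDl : S_Dl := by
  intro n
  induction n with
  | zero =>
    intro g c s hg hs hs1 x
    rw [sq_zero', sq_zero', mul_zero, pow_zero, mul_one, norm_mul, mul_pow]
  | succ n ih =>
    intro g c s hg hs hs1 x
    rw [sq_succ, sq_succ, Finset.mul_sum]
    refine Finset.sum_le_sum fun k _ => ?_
    have h1 : pd k (fun y => c * g (dil s y)) =
        fun y => (c * (sk s k : ℂ)) * pd k g (dil s y) := by
      funext y
      rw [pd_const_mul (sm_dil hg s), pd_dil hg, mul_assoc]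
    rw [h1]
    refine (ih (pd k g) (c * (sk s k : ℂ)) s (hg.pd k) hs hs1 x).trans ?_
    have h2 : ‖c * (sk s k : ℂ)‖ ^ 2 = ‖c‖ ^ 2 * sk s k ^ 2 := by
      rw [norm_mul, mul_pow, Complex.norm_real, Real.norm_eq_abs, sq_abs]
    have h3 : sk s k ^ 2 ≤ s ^ 2 := pow_le_pow_left₀ (sk_pos hs k).le (sk_le hs hs1 k) 2
    have h4 : s ^ (2 * (n + 1)) = s ^ 2 * s ^ (2 * n) := by rw [← pow_add]; congr 1; ring
    rw [h2, h4]
    have h5 : 0 ≤ sq n (pd k g) (dil s x) := sq_nonneg' n _ _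
    have h6 : 0 ≤ ‖c‖ ^ 2 * s ^ (2 * n) * sq n (pd k g) (dil s x) := by positivity
    calc ‖c‖ ^ 2 * sk s k ^ 2 * s ^ (2 * n) * sq n (pd k g) (dil s x)
        = sk s k ^ 2 * (‖c‖ ^ 2 * s ^ (2 * n) * sq n (pd k g) (dil s x)) := by ring
      _ ≤ s ^ 2 * (‖c‖ ^ 2 * s ^ (2 * n) * sq n (pd k g) (dil s x)) :=
          mul_le_mul_of_nonneg_right h3 h6
      _ = ‖c‖ ^ 2 * (s ^ 2 * s ^ (2 * n)) * sq n (pd k g) (dil s x) := by ring

end Pool.Agent.CR5.Man
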