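import Pool.Agent.Lib.CR5.I.Spec

/-!
# CR5, block I: embeddings in the centred chart (helper25)
-/

open MeasureTheory Set Filter Topology
open scoped ENNReal ComplexConjugate Manifold ContDiff

noncomputable section

namespace Pool.Agent.CR5.Man

namespace Ebx

/-- the lower bound for the differential -/
theorem low {f : Fin 3 → E5 → ℂ} {r c : ℝ} {y : E5} (hy : y ∈ Metric.ball (0 : E5) r)
    (hf : ∀ k, DifferentiableAt ℝ (f k) y)
    (hl : ∀ x ∈ Metric.ball (0 : E5) r, ∀ y ∈ Metric.ball (0 : E5) r,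
      c * ‖x - y‖ ≤ ∑ k, ‖f k x - f k y‖) (w : E5) :
    c * ‖w‖ ≤ ∑ k, ‖fderiv ℝ (f k) y w‖ := by
  have h1 : ∀ k, HasDerivAt (fun t : ℝ => f k (y + t • w)) (fderiv ℝ (f k) y w) 0 := by
    intro k
    have h2 : HasDerivAt (fun t : ℝ => y + t • w) w 0 := by
      have h3 : HasDerivAt (fun t : ℝ => t • w) ((1 : ℝ) • w) 0 := (hasDerivAt_id 0).smul_const w
      rw [one_smul] at h3
      exact h3.const_add y
    have h4 : HasFDerivAt (f k) (fderiv ℝ (f k) y) (y + (0 : ℝ) • w) := by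
      rw [zero_smul, add_zero]
      exact (hf k).hasFDerivAt
    exact h4.comp_hasDerivAt (0 : ℝ) h2
  have h5 : Tendsto (fun t : ℝ => ∑ k, ‖slope (fun t : ℝ => f k (y + t • w)) 0 t‖) (𝓝[≠] 0)
      (𝓝 (∑ k, ‖fderiv ℝ (f k) y w‖)) :=
    tendsto_finsetSum _ fun k _ => (hasDerivAt_iff_tendsto_slope.mp (h1 k)).norm
  refine ge_of_tendsto h5 ?_
  have hcont : ContinuousAt (fun t : ℝ => y + t • w) 0 := by fun_prop
  have hball : ∀ᶠ t : ℝ in 𝓝 0, y + t • w ∈ Metric.ball (0 : E5) r := by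
    refine hcont.eventually_mem (Metric.isOpen_ball.mem_nhds ?_)
    simpa using hy
  filter_upwards [self_mem_nhdsWithin, nhdsWithin_le_nhds hball] with t ht htb
  have ht0 : t ≠ 0 := ht
  have h6 := hl (y + t • w) htb y hy
  rw [add_sub_cancel_left, norm_smul, Real.norm_eq_abs] at h6
  have h7 : ∀ k, ‖slope (fun t : ℝ => f k (y + t • w)) 0 t‖
      = |t|⁻¹ * ‖f k (y + t • w) - f k y‖ := by
    intro k
    rw [slope_def_module, norm_smul, sub_zero, norm_inv, Real.norm_eq_abs, zero_smul, add_zero]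
  simp only [h7]
  rw [← Finset.mul_sum]
  have h8 : 0 < |t| := abs_pos.mpr ht0
  rw [inv_mul_eq_div, le_div_iff₀ h8]
  linarith

end Ebx

/-- **Eb.** -/
theorem pEb.{u} : S_Eb.{u} := by
  intro M _ _ _ p ρ r hC hr hrρ f hf c hc hl F hF
  have hsub : ∀ y ∈ Metric.ball (0 : E5) r, y ∈ Metric.ball (0 : E5) ρ := fun y hy =>
    Metric.ball_subset_ball hrρ hy
  set g : E5 → (Fin 3 → ℂ) := fun y k => f k y with hg
  have hFg : F = g ∘ cs p := hF
  have hfk : ∀ k, ∀ y ∈ Metric.ball (0 : E5) r, ContDiffAt ℝ (⊤ : ℕ∞) (f k) y := fun k y hy =>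
    (hf k).contDiffAt (Metric.isOpen_ball.mem_nhds hy)
  have hgy : ∀ y ∈ Metric.ball (0 : E5) r, ContDiffAt ℝ (⊤ : ℕ∞) g y := fun y hy =>
    contDiffAt_pi.mpr fun k => hfk k y hy
  have hsm : ∀ y ∈ Metric.ball (0 : E5) r,
      ContMDiffAt 𝓘(ℝ, E5) 𝓘(ℝ, Fin 3 → ℂ) ∞ F (ct p y) := by
    intro y hy
    rw [hFg]
    have h1 : ContMDiffAt 𝓘(ℝ, E5) 𝓘(ℝ, Fin 3 → ℂ) ∞ g (cs p (ct p y)) := by
      rw [hC.left y (hsub y hy)]
      exact (hgy y hy).contMDiffAt
    exact h1.comp (ct p y) (hC.sms y (hsub y hy))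
  have hFct : ∀ y ∈ Metric.ball (0 : E5) r, ∀ k, F (ct p y) k = f k y := by
    intro y hy k
    rw [hFg]
    show f k (cs p (ct p y)) = f k y
    rw [hC.left y (hsub y hy)]
  have hon : ContMDiffOn 𝓘(ℝ, E5) 𝓘(ℝ, Fin 3 → ℂ) ∞ F (ct p '' Metric.ball 0 r) := by
    rintro q ⟨y, hy, rfl⟩
    exact (hsm y hy).contMDiffWithinAt
  refine ⟨hon, ?_, ?_⟩
  · have hcont : Continuous ((ct p '' Metric.ball 0 r).domRestrict F) :=
      continuousOn_iff_continuous_domRestrict.mp hon.continuousOn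
    have hest : ∀ y ∈ Metric.ball (0 : E5) r, ∀ y' ∈ Metric.ball (0 : E5) r,
        c * ‖y' - y‖ ≤ ∑ k, ‖F (ct p y') k - F (ct p y) k‖ := by
      intro y hy y' hy'
      simp only [hFct y hy, hFct y' hy']
      exact hl y' hy' y hy
    refine ⟨⟨?_⟩, ?_⟩
    · rw [← isInducing_iff, isInducing_iff_nhds]
      rintro ⟨q, y, hy, rfl⟩
      refine le_antisymm (hcont.continuousAt.tendsto.le_comap) ?_
      intro s hs
      rw [mem_nhds_subtype] at hs
      obtain ⟨S, hS, hSs⟩ := hs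
      have hct : ContinuousAt (ct p) y := (hC.smt y (hsub y hy)).continuousAt
      have hpre : ct p ⁻¹' S ∈ 𝓝 y := hct hS
      obtain ⟨δ, hδ, hball⟩ := Metric.mem_nhds_iff.mp hpre
      rw [mem_comap]
      refine ⟨{z | ∑ k, ‖z k - F (ct p y) k‖ < c * δ}, ?_, ?_⟩
      · have ho : IsOpen {z : Fin 3 → ℂ | ∑ k, ‖z k - F (ct p y) k‖ < c * δ} := by
          refine isOpen_lt ?_ continuous_const
          fun_prop
        refine ho.mem_nhds ?_
        show ∑ k, ‖F (ct p y) k - F (ct p y) k‖ < c * δ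
        simp only [sub_self, norm_zero, Finset.sum_const_zero]
        positivity
      · rintro ⟨q', y', hy', rfl⟩ hz
        have hz' : ∑ k, ‖F (ct p y') k - F (ct p y) k‖ < c * δ := hz
        apply hSs
        show ct p y' ∈ S
        have h1 := hest y hy y' hy'
        have h2 : c * ‖y' - y‖ < c * δ := h1.trans_lt hz'
        have h3 : ‖y' - y‖ < δ := lt_of_mul_lt_mul_left h2 hc.le
        apply hball
        rw [mem_ball_iff_norm]
        exact h3
    · rintro ⟨q, y, hy, rfl⟩ ⟨q', y', hy', rfl⟩ h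
      have h1 : F (ct p y) = F (ct p y') := h
      have h2 := hest y hy y' hy'
      simp only [h1, sub_self, norm_zero, Finset.sum_const_zero] at h2
      have h3 : ‖y' - y‖ ≤ 0 := by
        by_contra h4
        push Not at h4
        have := mul_pos hc h4
        linarith
      have h4 : y' = y := sub_eq_zero.mp (norm_le_zero_iff.mp h3)
      subst h4
      rfl
  · rintro q ⟨y, hy, rfl⟩
    have hcs : MDifferentiableAt 𝓘(ℝ, E5) 𝓘(ℝ, E5) (cs p) (ct p y) :=
      (hC.sms y (hsub y hy)).mdifferentiableAt (by simp)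
    have hgd : MDifferentiableAt 𝓘(ℝ, E5) 𝓘(ℝ, Fin 3 → ℂ) g (cs p (ct p y)) := by
      rw [hC.left y (hsub y hy)]
      exact ((hgy y hy).differentiableAt (by simp)).mdifferentiableAt
    have h1 := mfderiv_comp (ct p y) hgd hcs
    have h2 : ∀ X : TangentSpace 𝓘(ℝ, E5) (ct p y),
        mfderiv 𝓘(ℝ, E5) 𝓘(ℝ, Fin 3 → ℂ) F (ct p y) X
          = fderiv ℝ g y (mfderiv 𝓘(ℝ, E5) 𝓘(ℝ, E5) (cs p) (ct p y) X) := by
      intro X
      rw [hFg, h1]
      show mfderiv 𝓘(ℝ, E5) 𝓘(ℝ, Fin 3 → ℂ) g (cs p (ct p y))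
        (mfderiv 𝓘(ℝ, E5) 𝓘(ℝ, E5) (cs p) (ct p y) X) = _
      have e1 : mfderiv 𝓘(ℝ, E5) 𝓘(ℝ, Fin 3 → ℂ) g (cs p (ct p y)) = fderiv ℝ g y := by
        rw [mfderiv_eq_fderiv, hC.left y (hsub y hy)]
      rw [e1]
      rfl
    have hlin : Function.Injective (fderiv ℝ g y) := by
      rw [injective_iff_map_eq_zero]
      intro w hw
      have hfd : ∀ k, DifferentiableAt ℝ (f k) y := fun k =>
        (hfk k y hy).differentiableAt (by simp)
      have h3 := Ebx.low hy hfd hl w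
      have h4 : ∀ k, fderiv ℝ (f k) y w = 0 := by
        intro k
        have h5 : fderiv ℝ g y = ContinuousLinearMap.pi fun k => fderiv ℝ (f k) y :=
          fderiv_pi hfd
        rw [h5] at hw
        exact congrFun hw k
      simp only [h4, norm_zero, Finset.sum_const_zero] at h3
      by_contra h5
      have := mul_pos hc (norm_pos_iff.mpr h5)
      linarith
    intro X X' hX
    rw [h2, h2] at hX
    have h3 := hlin hX
    rw [← hC.dr y (hsub y hy) X, ← hC.dr y (hsub y hy) X', h3]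

end Pool.Agent.CR5.Man
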