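import Pool.Agent.Lib.CR5.I.Spec

/-!
# CR5, block I: maps which are close to the standard one are embeddings
-/

set_option autoImplicit false

open MeasureTheory Set Filter Topology
open scoped ENNReal ComplexConjugate Manifold ContDiff

noncomputable section

namespace Pool.Agent.CR5.Man

namespace Emx

theorem coord_le (w : E5) (i : Fin 5) : |w i| ≤ ‖w‖ := by
  have h := PiLp.norm_apply_le (p := 2) w i
  rwa [Real.norm_eq_abs] at h

theorem decomp (w : E5) : w = ∑ i, w i • e5 i := by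
  ext j
  have h : (∑ i, w i • e5 i) j = ∑ i, (w i • e5 i) j := by
    rw [WithLp.ofLp_sum, Finset.sum_apply]
  rw [h]
  simp [e5]

theorem fderiv_le (f : E5 → ℂ) (x : E5) (c : ℝ) (h : ∀ i, ‖pd i f x‖ ≤ c) :
    ‖fderiv ℝ f x‖ ≤ 5 * c := by
  have hc : 0 ≤ c := (norm_nonneg _).trans (h 0)
  apply ContinuousLinearMap.opNorm_le_bound _ (by positivity)
  intro w
  have h1 : fderiv ℝ f x w = ∑ i, w i • pd i f x := by
    conv_lhs => rw [decomp w, map_sum]
    exact Finset.sum_congr rfl fun i _ => by rw [map_smul]; rfl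
  rw [h1]
  calc ‖∑ i, w i • pd i f x‖ ≤ ∑ i, ‖w i • pd i f x‖ := norm_sum_le _ _
    _ ≤ ∑ _i : Fin 5, ‖w‖ * c := Finset.sum_le_sum fun i _ => by
        rw [norm_smul, Real.norm_eq_abs]
        exact mul_le_mul (coord_le w i) (h i) (norm_nonneg _) (norm_nonneg _)
    _ = 5 * c * ‖w‖ := by
        rw [Finset.sum_const, Finset.card_univ, Fintype.card_fin, nsmul_eq_mul]
        push_cast
        ring

theorem contDiff_zz : ContDiff ℝ (⊤ : ℕ∞) zz := by
  unfold zz
  exact ((((contDiff_coord 0).pow 2).add ((contDiff_coord 1).pow 2)).add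
    ((contDiff_coord 2).pow 2)).add ((contDiff_coord 3).pow 2)

theorem smF0 (k : Fin 3) : Sm (F0 k) := by
  rcases fin3_cases k with rfl | rfl | rfl
  · exact Sm.zc 0
  · exact Sm.zc 1
  · exact (Sm.coord 4).add ((Sm.const Complex.I).mul (Sm.ofReal contDiff_zz))

theorem norm_le (w : E5) : ‖w‖ ≤ ‖zc 0 w‖ + ‖zc 1 w‖ + |w 4| := by
  have h0 : ‖zc 0 w‖ ^ 2 = w 0 ^ 2 + w 1 ^ 2 := by
    rw [← Complex.normSq_eq_norm_sq, Complex.normSq_apply]
    simp [zc]
    ring
  have h1 : ‖zc 1 w‖ ^ 2 = w 2 ^ 2 + w 3 ^ 2 := by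
    rw [← Complex.normSq_eq_norm_sq, Complex.normSq_apply]
    simp [zc]
    ring
  have h2 : ‖w‖ ^ 2 = w 0 ^ 2 + w 1 ^ 2 + w 2 ^ 2 + w 3 ^ 2 + w 4 ^ 2 := by
    rw [EuclideanSpace.norm_sq_eq]
    simp only [Real.norm_eq_abs, sq_abs]
    rw [Fin.sum_univ_five]
  have h3 : |w 4| ^ 2 = w 4 ^ 2 := sq_abs _
  have a0 := norm_nonneg (zc 0 w)
  have a1 := norm_nonneg (zc 1 w)
  have a2 := abs_nonneg (w 4)
  apply le_of_sq_le_sq _ (by positivity)
  nlinarith [mul_nonneg a0 a1, mul_nonneg a0 a2, mul_nonneg a1 a2]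

theorem zc_sub (j : Fin 2) (x y : E5) : zc j (x - y) = zc j x - zc j y := by
  unfold zc
  split
  · simp only [PiLp.sub_apply]
    push_cast
    ring
  · simp only [PiLp.sub_apply]
    push_cast
    ring

end Emx

open Emx in
theorem pEm : S_Em := by
  intro F hF h x y hx hy
  have hd : ∀ k, ∀ z ∈ Metric.ball (0 : E5) (1 / 8), DifferentiableAt ℝ (F k) z := by
    intro k z hz
    exact ((hF k).contDiffAt (Metric.isOpen_ball.mem_nhds hz)).differentiableAt (by simp)
  have key : ∀ k, ‖(F k x - F0 k x) - (F k y - F0 k y)‖ ≤ 1 / 20 * ‖x - y‖ := by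
    intro k
    have h1 : ∀ z ∈ Metric.ball (0 : E5) (1 / 8),
        DifferentiableAt ℝ (fun z => F k z - F0 k z) z :=
      fun z hz => (hd k z hz).sub ((smF0 k).diffAt z)
    have h2 : ∀ z ∈ Metric.ball (0 : E5) (1 / 8),
        ‖fderiv ℝ (fun z => F k z - F0 k z) z‖ ≤ 1 / 20 := by
      intro z hz
      have h3 := fderiv_le (fun z => F k z - F0 k z) z (1 / 100) fun i => by
        have h4 : pd i (fun z => F k z - F0 k z) z = pd i (F k) z - pd i (F0 k) z := by
          unfold pd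
          rw [fderiv_fun_sub (hd k z hz) ((smF0 k).diffAt z)]
          rfl
        rw [h4]
        exact h k i z (by simpa using hz)
      linarith
    exact (convex_ball (0 : E5) (1 / 8)).norm_image_sub_le_of_norm_fderiv_le h1 h2
      (by simpa using hy) (by simpa using hx)
  have k0 := key 0
  have k1 := key 1
  have k2 := key 2
  have t : ∀ k, ‖F0 k x - F0 k y‖ ≤ ‖F k x - F k y‖ + 1 / 20 * ‖x - y‖ := by
    intro k
    have e : F0 k x - F0 k y = (F k x - F k y) - ((F k x - F0 k x) - (F k y - F0 k y)) := by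
      ring
    rw [e]
    exact (norm_sub_le _ _).trans (add_le_add le_rfl (key k))
  have t0 := t 0
  have t1 := t 1
  have t2 := t 2
  have s0 : ‖F0 0 x - F0 0 y‖ = ‖zc 0 (x - y)‖ := by rw [zc_sub]; rfl
  have s1 : ‖F0 1 x - F0 1 y‖ = ‖zc 1 (x - y)‖ := by rw [zc_sub]; rfl
  have s2 : |(x - y) 4| ≤ ‖F0 2 x - F0 2 y‖ := by
    have e : (F0 2 x - F0 2 y).re = (x - y) 4 := by
      have e1 : ∀ z : E5, (F0 2 z).re = z 4 := by
        intro z
        show ((z 4 : ℂ) + Complex.I * (zz z : ℂ)).re = z 4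
        simp
      rw [Complex.sub_re, e1, e1]
      rfl
    rw [← e]
    exact Complex.abs_re_le_norm _
  have hn := norm_le (x - y)
  rw [Fin.sum_univ_three]
  have := norm_nonneg (x - y)
  linarith

end Pool.Agent.CR5.Man
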