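import Pool.Agent.Lib.CR5.I.Spec

/-!
# CR5, block I: the final theorem (assembly)
-/

open MeasureTheory Set Filter Topology
open scoped ENNReal ComplexConjugate Manifold ContDiff

noncomputable section

namespace Pool.Agent.CR5.Man

universe u

theorem pFn (hCORE : S_CORE) (hPl : S_Pl) (hNf : S_Nf) (hMa : S_Ma.{u}) (hCr : S_Cr.{u})
    (hEb : S_Eb.{u}) : S_Fn.{u} := by
  intro M _ _ _ S hS p
  obtain ⟨ρ, hC, hLK⟩ := hMa M S p hS
  obtain ⟨V, ζ, θ, r, hr, hV, hK⟩ := hNf _ _ hLK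
  obtain ⟨r', hr', f, hf⟩ := hPl hCORE V ζ θ r hV
  obtain ⟨c, hc, hemb⟩ := hf.emb
  have hr'ρ : r' ≤ ρ := hr'.trans hr
  obtain ⟨h1, h2, h3⟩ := hEb M p ρ r' hC hf.pos hr'ρ f hf.sm c hc hemb _ rfl
  refine ⟨ct p '' Metric.ball 0 r', hC.op r' hr'ρ, ⟨0, Metric.mem_ball_self hf.pos, hC.zero⟩,
    fun q k => f k (cs p q), h1, h2, h3, ?_⟩
  rintro k q ⟨y, hy, rfl⟩ v hv
  have hyρ : y ∈ Metric.ball (0 : E5) ρ := Metric.ball_subset_ball hr'ρ hy
  have hyr : y ∈ Metric.ball (0 : E5) r := Metric.ball_subset_ball hr' hy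
  obtain ⟨b, hb, hder⟩ := hCr M S p ρ hC y hyρ v hv
  obtain ⟨α, hα⟩ := hK y hyr b hb
  have hd : DifferentiableAt ℝ (f k) y :=
    ((hf.sm k).differentiableOn (by simp)).differentiableAt (Metric.isOpen_ball.mem_nhds hy)
  rw [hder (f k) hd, hα]
  have h4 : ∑ i, (∑ j, α j * V j i y) * pd i (f k) y = ∑ j, α j * vd (V j) (f k) y := by
    simp only [vd, Finset.mul_sum, Finset.sum_mul]
    rw [Finset.sum_comm]
    refine Finset.sum_congr rfl fun j _ => Finset.sum_congr rfl fun i _ => ?_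
    ring
  rw [h4]
  refine Finset.sum_eq_zero fun j _ => ?_
  rw [hf.ann j k y hy, mul_zero]

end Pool.Agent.CR5.Man
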