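import Pool.Agent.Lib.CR5.I.Spec

/-!
# CR5, block I: frames in the centred chart (helper37)
-/

open MeasureTheory Set Filter Topology
open scoped ENNReal ComplexConjugate Manifold ContDiff

noncomputable section

namespace Pool.Agent.CR5.Man

universe u

namespace Frx

section

variable {M : Type u} [TopologicalSpace M] [ChartedSpace E5 M] [IsManifold 𝓘(ℝ, E5) ∞ M]

theorem vre_add (c d : Fin 5 → ℂ) : vre (c + d) = vre c + vre d := by ext i; simp [vre]

theorem vim_add (c d : Fin 5 → ℂ) : vim (c + d) = vim c + vim d := by ext i; simp [vim]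

theorem pc_zero (p : M) (y : E5) : pc p y (0 : Fin 5 → ℂ) = 0 := by
  have h1 : vre 0 = 0 := by ext i; simp [vre]
  have h2 : vim 0 = 0 := by ext i; simp [vim]
  simp only [pc, h1, h2, map_zero, neg_zero]
  rfl

theorem pc_add (p : M) (y : E5) (c d : Fin 5 → ℂ) : pc p y (c + d) = pc p y c + pc p y d := by
  simp only [pc, vre_add, vim_add, map_add, neg_add]
  rfl

theorem pc_smul (p : M) (y : E5) (a : ℂ) (c : Fin 5 → ℂ) :
    pc p y (a • c) = csmul (conj a) (pc p y c) := by
  have h1 : vre (a • c) = a.re • vre c - a.im • vim c := by ext i; simp [vre, vim]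
  have h2 : vim (a • c) = a.re • vim c + a.im • vre c := by ext i; simp [vre, vim]
  simp only [pc, csmul, h1, h2, map_add, map_sub, map_smul, Complex.conj_re, Complex.conj_im]
  refine Prod.ext ?_ ?_
  · show _ - _ = _ - _
    simp only [smul_neg, neg_smul, neg_neg]
  · show -(_ + _) = _ + _
    simp only [smul_neg, neg_smul, neg_add]

theorem pc_inj {p : M} {ρ : ℝ} (h : Ctr p ρ) {y : E5} (hy : y ∈ Metric.ball (0 : E5) ρ)
    {c d : Fin 5 → ℂ} (hcd : pc p y c = pc p y d) : c = d := by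
  have h1 : dct p y (vre c) = dct p y (vre d) := congrArg Prod.fst hcd
  have h2 : dct p y (vim c) = dct p y (vim d) := by
    have h3 : -dct p y (vim c) = -dct p y (vim d) := congrArg Prod.snd hcd
    exact neg_injective h3
  have e1 : vre c = vre d := by
    rw [← h.dl y hy (vre c), ← h.dl y hy (vre d), h1]
  have e2 : vim c = vim d := by
    rw [← h.dl y hy (vim c), ← h.dl y hy (vim d), h2]
  funext i
  apply Complex.ext
  · have := congrArg (fun v : E5 => v i) e1
    simpa [vre] using this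
  · have := congrArg (fun v : E5 => v i) e2
    simpa [vim] using this

end

end Frx

open Frx

theorem pFr.{v} (h1 : S_Pf.{v}) : S_Fr.{v} := by
  intro M _ _ _ S p ρ hC
  have h0 : (0 : E5) ∈ Metric.ball (0 : E5) ρ := Metric.mem_ball_self hC.pos
  obtain ⟨U, hU, hpU, Z, hZ, hfr⟩ := S.frame (ct p 0)
  have hcont : ContinuousAt (ct p) (0 : E5) := (hC.smt 0 h0).continuousAt
  obtain ⟨δ, hδ, hδU⟩ := Metric.mem_nhds_iff.1 (hcont.preimage_mem_nhds (hU.mem_nhds hpU))
  have hle : min δ ρ ≤ ρ := min_le_right _ _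
  have hsub : ct p '' Metric.ball 0 (min δ ρ) ⊆ U := by
    rintro _ ⟨y, hy, rfl⟩
    exact hδU (Metric.ball_subset_ball (min_le_left _ _) hy)
  let e1 : Fin 2 → E5 → E5 := fun j y =>
    mfderiv 𝓘(ℝ, E5) 𝓘(ℝ, E5) (cs p) (ct p y) (Z j (ct p y)).1
  let e2 : Fin 2 → E5 → E5 := fun j y =>
    mfderiv 𝓘(ℝ, E5) 𝓘(ℝ, E5) (cs p) (ct p y) (Z j (ct p y)).2
  have s1 : ∀ j, ContDiffOn ℝ ∞ (e1 j) (Metric.ball 0 (min δ ρ)) := fun j =>
    h1 M p ρ (min δ ρ) hC hle (fun q => (Z j q).1) U hU (hZ j).1 hsub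
  have s2 : ∀ j, ContDiffOn ℝ ∞ (e2 j) (Metric.ball 0 (min δ ρ)) := fun j =>
    h1 M p ρ (min δ ρ) hC hle (fun q => (Z j q).2) U hU (hZ j).2 hsub
  let W : Fin 2 → VF := fun j i y => ((e1 j y i : ℝ) : ℂ) - Complex.I * ((e2 j y i : ℝ) : ℂ)
  refine ⟨min δ ρ, lt_min hδ hC.pos, hle, W, ?_, ?_⟩
  · intro j i
    have c1 : ContDiffOn ℝ ∞ (fun y => ((e1 j y i : ℝ) : ℂ)) (Metric.ball 0 (min δ ρ)) :=
      (Complex.ofRealCLM.comp (EuclideanSpace.proj (𝕜 := ℝ) i)).contDiff.comp_contDiffOn (s1 j)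
    have c2 : ContDiffOn ℝ ∞ (fun y => ((e2 j y i : ℝ) : ℂ)) (Metric.ball 0 (min δ ρ)) :=
      (Complex.ofRealCLM.comp (EuclideanSpace.proj (𝕜 := ℝ) i)).contDiff.comp_contDiffOn (s2 j)
    exact c1.sub (contDiffOn_const.mul c2)
  · intro x hx
    have hxρ : x ∈ Metric.ball (0 : E5) ρ := Metric.ball_subset_ball hle hx
    have hxU : ct p x ∈ U := hsub ⟨x, hx, rfl⟩
    have hA : ∀ j, pc p x (fun i => W j i x) = Z j (ct p x) := by
      intro j
      have r1 : vre (fun i => W j i x) = e1 j x := by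
        ext i; simp [vre, W]
      have r2 : vim (fun i => W j i x) = -e2 j x := by
        ext i; simp [vim, W]
      refine Prod.ext ?_ ?_
      · show dct p x (vre fun i => W j i x) = (Z j (ct p x)).1
        rw [r1]
        exact hC.dr x hxρ _
      · show -dct p x (vim fun i => W j i x) = (Z j (ct p x)).2
        rw [r2, map_neg, neg_neg]
        exact hC.dr x hxρ _
    have hB : ∀ α : Fin 2 → ℂ, pc p x (fun i => ∑ j, α j * W j i x)
        = ∑ j, csmul (conj (α j)) (Z j (ct p x)) := by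
      intro α
      have e : (fun i => ∑ j, α j * W j i x)
          = α 0 • (fun i => W 0 i x) + α 1 • (fun i => W 1 i x) := by
        funext i
        simp [Fin.sum_univ_two]
      rw [e, pc_add, pc_smul, pc_smul, hA, hA, Fin.sum_univ_two]
    obtain ⟨hf1, hf2⟩ := hfr (ct p x) hxU
    constructor
    · intro c
      have hmem : c ∈ KS S p x ↔ pc p x c ∈ S.H (ct p x) := Iff.rfl
      rw [hmem, hf1]
      constructor
      · rintro ⟨b, hb⟩
        refine ⟨fun j => conj (b j), pc_inj hC hxρ ?_⟩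
        rw [hb, hB]
        simp only [Complex.conj_conj]
      · rintro ⟨α, rfl⟩
        exact ⟨fun j => conj (α j), hB α⟩
    · intro α hα
      have e : (fun i => ∑ j, α j * W j i x) = 0 := by
        funext i; exact hα i
      have h3 : ∑ j, csmul (conj (α j)) (Z j (ct p x)) = 0 := by
        rw [← hB α, e, pc_zero]
      have h4 := hf2 (fun j => conj (α j)) h3
      funext j
      have h5 : conj (α j) = 0 := congrFun h4 j
      exact (map_eq_zero (starRingEnd ℂ)).1 h5

end Pool.Agent.CR5.Man
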