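import Pool.Agent.Lib.CR5.I.Spec
import Pool.Agent.Lib.CR5.F.Sq

/-!
# CR5, block I: gluing with the standard structure (statement `S_Gl`)
-/

open MeasureTheory Set Filter Topology
open scoped ENNReal ComplexConjugate Manifold ContDiff

noncomputable section

namespace Pool.Agent.CR5.Man

namespace Glx

/-- a smooth bump -/
def bmp : ContDiffBump (0 : E5) := ⟨7 / 8, 15 / 16, by norm_num, by norm_num⟩

/-- the complex valued bump -/
def chi (x : E5) : ℂ := ((bmp x : ℝ) : ℂ)

theorem chi_sm : Sm chi := Sm.ofReal bmp.contDiff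

theorem chi_one {x : E5} (h : ‖x‖ ≤ 7 / 8) : chi x = 1 := by
  unfold chi
  have h1 : x ∈ Metric.closedBall (0 : E5) bmp.rIn := by
    rw [Metric.mem_closedBall, dist_zero_right]
    exact h
  rw [bmp.one_of_mem_closedBall h1]
  simp

theorem chi_zero {x : E5} (h : 15 / 16 ≤ ‖x‖) : chi x = 0 := by
  unfold chi
  have h1 : bmp.rOut ≤ dist x 0 := by
    rw [dist_zero_right]
    exact h
  rw [bmp.zero_of_le_dist h1]
  simp

theorem sq_far (n : ℕ) (h : E5 → ℂ) {x : E5} (hx : 1 ≤ ‖x‖) :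
    sq n (fun y => chi y * h y) x = 0 := by
  have h1 : (fun y => chi y * h y) =ᶠ[𝓝 x] fun _ => (0 : ℂ) := by
    have ho : IsOpen {y : E5 | 15 / 16 < ‖y‖} := isOpen_lt continuous_const continuous_norm
    have hm : x ∈ {y : E5 | 15 / 16 < ‖y‖} := by
      show 15 / 16 < ‖x‖
      linarith
    filter_upwards [ho.mem_nhds hm] with y hy
    have hy1 : 15 / 16 < ‖y‖ := hy
    rw [chi_zero hy1.le, zero_mul]
  rw [sq_congr n h1, sq_zero_fun]

/-- a bound on the unit ball -/
theorem exists_bound {f : E5 → ℂ} (hf : Sm f) (m : ℕ) :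
    ∃ B : ℝ, 0 ≤ B ∧ ∀ i ≤ m, ∀ x : E5, ‖x‖ ≤ 1 → sq i f x ≤ B := by
  induction m with
  | zero =>
    obtain ⟨B, hB⟩ := (isCompact_closedBall (0 : E5) 1).exists_bound_of_continuousOn
      (sq_continuous 0 hf).continuousOn
    refine ⟨max B 0, le_max_right _ _, ?_⟩
    intro i hi x hx
    have hi0 : i = 0 := by omega
    subst hi0
    have h1 : x ∈ Metric.closedBall (0 : E5) 1 := by
      rw [Metric.mem_closedBall, dist_zero_right]
      exact hx
    exact ((le_abs_self _).trans (hB x h1)).trans (le_max_left _ _)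
  | succ m ih =>
    obtain ⟨B, hB0, hB⟩ := ih
    obtain ⟨B', hB'⟩ := (isCompact_closedBall (0 : E5) 1).exists_bound_of_continuousOn
      (sq_continuous (m + 1) hf).continuousOn
    refine ⟨max B B', hB0.trans (le_max_left _ _), ?_⟩
    intro i hi x hx
    rcases Nat.lt_or_ge i (m + 1) with h | h
    · exact (hB i (by omega) x hx).trans (le_max_left _ _)
    · have hi0 : i = m + 1 := by omega
      subst hi0
      have h1 : x ∈ Metric.closedBall (0 : E5) 1 := by
        rw [Metric.mem_closedBall, dist_zero_right]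
        exact hx
      exact ((le_abs_self _).trans (hB' x h1)).trans (le_max_right _ _)

/-- the cutoff -/
theorem cut (hL : S_Lb) (m : ℕ) {ε : ℝ} (hε : 0 < ε) : ∃ η > 0, ∀ h : E5 → ℂ, Sm h →
    (∀ x : E5, ‖x‖ ≤ 1 → ∀ i ≤ m, sq i h x ≤ η) →
    ∀ i ≤ m, ∀ x, sq i (fun y => chi y * h y) x ≤ ε ^ 2 := by
  choose C hC0 hC using hL
  obtain ⟨B, hB0, hB⟩ := exists_bound chi_sm m
  have hS : ∀ i ≤ m, C i ≤ ∑ k ∈ Finset.range (m + 1), C k := by
    intro i hi
    exact Finset.single_le_sum (f := C) (fun k _ => (hC0 k).le)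
      (Finset.mem_range.2 (by omega))
  have hS0 : 0 < ∑ k ∈ Finset.range (m + 1), C k := lt_of_lt_of_le (hC0 0) (hS 0 (by omega))
  set S := ∑ k ∈ Finset.range (m + 1), C k with hSdef
  have hD : 0 < S * ((m + 1 : ℕ) : ℝ) * (B + 1) := by positivity
  refine ⟨ε ^ 2 / (S * ((m + 1 : ℕ) : ℝ) * (B + 1)), by positivity, ?_⟩
  intro h hh hb i hi x
  by_cases hx : ‖x‖ ≤ 1
  · set η := ε ^ 2 / (S * ((m + 1 : ℕ) : ℝ) * (B + 1)) with hη
    have hη0 : 0 < η := by positivity
    have h1 : ∑ q ∈ Finset.range (i + 1), sq q chi x * sq (i - q) h x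
        ≤ ((m + 1 : ℕ) : ℝ) * ((B + 1) * η) := by
      have h2 : ∑ q ∈ Finset.range (i + 1), sq q chi x * sq (i - q) h x
          ≤ ∑ _q ∈ Finset.range (i + 1), (B + 1) * η := by
        apply Finset.sum_le_sum
        intro q hq
        have hq' := Finset.mem_range.1 hq
        have e1 := hB q (by omega) x hx
        have e2 := hb x hx (i - q) (by omega)
        exact mul_le_mul (e1.trans (by linarith)) e2 (sq_nonneg' _ _ _) (by linarith)
      refine h2.trans ?_
      rw [Finset.sum_const, Finset.card_range, nsmul_eq_mul]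
      apply mul_le_mul_of_nonneg_right _ (by positivity)
      exact_mod_cast (by omega : i + 1 ≤ m + 1)
    have h3 := hC i chi h chi_sm hh x
    refine h3.trans ?_
    have h4 : C i * ∑ q ∈ Finset.range (i + 1), sq q chi x * sq (i - q) h x
        ≤ S * (((m + 1 : ℕ) : ℝ) * ((B + 1) * η)) := by
      apply mul_le_mul (hS i hi) h1
      · apply Finset.sum_nonneg
        intro q _
        exact mul_nonneg (sq_nonneg' _ _ _) (sq_nonneg' _ _ _)
      · exact hS0.le
    refine h4.trans (le_of_eq ?_)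
    rw [hη]
    field_simp
  · push Not at hx
    rw [sq_far i h hx.le]
    positivity

theorem min6 {F : Fin 2 → Fin 3 → ℝ} (h : ∀ j l, 0 < F j l) :
    ∃ s0 > 0, s0 ≤ 1 ∧ ∀ j l, s0 ≤ F j l := by
  refine ⟨min 1 (min (min (F 0 0) (min (F 0 1) (F 0 2))) (min (F 1 0) (min (F 1 1) (F 1 2)))),
    ?_, min_le_left _ _, ?_⟩
  · exact lt_min one_pos (lt_min (lt_min (h _ _) (lt_min (h _ _) (h _ _)))
      (lt_min (h _ _) (lt_min (h _ _) (h _ _))))
  · intro j l
    fin_cases j <;> fin_cases l <;> simp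

theorem dil_sm (s : ℝ) : ContDiff ℝ (⊤ : ℕ∞) (dil s) := by
  rw [contDiff_euclidean]
  intro i
  have e : (fun x : E5 => dil s x i) = fun x : E5 => (if i = 4 then s ^ 2 else s) * x i := by
    funext x
    rfl
  rw [e]
  exact contDiff_const.mul (contDiff_coord i)

theorem sm_dil {g : E5 → ℂ} (hg : Sm g) (s : ℝ) : Sm fun x => g (dil s x) :=
  ContDiff.comp hg (dil_sm s)

theorem zc_dil (s : ℝ) (j : Fin 2) (x : E5) : zc j (dil s x) = (s : ℂ) * zc j x := by
  have h : ∀ i : Fin 5, i ≠ 4 → dil s x i = s * x i := by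
    intro i hi
    show (if i = 4 then s ^ 2 else s) * x i = s * x i
    rw [if_neg hi]
  unfold zc
  split
  · rw [h 0 (by decide), h 1 (by decide)]
    push_cast
    ring
  · rw [h 2 (by decide), h 3 (by decide)]
    push_cast
    ring

theorem a02 (j : Fin 2) (x : E5) : a0 j 2 x = -(Complex.I * zc j x) := by
  simp [a0]

end Glx

open Glx in
theorem pGl (hL : S_Lb) (hA : S_Sa) (hB : S_Sb) : S_Gl := by
  intro g P hg hP hg0 hP0 hPd m ε hε
  obtain ⟨η, hη, hcut⟩ := cut hL m hε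
  -- the functions
  let b : Fin 2 → E5 → ℂ := fun j x => P j x - a0 j 2 x
  have hb : ∀ j, Sm (b j) := fun j => Sm.sub (hP j) (smS_a0 j 2)
  have hz0 : ∀ j, zc j 0 = 0 := by
    intro j
    unfold zc
    split <;> simp
  have hb0 : ∀ j, b j 0 = 0 := by
    intro j
    show P j 0 - a0 j 2 0 = 0
    rw [hP0, a02, hz0]
    simp
  have hbd : ∀ (j : Fin 2) (i : Fin 5), i ≠ 4 → pd i (b j) 0 = 0 := by
    intro j i hi
    show pd i (fun x => P j x - a0 j 2 x) 0 = 0
    rw [pd_sub (hP j) (smS_a0 j 2), hPd j i hi, sub_self]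
  let h : ℝ → Fin 2 → Fin 3 → E5 → ℂ := fun s j l =>
    if l = 0 then fun x => g j 0 (dil s x)
    else if l = 1 then fun x => g j 1 (dil s x)
    else fun x => ((1 / s : ℝ) : ℂ) * b j (dil s x)
  have hsm : ∀ s j l, Sm (h s j l) := by
    intro s j l
    show Sm (if l = 0 then fun x => g j 0 (dil s x)
      else if l = 1 then fun x => g j 1 (dil s x)
      else fun x => ((1 / s : ℝ) : ℂ) * b j (dil s x))
    split
    · exact sm_dil (hg j 0) s
    · split
      · exact sm_dil (hg j 1) s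
      · exact Sm.mul (Sm.const _) (sm_dil (hb j) s)
  have hex : ∀ (j : Fin 2) (l : Fin 3), ∃ s0 > 0, ∀ s, 0 < s → s ≤ s0 → ∀ x : E5, ‖x‖ ≤ 1 →
      ∀ i ≤ m, sq i (h s j l) x ≤ η := by
    intro j l
    rcases fin3_cases l with rfl | rfl | rfl
    · obtain ⟨s0, h1, _, h2⟩ := hA (g j 0) (hg j 0) (hg0 j 0) m η hη
      exact ⟨s0, h1, h2⟩
    · obtain ⟨s0, h1, _, h2⟩ := hA (g j 1) (hg j 1) (hg0 j 1) m η hη
      exact ⟨s0, h1, h2⟩
    · obtain ⟨s0, h1, _, h2⟩ := hB (b j) (hb j) (hb0 j) (hbd j) m η hη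
      exact ⟨s0, h1, h2⟩
  choose F hF0 hF using hex
  obtain ⟨s0, hs0, hs1, hmin⟩ := min6 hF0
  refine ⟨s0, hs0, hs1, ?_⟩
  intro s hs hss
  refine ⟨fun j l x => a0 j l x + chi x * h s j l x, ⟨?_, ?_, ?_⟩, ?_⟩
  · intro j l
    exact Sm.add (smS_a0 j l) (Sm.mul chi_sm (hsm s j l))
  · intro j l x hx
    show a0 j l x + chi x * h s j l x = a0 j l x
    rw [chi_zero (by linarith), zero_mul, add_zero]
  · intro j l i hi x
    have e : (fun y => a0 j l y + chi y * h s j l y - a0 j l y)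
        = fun y => chi y * h s j l y := by
      funext y
      ring
    show sq i (fun y => a0 j l y + chi y * h s j l y - a0 j l y) x ≤ ε ^ 2
    rw [e]
    exact hcut (h s j l) (hsm s j l) (fun x hx i hi =>
      hF j l s hs (hss.trans (hmin j l)) x hx i hi) i hi x
  · intro j x hx
    have hc : chi x = 1 := chi_one hx.le
    have hs' : (s : ℂ) ≠ 0 := by
      exact_mod_cast hs.ne'
    refine ⟨?_, ?_, ?_⟩
    · show a0 j 0 x + chi x * g j 0 (dil s x) = g j 0 (dil s x)
      rw [hc]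
      simp [a0]
    · show a0 j 1 x + chi x * g j 1 (dil s x) = g j 1 (dil s x)
      rw [hc]
      simp [a0]
    · show a0 j 2 x + chi x * (((1 / s : ℝ) : ℂ) * (P j (dil s x) - a0 j 2 (dil s x)))
        = P j (dil s x) / (s : ℂ)
      rw [hc, a02, a02, zc_dil]
      push_cast
      field_simp
      ring

end Pool.Agent.CR5.Man
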