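import Pool.Agent.Lib.CR5.I.Spec

/-!
# CR5, block I, Gr: Gram-Schmidt for two by two matrices
-/

set_option autoImplicit false

open MeasureTheory Set Filter Topology
open scoped ENNReal ComplexConjugate

noncomputable section

namespace Pool.Agent.CR5.Man

namespace Grx

theorem mulvec2 (A : Matrix (Fin 2) (Fin 2) ℂ) (B : Matrix (Fin 2) (Fin 2) ℂ) (i j : Fin 2) :
    (A * B) i j = A i 0 * B 0 j + A i 1 * B 1 j := by
  rw [Matrix.mul_apply, Fin.sum_univ_two]

end Grx

open Grx

theorem pGr : S_Gr := by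
  intro G hG hpos
  -- the diagonal entries are real
  have hr0 : ((G 0 0).re : ℂ) = G 0 0 := Complex.conj_eq_iff_real.1 (hG 0 0) |>.elim
    fun r hr => by rw [hr, Complex.ofReal_re]
  have hr1 : ((G 1 1).re : ℂ) = G 1 1 := Complex.conj_eq_iff_real.1 (hG 1 1) |>.elim
    fun r hr => by rw [hr, Complex.ofReal_re]
  set p : ℝ := (G 0 0).re with hp
  set q : ℝ := (G 1 1).re with hq
  set g : ℂ := G 0 1 with hg
  have hg' : G 1 0 = conj g := by rw [hg, hG 0 1]
  -- positivity of p
  have hp0 : 0 < p := by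
    have h := hpos ![1, 0] (by intro h; have := congrFun h 0; simp at this)
    simpa [Fin.sum_univ_two] using h
  -- positivity of d
  have hd0 : 0 < q - ‖g‖ ^ 2 / p := by
    have h := hpos ![-g / p, 1] (by intro h; have := congrFun h 1; simp at this)
    have hpC : (p : ℂ) ≠ 0 := by exact_mod_cast hp0.ne'
    have e : ∑ j, ∑ k, conj ((![-g / (p : ℂ), 1] : Fin 2 → ℂ) j) *
        (![-g / (p : ℂ), 1] : Fin 2 → ℂ) k * G j k = ((q - ‖g‖ ^ 2 / p : ℝ) : ℂ) := by
      simp only [Fin.sum_univ_two, Matrix.cons_val_zero, Matrix.cons_val_one]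
      rw [hg', ← hr0, ← hr1, ← hg]
      have h3 : ((‖g‖ ^ 2 : ℝ) : ℂ) = g * conj g := by
        rw [Complex.mul_conj, Complex.normSq_eq_norm_sq]
      push_cast
      push_cast at h3
      rw [h3]
      simp only [map_div₀, map_neg, Complex.conj_ofReal, map_one]
      field_simp
      ring
    rw [e, Complex.ofReal_re] at h
    exact h
  set d : ℝ := q - ‖g‖ ^ 2 / p with hd
  have hpC : (p : ℂ) ≠ 0 := by exact_mod_cast hp0.ne'
  have hdC : (d : ℂ) ≠ 0 := by exact_mod_cast hd0.ne'
  set α : ℝ := Real.sqrt (2 / p) with hα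
  set β : ℝ := Real.sqrt (2 / d) with hβ
  have hα2 : α * α = 2 / p := Real.mul_self_sqrt (by positivity)
  have hβ2 : β * β = 2 / d := Real.mul_self_sqrt (by positivity)
  have hα0 : 0 < α := Real.sqrt_pos.2 (by positivity)
  have hβ0 : 0 < β := Real.sqrt_pos.2 (by positivity)
  have hαC : (α : ℂ) ≠ 0 := by exact_mod_cast hα0.ne'
  have hβC : (β : ℂ) ≠ 0 := by exact_mod_cast hβ0.ne'
  have hα2C : (α : ℂ) * α = 2 / p := by exact_mod_cast congrArg (fun x : ℝ => (x : ℂ)) hα2
  have hβ2C : (β : ℂ) * β = 2 / d := by exact_mod_cast congrArg (fun x : ℝ => (x : ℂ)) hβ2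
  have hdC' : (d : ℂ) = q - g * conj g / p := by
    have h3 : ((‖g‖ ^ 2 : ℝ) : ℂ) = g * conj g := by
      rw [Complex.mul_conj, Complex.normSq_eq_norm_sq]
    rw [hd, Complex.ofReal_sub, Complex.ofReal_div, h3]
  refine ⟨!![(α : ℂ), 0; -(β : ℂ) * g / p, (β : ℂ)], !![1 / (α : ℂ), 0; g / (p * α), 1 / (β : ℂ)],
    ?_, ?_, ?_⟩
  · ext i j
    fin_cases i <;> fin_cases j
    · simp [Matrix.mul_apply, Fin.sum_univ_two, hαC]
    · simp [Matrix.mul_apply, Fin.sum_univ_two]
    · show _ = (1 : Matrix (Fin 2) (Fin 2) ℂ) 1 0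
      rw [Matrix.one_apply_ne (show (1 : Fin 2) ≠ 0 by decide)]
      simp only [Matrix.mul_apply, Fin.sum_univ_two, Matrix.of_apply, Matrix.cons_val',
        Matrix.cons_val_zero, Matrix.cons_val_one, Fin.mk_one, Fin.zero_eta, Matrix.cons_val_fin_one]
      field_simp
      ring
    · simp [Matrix.mul_apply, Fin.sum_univ_two, hβC]
  · ext i j
    fin_cases i <;> fin_cases j
    · simp [Matrix.mul_apply, Fin.sum_univ_two, hαC]
    · simp [Matrix.mul_apply, Fin.sum_univ_two]
    · show _ = (1 : Matrix (Fin 2) (Fin 2) ℂ) 1 0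
      rw [Matrix.one_apply_ne (show (1 : Fin 2) ≠ 0 by decide)]
      simp only [Matrix.mul_apply, Fin.sum_univ_two, Matrix.of_apply, Matrix.cons_val',
        Matrix.cons_val_zero, Matrix.cons_val_one, Fin.mk_one, Fin.zero_eta, Matrix.cons_val_fin_one]
      field_simp
      ring
    · simp [Matrix.mul_apply, Fin.sum_univ_two, hβC]
  · intro j k
    fin_cases j <;> fin_cases k
    · simp only [Fin.sum_univ_two, Matrix.of_apply, Matrix.cons_val',
        Matrix.cons_val_zero, Matrix.cons_val_one, Fin.mk_one, Fin.zero_eta, Matrix.cons_val_fin_one,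
        if_true, map_zero, zero_mul, mul_zero, add_zero, Complex.conj_ofReal, ← hr0]
      rw [hα2C]
      field_simp
    · simp only [Fin.sum_univ_two, Matrix.of_apply, Matrix.cons_val',
        Matrix.cons_val_zero, Matrix.cons_val_one, Fin.mk_one, Fin.zero_eta, Matrix.cons_val_fin_one,
        map_zero, zero_mul, mul_zero, add_zero, Complex.conj_ofReal, ← hr0, ← hg,
        if_neg (show ¬ ((0 : Fin 2) = 1) by decide)]
      field_simp
      ring
    · simp only [Fin.sum_univ_two, Matrix.of_apply, Matrix.cons_val',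
        Matrix.cons_val_zero, Matrix.cons_val_one, Fin.mk_one, Fin.zero_eta, Matrix.cons_val_fin_one,
        map_zero, zero_mul, mul_zero, add_zero, Complex.conj_ofReal, ← hr0, hg',
        if_neg (show ¬ ((1 : Fin 2) = 0) by decide), map_div₀, map_mul, map_neg]
      field_simp
      ring
    · simp only [Fin.sum_univ_two, Matrix.of_apply, Matrix.cons_val',
        Matrix.cons_val_zero, Matrix.cons_val_one, Fin.mk_one, Fin.zero_eta, Matrix.cons_val_fin_one,
        if_true, Complex.conj_ofReal, ← hr0, ← hr1, hg', ← hg, map_div₀, map_mul, map_neg]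
      have e : -(β : ℂ) * conj g / p * (-(β : ℂ) * g / p) * p +
          -(β : ℂ) * conj g / p * β * g +
          ((β : ℂ) * (-(β : ℂ) * g / p) * conj g + (β : ℂ) * β * q) =
          (β : ℂ) * β * (q - g * conj g / p) := by
        field_simp
        ring
      rw [e, ← hdC', hβ2C]
      field_simp

end Pool.Agent.CR5.Man
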