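import Pool.Agent.Lib.CR5.I.Spec
import Pool.Agent.Lib.CR5.Basic

/-!
# CR5, block I: the new structure is integrable (`S_Kp`)
-/

open MeasureTheory Set Filter Topology
open scoped ENNReal ComplexConjugate Manifold ContDiff

noncomputable section

namespace Pool.Agent.CR5.Man

namespace Kpx

theorem dil_dil {s : ℝ} (hs : s ≠ 0) (y : E5) : dil s⁻¹ (dil s y) = y := by
  ext i
  by_cases h : i = 4
  · simp [dil, h]
    field_simp
  · simp [dil, h]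
    field_simp

theorem dil_dil' {s : ℝ} (hs : s ≠ 0) (y : E5) : dil s (dil s⁻¹ y) = y := by
  have := dil_dil (inv_ne_zero hs) y
  rwa [inv_inv] at this

theorem continuous_dil (s : ℝ) : Continuous (dil s) := by
  unfold dil
  refine (PiLp.continuous_toLp 2 _).comp ?_
  refine continuous_pi fun i => ?_
  exact continuous_const.mul ((EuclideanSpace.proj i : E5 →L[ℝ] ℝ).continuous)

theorem vd_congr {u : VF} {f g : E5 → ℂ} {x : E5} (h : f =ᶠ[𝓝 x] g) : vd u f x = vd u g x := by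
  unfold vd pd
  rw [h.fderiv_eq]

theorem vd_div (u : VF) (f : E5 → ℂ) (c : ℂ) (x : E5) (hf : DifferentiableAt ℝ f x) :
    vd u (fun y => f y / c) x = vd u f x / c := by
  unfold vd pd
  rw [Finset.sum_div]
  refine Finset.sum_congr rfl fun i _ => ?_
  have h : fderiv ℝ (fun y => f y / c) x = c⁻¹ • fderiv ℝ f x := by
    have : (fun y => f y / c) = fun y => c⁻¹ • f y := by
      funext y
      rw [smul_eq_mul, div_eq_inv_mul]
    rw [this]
    exact fderiv_fun_const_smul hf c⁻¹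
  rw [h]
  simp only [smul_apply, smul_eq_mul]
  ring

/-- The coordinate functions in the dilated coordinates. -/
def Gl (ζ : Fin 2 → E5 →L[ℝ] ℂ) (T : E5 → ℝ) (s : ℝ) (l : Fin 3) : E5 → ℂ := fun x =>
  if l = 0 then ζ 0 x else if l = 1 then ζ 1 x else (T x : ℂ) / (s : ℂ)

theorem sm_Gl (ζ : Fin 2 → E5 →L[ℝ] ℂ) {T : E5 → ℝ} (hT : ContDiff ℝ (⊤ : ℕ∞) T) (s : ℝ) (l : Fin 3) :
    Sm (Gl ζ T s l) := by
  unfold Gl
  by_cases h0 : l = 0
  · simp only [h0, if_true]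
    exact (ζ 0).contDiff
  · by_cases h1 : l = 1
    · simp only [h1]
      exact (ζ 1).contDiff
    · simp only [h0, h1, if_false]
      exact (Sm.ofReal hT).div_const _

theorem a_eq {V : Fin 2 → VF} {ζ : Fin 2 → E5 →L[ℝ] ℂ} {ρ : ℝ} {T : E5 → ℝ} {Ψ Φ : E5 → E5} {s : ℝ} {a : Str}
    (hD : Dat V ζ ρ T Ψ Φ s a) (j : Fin 2) (l : Fin 3) (y : E5) (hy : ‖y‖ < 7 / 8) :
    a j l y = vd (V j) (Gl ζ T s l) (Φ (dil s y)) := by
  fin_cases l
  · exact hD.e0 j y hy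
  · exact hD.e1 j y hy
  · have h := hD.e2 j y hy
    show a j 2 y = vd (V j) (fun x => (T x : ℂ) / (s : ℂ)) (Φ (dil s y))
    rw [h, vd_div _ _ _ _ ((Sm.ofReal hD.smT).diffAt _)]

theorem key (h1 : S_Tr) {V : Fin 2 → VF} {ζ : Fin 2 → E5 →L[ℝ] ℂ} {θ : E5 →L[ℝ] ℝ} {ρ : ℝ}
    (hN : NFld V ζ θ ρ) {T : E5 → ℝ} {Ψ Φ : E5 → E5} {s : ℝ} {a : Str}
    (hD : Dat V ζ ρ T Ψ Φ s a) (j k : Fin 2) (l : Fin 3) (y : E5) (hy : ‖y‖ < 7 / 8) :
    L a j (a k l) y = (s : ℂ) * vd (V j) (vd (V k) (Gl ζ T s l)) (Φ (dil s y)) := by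
  have hs : s ≠ 0 := hD.spos.ne'
  have hxy : dil s⁻¹ (Ψ (Φ (dil s y))) = y := by
    rw [hD.crd.right, dil_dil hs]
  have h2 := h1 V ζ θ ρ hN T Ψ Φ s a hD j (a k l) (Φ (dil s y)) (by rw [hxy]; exact hy)
    ((hD.sma k l).diffAt _)
  rw [hxy] at h2
  rw [← h2]
  congr 1
  apply vd_congr
  have hc : Continuous fun x' => dil s⁻¹ (Ψ x') := (continuous_dil _).comp hD.crd.smΨ.continuous
  have hmem : ∀ᶠ x' in 𝓝 (Φ (dil s y)), ‖dil s⁻¹ (Ψ x')‖ < 7 / 8 := by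
    refine (hc.norm.continuousAt).eventually_lt_const ?_
    show ‖dil s⁻¹ (Ψ (Φ (dil s y)))‖ < 7 / 8
    rw [hxy]
    exact hy
  filter_upwards [hmem] with x' hx'
  rw [a_eq hD k l _ hx', dil_dil' hs, hD.crd.left]

end Kpx

open Kpx in
/-- **Kp.** The new structure is integrable. -/
theorem pKp (h1 : S_Tr) : S_Kp := by
  intro V ζ θ ρ hN T Ψ Φ s a hD l y hy
  unfold kap
  rw [key h1 hN hD 0 1 l y hy, key h1 hN hD 1 0 l y hy,
    hN.comm (Gl ζ T s l) (sm_Gl ζ hD.smT s l) _ (hD.mem y hy), sub_self]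

end Pool.Agent.CR5.Man
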