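import Pool.Agent.Lib.CR5.I.Spec

/-!
# CR5, block I: the CR structure in the centred chart (assembly)
-/

open MeasureTheory Set Filter Topology
open scoped ENNReal ComplexConjugate Manifold ContDiff

noncomputable section

namespace Pool.Agent.CR5.Man

universe u

namespace Max

variable {M : Type u} [TopologicalSpace M] [ChartedSpace E5 M] [IsManifold 𝓘(ℝ, E5) ∞ M]

theorem ctr_mono {p : M} {ρ r : ℝ} (h : Ctr p ρ) (hr : 0 < r) (hrρ : r ≤ ρ) : Ctr p r where
  pos := hr
  smt y hy := h.smt y (Metric.ball_subset_ball hrρ hy)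
  sms y hy := h.sms y (Metric.ball_subset_ball hrρ hy)
  op t ht := h.op t (ht.trans hrρ)
  left y hy := h.left y (Metric.ball_subset_ball hrρ hy)
  zero := h.zero
  dl y hy := h.dl y (Metric.ball_subset_ball hrρ hy)
  dr y hy := h.dr y (Metric.ball_subset_ball hrρ hy)

theorem dct_inj {p : M} {ρ : ℝ} (h : Ctr p ρ) {y : E5} (hy : y ∈ Metric.ball (0 : E5) ρ) {w : E5}
    (hw : dct p y w = 0) : w = 0 := by
  have h1 := h.dl y hy w
  rw [hw] at h1
  rw [← h1]
  exact map_zero _

theorem vec_zero {c : Fin 5 → ℂ} (h1 : vre c = 0) (h2 : vim c = 0) : c = 0 := by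
  funext i
  have h3 : (c i).re = 0 := by
    have := congrFun (congrArg WithLp.ofLp h1) i
    exact this
  have h4 : (c i).im = 0 := by
    have := congrFun (congrArg WithLp.ofLp h2) i
    exact this
  exact Complex.ext h3 h4

theorem pc_zero {p : M} {ρ : ℝ} (h : Ctr p ρ) {y : E5} (hy : y ∈ Metric.ball (0 : E5) ρ)
    {c : Fin 5 → ℂ} (hc : pc p y c = 0) : c = 0 := by
  have h1 : dct p y (vre c) = 0 := congrArg Prod.fst hc
  have h2 : -dct p y (vim c) = 0 := congrArg Prod.snd hc
  exact vec_zero (dct_inj h hy h1) (dct_inj h hy (neg_eq_zero.1 h2))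

theorem pc_conj (p : M) (y : E5) (c : Fin 5 → ℂ) :
    pc p y (fun i => conj (c i)) = cconj (pc p y c) := by
  have h1 : vre (fun i => conj (c i)) = vre c := by
    ext i
    simp [vre]
  have h2 : vim (fun i => conj (c i)) = -vim c := by
    ext i
    simp [vim]
  simp only [pc, cconj, h1, h2, map_neg]

theorem e5_sum (w : E5) : w = ∑ i, w i • e5 i := by
  ext k
  simp [e5, Finset.sum_apply, Pi.single_apply]

theorem theta_sum (p : M) (y : E5) (θ : TangentSpace 𝓘(ℝ, E5) (ct p y) →ₗ[ℝ] ℝ) (w : E5) :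
    θ (dct p y w) = ∑ i, θ (dct p y (e5 i)) * w i := by
  conv_lhs => rw [e5_sum w]
  rw [map_sum, map_sum]
  refine Finset.sum_congr rfl fun i _ => ?_
  rw [map_smul, map_smul, smul_eq_mul, mul_comm]

end Max

open Max

theorem pMa (hCa : S_Ca.{u}) (hSe : S_Se.{u}) (hFr : S_Fr.{u}) : S_Ma.{u} := by
  intro M _ _ _ S p hS
  obtain ⟨ρ0, hC0⟩ := hCa M p
  obtain ⟨ρ, hρ, hρ0, W, hW1, hW2⟩ := hFr M S p ρ0 hC0
  have hC : Ctr p ρ := ctr_mono hC0 hρ hρ0
  refine ⟨ρ, hC, hρ, ⟨W, hW1, hW2⟩, ?_, ?_, ?_⟩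
  · intro x hx c hc hc'
    have h1 : pc p x c ∈ S.H (ct p x) := hc
    have h2 : pc p x (fun i => conj (c i)) ∈ S.H (ct p x) := hc'
    rw [pc_conj] at h2
    exact pc_zero hC hx (S.disj _ _ h1 h2)
  · intro r hr u v hu hv hu' hv' x hx
    obtain ⟨Z, Z', hZ, hZ', h⟩ := hSe M p ρ r hC hr u v hu hv
    have h1 := S.invol (ct p '' Metric.ball 0 r) (hC.op r hr) Z Z' hZ hZ' ?_ ?_ (ct p x)
      ⟨x, hx, rfl⟩
    · rw [(h x hx).2.2.1] at h1
      exact h1
    · rintro q ⟨y, hy, rfl⟩
      rw [(h y hy).1]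
      exact hu' y hy
    · rintro q ⟨y, hy, rfl⟩
      rw [(h y hy).2.1]
      exact hv' y hy
  · obtain ⟨θ, h1, h2⟩ := hS (ct p 0)
    refine ⟨fun i => θ (dct p 0 (e5 i)), ?_, ?_⟩
    · intro c hc
      have h3 := h1 (pc p 0 c) hc
      have h4 : θ (dct p 0 (vre c)) = 0 := h3.1
      have h5 : θ (-dct p 0 (vim c)) = 0 := h3.2
      rw [map_neg, neg_eq_zero] at h5
      rw [theta_sum] at h4 h5
      refine Complex.ext ?_ ?_
      · rw [Complex.re_sum, Complex.zero_re, ← h4]
        refine Finset.sum_congr rfl fun i _ => ?_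
        rw [Complex.re_ofReal_mul]
        rfl
      · rw [Complex.im_sum, Complex.zero_im, ← h5]
        refine Finset.sum_congr rfl fun i _ => ?_
        rw [Complex.im_ofReal_mul]
        rfl
    · intro r hr0 hr u hu hu' hne
      obtain ⟨Z, Z', hZ, -, h⟩ := hSe M p ρ r hC hr u u hu hu
      have h0 : (0 : E5) ∈ Metric.ball (0 : E5) r := Metric.mem_ball_self hr0
      have h3 := h2 (ct p '' Metric.ball 0 r) (hC.op r hr) ⟨0, h0, rfl⟩ Z hZ ?_ ?_
      · rw [(h 0 h0).2.2.2] at h3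
        have h4 : (csmul Complex.I
            ((dct p 0 (vre fun i => vbr (vc u) u i 0), dct p 0 (vim fun i => vbr (vc u) u i 0)) :
              CTan E5 M (ct p 0))).1 = -dct p 0 (vim fun i => vbr (vc u) u i 0) := by
          show Complex.I.re • _ - Complex.I.im • _ = _
          rw [Complex.I_re, Complex.I_im, zero_smul, one_smul, zero_sub]
        rw [h4, map_neg, theta_sum] at h3
        have h5 : (Complex.I * ∑ i, ((θ (dct p 0 (e5 i)) : ℝ) : ℂ) * vbr (vc u) u i 0).re
            = -∑ i, θ (dct p 0 (e5 i)) * (vim fun i => vbr (vc u) u i 0) i := by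
          rw [Complex.mul_re, Complex.I_re, Complex.I_im, zero_mul, one_mul, zero_sub,
            Complex.im_sum]
          congr 1
          refine Finset.sum_congr rfl fun i _ => ?_
          rw [Complex.im_ofReal_mul]
          rfl
        rw [h5]
        exact h3
      · rintro q ⟨y, hy, rfl⟩
        rw [(h y hy).1]
        exact hu' y hy
      · rw [(h 0 h0).1]
        intro h6
        obtain ⟨i, hi⟩ := hne
        exact hi (congrFun (pc_zero hC (Metric.mem_ball_self hρ) h6) i)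

end Pool.Agent.CR5.Man
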