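import Pool.Agent.Lib.CR5.I.Spec

/-!
# CR5, block I, Nf: the normal form
-/

open MeasureTheory Set Filter Topology
open scoped ENNReal ComplexConjugate Manifold ContDiff

noncomputable section

namespace Pool.Agent.CR5.Man

namespace Nfx

/-! ### rules for `vd` -/

theorem vd_left (p : Fin 2 → ℂ) (X : Fin 2 → VF) (f : E5 → ℂ) (x : E5) :
    vd (fun i y => ∑ a, p a * X a i y) f x = ∑ a, p a * vd (X a) f x := by
  simp only [vd, Fin.sum_univ_two, Fin.sum_univ_five]
  ring

theorem vd_right (u : VF) (p : Fin 2 → ℂ) {g : Fin 2 → E5 → ℂ} (hg : ∀ a, Sm (g a)) (x : E5) :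
    vd u (fun y => ∑ a, p a * g a y) x = ∑ a, p a * vd u (g a) x := by
  have h : ∀ i, pd i (fun y => ∑ a, p a * g a y) x = ∑ a, p a * pd i (g a) x := by
    intro i
    rw [pd_sum _ fun a _ => (Sm.const (p a)).mul (hg a)]
    exact Finset.sum_congr rfl fun a _ => pd_const_mul (hg a) (p a) i x
  show ∑ i, u i x * pd i (fun y => ∑ a, p a * g a y) x = _
  simp only [h]
  simp only [vd, Fin.sum_univ_two, Fin.sum_univ_five]
  ring

theorem vd_sm {u : VF} (hu : ∀ i, Sm (u i)) {f : E5 → ℂ} (hf : Sm f) : Sm (vd u f) :=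
  Sm.sum _ fun i _ => (hu i).mul (hf.pd i)

theorem vd_conj (u : VF) {f : E5 → ℂ} (hf : Sm f) (x : E5) :
    conj (vd u f x) = vd (vc u) (fun y => conj (f y)) x := by
  simp only [vd, vc, map_sum, map_mul, pd_conj hf]

theorem vc_vc (u : VF) : vc (vc u) = u := by
  funext i x
  exact Complex.conj_conj _

theorem vc_sm {u : VF} (hu : ∀ i, Sm (u i)) (i : Fin 5) : Sm (vc u i) := (hu i).conj

theorem vc_sum (p : Fin 2 → ℂ) (X : Fin 2 → VF) :
    vc (fun i y => ∑ a, p a * X a i y) = fun i y => ∑ a, conj (p a) * vc (X a) i y := by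
  funext i y
  show conj (∑ a, p a * X a i y) = _
  rw [map_sum]
  exact Finset.sum_congr rfl fun a _ => map_mul _ _ _

theorem vbr_bil (p q : Fin 2 → ℂ) {X Y : Fin 2 → VF} (hX : ∀ a i, Sm (X a i))
    (hY : ∀ a i, Sm (Y a i)) (i : Fin 5) (x : E5) :
    vbr (fun i y => ∑ a, p a * X a i y) (fun i y => ∑ a, q a * Y a i y) i x
      = ∑ a, ∑ b, p a * q b * vbr (X a) (Y b) i x := by
  show vd (fun i y => ∑ a, p a * X a i y) (fun y => ∑ a, q a * Y a i y) x
    - vd (fun i y => ∑ a, q a * Y a i y) (fun y => ∑ a, p a * X a i y) x = _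
  rw [vd_left, vd_left]
  simp only [vd_right _ q (fun a => hY a i), vd_right _ p (fun a => hX a i)]
  simp only [vbr, Fin.sum_univ_two]
  ring

theorem vbr_conj {u v : VF} (hu : ∀ i, Sm (u i)) (hv : ∀ i, Sm (v i)) (i : Fin 5) (x : E5) :
    conj (vbr (vc u) v i x) = -vbr (vc v) u i x := by
  show conj (vd (vc u) (v i) x - vd v (vc u i) x) = -(vd (vc v) (u i) x - vd u (vc v i) x)
  rw [map_sub, vd_conj (vc u) (hv i), vd_conj v (vc_sm hu i), vc_vc]
  have e : (fun y => conj (vc u i y)) = u i := by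
    funext y
    exact Complex.conj_conj _
  rw [e]
  show vd u (vc v i) x - vd (vc v) (u i) x = _
  ring

/-! ### linear functions -/

theorem sm_lin (z : E5 →L[ℝ] ℂ) : Sm fun y => z y := z.contDiff

theorem pd_lin (z : E5 →L[ℝ] ℂ) (i : Fin 5) (x : E5) : pd i (fun y => z y) x = z (e5 i) := by
  show fderiv ℝ (fun y => z y) x (e5 i) = _
  rw [z.hasFDerivAt.fderiv]

theorem vd_lin (u : VF) (z : E5 →L[ℝ] ℂ) (x : E5) :
    vd u (fun y => z y) x = ∑ i, u i x * z (e5 i) := by
  simp only [vd, pd_lin]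

theorem vd_linc (u : VF) (z : E5 →L[ℝ] ℂ) (x : E5) :
    vd u (fun y => conj (z y)) x = ∑ i, u i x * conj (z (e5 i)) := by
  simp only [vd, pd_conj (sm_lin z), pd_lin]

/-- the real form -/
def thL (θ : Fin 5 → ℝ) : E5 →L[ℝ] ℝ := ∑ i, θ i • (EuclideanSpace.proj i : E5 →L[ℝ] ℝ)

theorem thL_apply (θ : Fin 5 → ℝ) (x : E5) : thL θ x = ∑ i, θ i * x i := by
  simp only [thL, Fin.sum_univ_five]
  rfl

theorem thL_e5 (θ : Fin 5 → ℝ) (i : Fin 5) : thL θ (e5 i) = θ i := by
  rw [thL_apply, Finset.sum_eq_single i]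
  · simp [e5]
  · intro m _ hm
    simp [e5, hm]
  · intro h
    exact absurd (Finset.mem_univ i) h

theorem pd_th (θ : Fin 5 → ℝ) (i : Fin 5) (x : E5) :
    pd i (fun y => ((thL θ y : ℝ) : ℂ)) x = (θ i : ℂ) := by
  have h := pd_lin (Complex.ofRealCLM.comp (thL θ)) i x
  have h2 : (Complex.ofRealCLM.comp (thL θ)) (e5 i) = (θ i : ℂ) := by
    show ((thL θ (e5 i) : ℝ) : ℂ) = _
    rw [thL_e5]
  rw [h2] at h
  exact h

theorem vd_th (u : VF) (θ : Fin 5 → ℝ) :
    vd u (fun y => ((thL θ y : ℝ) : ℂ)) = fun x => ∑ i, (θ i : ℂ) * u i x := by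
  funext x
  simp only [vd, pd_th]
  exact Finset.sum_congr rfl fun i _ => mul_comm _ _

theorem vd_sum5 (u : VF) (θ : Fin 5 → ℝ) {v : VF} (hv : ∀ i, Sm (v i)) (x : E5) :
    vd u (fun y => ∑ i, (θ i : ℂ) * v i y) x = ∑ i, (θ i : ℂ) * vd u (v i) x := by
  have h : ∀ k, pd k (fun y => ∑ i, (θ i : ℂ) * v i y) x = ∑ i, (θ i : ℂ) * pd k (v i) x := by
    intro k
    rw [pd_sum _ fun a _ => (Sm.const (θ a : ℂ)).mul (hv a)]
    exact Finset.sum_congr rfl fun a _ => pd_const_mul (hv a) _ k x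
  simp only [vd, h]
  simp only [Finset.mul_sum]
  rw [Finset.sum_comm]
  exact Finset.sum_congr rfl fun i _ => Finset.sum_congr rfl fun k _ => by ring

/-- the Levi expression -/
theorem levi_eq (θ : Fin 5 → ℝ) {u v : VF} (hu : ∀ i, Sm (u i)) (hv : ∀ i, Sm (v i)) (x : E5) :
    vd (vc u) (vd v fun y => ((thL θ y : ℝ) : ℂ)) x - vd v (vd (vc u) fun y => ((thL θ y : ℝ) : ℂ)) x
      = ∑ i, (θ i : ℂ) * vbr (vc u) v i x := by
  rw [vd_th, vd_th, vd_sum5 _ θ hv, vd_sum5 _ θ (vc_sm hu), ← Finset.sum_sub_distrib]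
  refine Finset.sum_congr rfl fun i _ => ?_
  rw [← mul_sub]
  rfl

end Nfx

open Nfx in
theorem pNf (hBs : S_Bs) (hNr : S_Nr) (hCm : S_Cm) (hGr : S_Gr) : S_Nf := by
  intro K ρ hK
  have hK' := hK
  obtain ⟨hρ, ⟨W, hWs, hWK⟩, hdisj, -, ⟨θ, hθK, hθpos⟩⟩ := hK'
  have h0 : (0 : E5) ∈ Metric.ball (0 : E5) ρ := Metric.mem_ball_self hρ
  obtain ⟨hK0, hlin⟩ := hWK 0 h0
  have hWm : ∀ x ∈ Metric.ball (0 : E5) ρ, ∀ j, (fun i => W j i x) ∈ K x := by
    intro x hx j
    refine ((hWK x hx).1 _).2 ⟨Pi.single j 1, ?_⟩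
    funext i
    rw [Finset.sum_eq_single j]
    · rw [Pi.single_eq_same, one_mul]
    · intro b _ hb
      rw [Pi.single_eq_of_ne hb, zero_mul]
    · intro h
      exact absurd (Finset.mem_univ j) h
  -- independence
  have hind : ∀ α β : Fin 2 → ℂ, (∀ i, ∑ j, (α j * W j i 0 + β j * conj (W j i 0)) = 0) →
      α = 0 ∧ β = 0 := by
    intro α β h
    obtain ⟨c, hc⟩ : ∃ c : Fin 5 → ℂ, c = fun i => ∑ j, α j * W j i 0 := ⟨_, rfl⟩
    have hcK : c ∈ K 0 := (hK0 c).2 ⟨α, hc⟩
    have hcc : (fun i => conj (c i)) = fun i => ∑ j, (-conj (β j)) * W j i 0 := by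
      funext i
      have h1 := h i
      rw [Finset.sum_add_distrib] at h1
      have h2 : c i = -∑ j, β j * conj (W j i 0) := by
        rw [hc]
        linear_combination h1
      rw [h2, map_neg, map_sum, ← Finset.sum_neg_distrib]
      refine Finset.sum_congr rfl fun j _ => ?_
      rw [map_mul, Complex.conj_conj]
      ring
    have hcK' : (fun i => conj (c i)) ∈ K 0 := (hK0 _).2 ⟨_, hcc⟩
    have hc0 : c = 0 := hdisj 0 h0 c hcK hcK'
    constructor
    · refine hlin α fun i => ?_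
      have := congrFun hc0 i
      rw [hc] at this
      exact this
    · have h3 := hlin (fun j => -conj (β j)) fun i => by
        have h4 := congrFun hcc i
        rw [hc0] at h4
        rw [← h4]
        simp
      funext j
      have h4 := congrFun h3 j
      have h5 : conj (β j) = 0 := by
        have h6 : -conj (β j) = 0 := h4
        exact neg_eq_zero.1 h6
      show β j = 0
      rw [← Complex.conj_conj (β j), h5, map_zero]
  have hθ : θ ≠ 0 := by
    intro h
    have h1 := hθpos ρ hρ le_rfl (W 0) (hWs 0) (fun x hx => hWm x hx 0) (by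
      by_contra hcon
      push Not at hcon
      have h2 := hlin (Pi.single 0 1) fun i => by
        rw [Fin.sum_univ_two]
        simp [hcon i]
      have h3 := congrFun h2 0
      simp at h3)
    rw [h] at h1
    simp at h1
  have hθw : ∀ c ∈ K 0, ∑ i, (θ i : ℂ) * c i = 0 := hθK
  obtain ⟨z, b1, b2, b3⟩ := hBs (fun j i => W j i 0) θ hind hθ fun j => hθw _ (hWm 0 h0 j)
  have b1' : ∀ c ∈ K 0, ∀ k, ∑ i, c i * z k (e5 i) = 0 := by
    intro c hc k
    obtain ⟨α, hα⟩ := (hK0 c).1 hc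
    have h1 : ∑ i, c i * z k (e5 i) = ∑ j, α j * ∑ i, W j i 0 * z k (e5 i) := by
      rw [hα]
      simp only [Finset.sum_mul, Finset.mul_sum]
      rw [Finset.sum_comm]
      exact Finset.sum_congr rfl fun j _ => Finset.sum_congr rfl fun i _ => by ring
    rw [h1]
    exact Finset.sum_eq_zero fun j _ => by rw [b1 j k, mul_zero]
  obtain ⟨r, U, hr, hrρ, hUs, hU⟩ := hNr K ρ hK z (by
    intro c hc hck
    obtain ⟨α, hα⟩ := (hK0 c).1 hc
    have h1 : ∀ k, ∑ i, c i * conj (z k (e5 i)) = α k := by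
      intro k
      have h2 : ∑ i, c i * conj (z k (e5 i)) = ∑ j, α j * ∑ i, W j i 0 * conj (z k (e5 i)) := by
        rw [hα]
        simp only [Finset.sum_mul, Finset.mul_sum]
        rw [Finset.sum_comm]
        exact Finset.sum_congr rfl fun j _ => Finset.sum_congr rfl fun i _ => by ring
      rw [h2]
      simp only [b2]
      simp
    rw [hα]
    funext i
    show ∑ j, α j * W j i 0 = 0
    refine Finset.sum_eq_zero fun j _ => ?_
    rw [← h1 j, hck j, zero_mul])
  have h0r : (0 : E5) ∈ Metric.ball (0 : E5) r := Metric.mem_ball_self hr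
  have hcm := hCm K ρ hK z r U hr hrρ hUs hU
  have hU0 : ∀ j, (fun i => U j i 0) ∈ K 0 := (hU 0 h0r).2.1
  -- the Levi matrix
  obtain ⟨G, hG⟩ : ∃ G : Matrix (Fin 2) (Fin 2) ℂ,
      ∀ a b, G a b = Complex.I * ∑ i, (θ i : ℂ) * vbr (vc (U a)) (U b) i 0 :=
    ⟨fun a b => Complex.I * ∑ i, (θ i : ℂ) * vbr (vc (U a)) (U b) i 0, fun _ _ => rfl⟩
  have hherm : ∀ a b, conj (G a b) = G b a := by
    intro a b
    rw [hG, hG, map_mul, Complex.conj_I, map_sum]
    have h1 : ∀ i, conj ((θ i : ℂ) * vbr (vc (U a)) (U b) i 0)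
        = -((θ i : ℂ) * vbr (vc (U b)) (U a) i 0) := by
      intro i
      rw [map_mul, Complex.conj_ofReal, vbr_conj (hUs a) (hUs b)]
      ring
    simp only [h1, Finset.sum_neg_distrib]
    ring
  have hbil : ∀ p q : Fin 2 → ℂ, ∀ i, vbr (vc fun i y => ∑ a, p a * U a i y)
      (fun i y => ∑ a, q a * U a i y) i 0
      = ∑ a, ∑ b, conj (p a) * q b * vbr (vc (U a)) (U b) i 0 := by
    intro p q i
    rw [vc_sum]
    exact vbr_bil (fun a => conj (p a)) q (fun a => vc_sm (hUs a)) hUs i 0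
  have hGsum : ∀ p q : Fin 2 → ℂ, Complex.I * ∑ i, (θ i : ℂ) *
      vbr (vc fun i y => ∑ a, p a * U a i y) (fun i y => ∑ a, q a * U a i y) i 0
      = ∑ a, ∑ b, conj (p a) * q b * G a b := by
    intro p q
    simp only [hbil]
    simp only [hG, Fin.sum_univ_two, Fin.sum_univ_five]
    ring
  have hpos : ∀ c : Fin 2 → ℂ, c ≠ 0 → 0 < (∑ j, ∑ k, conj (c j) * c k * G j k).re := by
    intro c hc
    rw [← hGsum]
    refine hθpos r hr hrρ (fun i y => ∑ a, c a * U a i y) ?_ ?_ ?_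
    · intro i
      have h1 : Sm fun y => ∑ a, c a * U a i y :=
        Sm.sum _ fun a _ => (Sm.const (c a)).mul (hUs a i)
      exact h1.contDiff.contDiffOn
    · intro x hx
      have h1 : (fun i => ∑ a, c a * U a i x) = ∑ a, c a • (fun i => U a i x) := by
        funext i
        rw [Finset.sum_apply]
        rfl
      show (fun i => ∑ a, c a * U a i x) ∈ K x
      rw [h1]
      exact Submodule.sum_mem _ fun a _ => Submodule.smul_mem _ _ ((hU x hx).2.1 a)
    · by_contra hcon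
      push Not at hcon
      apply hc
      funext k
      have h1 : ∑ i, (∑ a, c a * U a i 0) * conj (z k (e5 i)) = c k := by
        have h2 : ∑ i, (∑ a, c a * U a i 0) * conj (z k (e5 i))
            = ∑ a, c a * ∑ i, U a i 0 * conj (z k (e5 i)) := by
          simp only [Finset.sum_mul, Finset.mul_sum]
          rw [Finset.sum_comm]
          exact Finset.sum_congr rfl fun j _ => Finset.sum_congr rfl fun i _ => by ring
        rw [h2]
        simp only [(hU 0 h0r).1]
        simp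
      show c k = 0
      rw [← h1]
      exact Finset.sum_eq_zero fun i _ => by rw [hcon i, zero_mul]
  obtain ⟨m, n, hmn, hnm, hGm⟩ := hGr G hherm hpos
  have emn : ∀ j k, m j 0 * n 0 k + m j 1 * n 1 k = if j = k then 1 else 0 := by
    intro j k
    have h1 := congrFun (congrFun hmn j) k
    rw [Matrix.mul_apply, Fin.sum_univ_two, Matrix.one_apply] at h1
    exact h1
  have enm : ∀ j k, n j 0 * m 0 k + n j 1 * m 1 k = if j = k then 1 else 0 := by
    intro j k
    have h1 := congrFun (congrFun hnm j) k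
    rw [Matrix.mul_apply, Fin.sum_univ_two, Matrix.one_apply] at h1
    exact h1
  -- the new data
  obtain ⟨V, hV⟩ : ∃ V : Fin 2 → VF, V = fun j i x => ∑ a, m j a * U a i x := ⟨_, rfl⟩
  obtain ⟨ζ, hζ⟩ : ∃ ζ : Fin 2 → E5 →L[ℝ] ℂ,
      ∀ k x, ζ k x = conj (n 0 k) * z 0 x + conj (n 1 k) * z 1 x :=
    ⟨fun k => conj (n 0 k) • z 0 + conj (n 1 k) • z 1, fun _ _ => rfl⟩
  have hVj : ∀ j, V j = fun i x => ∑ a, m j a * U a i x := fun j => by rw [hV]
  have hVs : ∀ j i, Sm (V j i) := by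
    intro j i
    rw [hV]
    exact Sm.sum _ fun a _ => (Sm.const (m j a)).mul (hUs a i)
  have hcomm : ∀ f : E5 → ℂ, Sm f → ∀ x ∈ Metric.ball (0 : E5) r,
      vd (V 0) (vd (V 1) f) x = vd (V 1) (vd (V 0) f) x := by
    intro f hf x hx
    have e : ∀ j, vd (V j) f = fun y => ∑ a, m j a * vd (U a) f y := by
      intro j
      funext y
      rw [hVj, vd_left]
    rw [e 0, e 1, hVj 0, hVj 1, vd_left, vd_left]
    have e2 : ∀ a j, vd (U a) (fun y => ∑ b, m j b * vd (U b) f y) x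
        = ∑ b, m j b * vd (U a) (vd (U b) f) x := fun a j =>
      vd_right (U a) (m j) (fun b => vd_sm (hUs b) hf) x
    simp only [e2]
    simp only [Fin.sum_univ_two]
    have h1 := hcm f hf x hx
    linear_combination (m 0 0 * m 1 1 - m 0 1 * m 1 0) * h1
  refine ⟨V, ζ, thL θ, r, hrρ, ⟨hr, hVs, ?_, ?_, hcomm, ?_, ?_, ?_⟩, ?_⟩
  · -- nd
    intro x hx ht
    refine b3 x ?_ (by rw [← thL_apply]; exact ht)
    have e0 := hx 0
    have e1 := hx 1
    rw [hζ] at e0 e1
    have c00 := congrArg conj (enm 0 0)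
    have c10 := congrArg conj (enm 1 0)
    have c01 := congrArg conj (enm 0 1)
    have c11 := congrArg conj (enm 1 1)
    simp only [map_add, map_mul, if_true, map_one] at c00 c11
    rw [if_neg (by decide : ¬ (1 : Fin 2) = 0)] at c10
    rw [if_neg (by decide : ¬ (0 : Fin 2) = 1)] at c01
    simp only [map_add, map_mul, map_zero] at c10 c01
    have z0 : z 0 x = 0 := by
      linear_combination conj (m 0 0) * e0 + conj (m 1 0) * e1 - z 0 x * c00 - z 1 x * c10
    have z1 : z 1 x = 0 := by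
      linear_combination conj (m 0 1) * e0 + conj (m 1 1) * e1 - z 0 x * c01 - z 1 x * c11
    intro k
    fin_cases k
    · exact z0
    · exact z1
  · -- dual
    intro j k x hx
    have u1 := (hU x hx).1
    have e : ∀ a, vd (U a) (fun y => conj (ζ k y)) x = n a k := by
      intro a
      rw [vd_linc]
      have h1 : ∑ i, U a i x * conj (ζ k (e5 i))
          = n 0 k * (∑ i, U a i x * conj (z 0 (e5 i))) + n 1 k * ∑ i, U a i x * conj (z 1 (e5 i)) := by
        simp only [Finset.mul_sum, ← Finset.sum_add_distrib]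
        refine Finset.sum_congr rfl fun i _ => ?_
        rw [hζ, map_add, map_mul, map_mul, Complex.conj_conj, Complex.conj_conj]
        ring
      rw [h1, u1, u1]
      fin_cases a
      · simp
      · simp
    rw [hVj, vd_left]
    simp only [e]
    rw [Fin.sum_univ_two]
    exact emn j k
  · -- z0
    intro j k
    rw [hVj, vd_left]
    refine Finset.sum_eq_zero fun a _ => ?_
    rw [vd_lin]
    have h1 : ∑ i, U a i 0 * ζ k (e5 i)
        = conj (n 0 k) * (∑ i, U a i 0 * z 0 (e5 i)) + conj (n 1 k) * ∑ i, U a i 0 * z 1 (e5 i) := by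
      simp only [Finset.mul_sum, ← Finset.sum_add_distrib]
      refine Finset.sum_congr rfl fun i _ => ?_
      rw [hζ]
      ring
    rw [h1, b1' _ (hU0 a) 0, b1' _ (hU0 a) 1]
    ring
  · -- t0
    intro j
    rw [hVj, vd_left]
    refine Finset.sum_eq_zero fun a _ => ?_
    rw [vd_th]
    have h1 := hθw _ (hU0 a)
    show m j a * ∑ i, (θ i : ℂ) * U a i 0 = 0
    rw [h1, mul_zero]
  · -- levi
    intro j k
    rw [levi_eq θ (hVs j) (hVs k), hVj, hVj, hGsum]
    exact hGm j k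
  · -- the last claim
    intro x hx c hc
    obtain ⟨γ, hγ⟩ := (hU x hx).2.2 c hc
    refine ⟨fun j => γ 0 * n 0 j + γ 1 * n 1 j, ?_⟩
    rw [hγ]
    funext i
    simp only [hV, Fin.sum_univ_two]
    have c00 := enm 0 0
    have c10 := enm 1 0
    have c01 := enm 0 1
    have c11 := enm 1 1
    rw [if_pos rfl] at c00 c11
    rw [if_neg (by decide : ¬ (1 : Fin 2) = 0)] at c10
    rw [if_neg (by decide : ¬ (0 : Fin 2) = 1)] at c01
    linear_combination (-γ 0 * U 0 i x) * c00 - γ 0 * U 1 i x * c01 - γ 1 * U 0 i x * c10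
      - γ 1 * U 1 i x * c11

end Pool.Agent.CR5.Man
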