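import Pool.Agent.Lib.CR5.I.Spec

/-!
# CR5, block I: normalised smooth frames
-/

set_option autoImplicit false

open MeasureTheory Set Filter Topology
open scoped ENNReal ComplexConjugate Manifold ContDiff

noncomputable section

namespace Pool.Agent.CR5.Man

namespace Nrx

/-- The inverse of a matrix with two rows. -/
def Bi (A : Fin 2 → Fin 2 → ℂ) (j k : Fin 2) : ℂ :=
  (if j = 0 then (if k = 0 then A 1 1 else -A 0 1) else (if k = 0 then -A 1 0 else A 0 0)) /
    (A 0 0 * A 1 1 - A 0 1 * A 1 0)

theorem fin2_cases (l : Fin 2) : l = 0 ∨ l = 1 := by fin_cases l <;> simp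

theorem bi_left (A : Fin 2 → Fin 2 → ℂ) (h : A 0 0 * A 1 1 - A 0 1 * A 1 0 ≠ 0) (j k : Fin 2) :
    ∑ l, Bi A j l * A l k = if j = k then 1 else 0 := by
  unfold Bi
  generalize hd : A 0 0 * A 1 1 - A 0 1 * A 1 0 = d at h ⊢
  rcases fin2_cases j with rfl | rfl <;> rcases fin2_cases k with rfl | rfl
  · simp only [Fin.sum_univ_two, if_true, one_ne_zero, if_false]
    field_simp
    linear_combination hd
  · simp only [Fin.sum_univ_two, if_true, one_ne_zero, zero_ne_one, if_false]
    field_simp
    ring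
  · simp only [Fin.sum_univ_two, if_true, one_ne_zero, if_false]
    field_simp
    ring
  · simp only [Fin.sum_univ_two, if_true, one_ne_zero, if_false]
    field_simp
    linear_combination hd

theorem bi_right (A : Fin 2 → Fin 2 → ℂ) (h : A 0 0 * A 1 1 - A 0 1 * A 1 0 ≠ 0) (j k : Fin 2) :
    ∑ l, A j l * Bi A l k = if j = k then 1 else 0 := by
  unfold Bi
  generalize hd : A 0 0 * A 1 1 - A 0 1 * A 1 0 = d at h ⊢
  rcases fin2_cases j with rfl | rfl <;> rcases fin2_cases k with rfl | rfl
  · simp only [Fin.sum_univ_two, if_true, one_ne_zero, if_false]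
    field_simp
    linear_combination hd
  · simp only [Fin.sum_univ_two, if_true, one_ne_zero, zero_ne_one, if_false]
    field_simp
    ring
  · simp only [Fin.sum_univ_two, if_true, one_ne_zero, if_false]
    field_simp
    ring
  · simp only [Fin.sum_univ_two, if_true, one_ne_zero, if_false]
    field_simp
    linear_combination hd

/-- A singular matrix has a nonzero vector in its left kernel. -/
theorem exists_ker (A : Fin 2 → Fin 2 → ℂ) (h : A 0 0 * A 1 1 - A 0 1 * A 1 0 = 0) :
    ∃ α : Fin 2 → ℂ, α ≠ 0 ∧ ∀ k, ∑ j, α j * A j k = 0 := by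
  have h1 : (Matrix.of A).det = 0 := by
    rw [Matrix.det_fin_two]
    exact h
  obtain ⟨v, hv, hv'⟩ := Matrix.exists_vecMul_eq_zero_iff.mpr h1
  refine ⟨v, hv, fun k => ?_⟩
  have h2 := congrFun hv' k
  simpa [Matrix.vecMul, dotProduct] using h2

end Nrx

open Nrx in
theorem pNr : S_Nr := by
  intro K ρ hK ζ hζ
  obtain ⟨W, hW, hWx⟩ := hK.frame
  have hρ := hK.pos
  set A : E5 → Fin 2 → Fin 2 → ℂ := fun x j k => ∑ i, W j i x * conj (ζ k (e5 i)) with hA
  set D : E5 → ℂ := fun x => A x 0 0 * A x 1 1 - A x 0 1 * A x 1 0 with hD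
  have hAs : ∀ j k, ContDiffOn ℝ (⊤ : ℕ∞) (fun x => A x j k) (Metric.ball 0 ρ) := by
    intro j k
    exact ContDiffOn.sum fun i _ => (hW j i).mul contDiffOn_const
  have hDs : ContDiffOn ℝ (⊤ : ℕ∞) D (Metric.ball 0 ρ) :=
    ((hAs 0 0).mul (hAs 1 1)).sub ((hAs 0 1).mul (hAs 1 0))
  have h0 : D 0 ≠ 0 := by
    intro h
    obtain ⟨α, hα, hα'⟩ := exists_ker (A 0) h
    have h1 := hWx 0 (Metric.mem_ball_self hρ)
    have h2 : (fun i => ∑ j, α j * W j i 0) = (0 : Fin 5 → ℂ) := by
      apply hζ _ ((h1.1 _).mpr ⟨α, rfl⟩)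
      intro k
      rw [← hα' k]
      simp only [hA, Finset.sum_mul, Finset.mul_sum]
      rw [Finset.sum_comm]
      exact Finset.sum_congr rfl fun i _ => Finset.sum_congr rfl fun j _ => by ring
    exact hα (h1.2 α fun i => congrFun h2 i)
  have hcont : ContinuousAt D 0 :=
    hDs.continuousOn.continuousAt (Metric.ball_mem_nhds _ hρ)
  obtain ⟨r1, hr1, hr1'⟩ := Metric.eventually_nhds_iff_ball.mp (hcont.eventually_ne h0)
  set r' := min r1 ρ with hr'
  have hr'0 : 0 < r' := lt_min hr1 hρ
  have hDne : ∀ x ∈ Metric.ball (0 : E5) r', D x ≠ 0 := fun x hx =>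
    hr1' x (Metric.ball_subset_ball (min_le_left _ _) hx)
  have hsub : Metric.ball (0 : E5) r' ⊆ Metric.ball 0 ρ :=
    Metric.ball_subset_ball (min_le_right _ _)
  set B : E5 → Fin 2 → Fin 2 → ℂ := fun x => Bi (A x) with hB
  have hBs : ∀ j k, ContDiffOn ℝ (⊤ : ℕ∞) (fun x => B x j k) (Metric.ball 0 r') := by
    intro j k
    have hn : ContDiffOn ℝ (⊤ : ℕ∞) (fun x => if j = 0 then (if k = 0 then A x 1 1 else -A x 0 1)
        else (if k = 0 then -A x 1 0 else A x 0 0)) (Metric.ball 0 r') := by
      rcases fin2_cases j with rfl | rfl <;> rcases fin2_cases k with rfl | rfl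
      · simpa using (hAs 1 1).mono hsub
      · simpa using ((hAs 0 1).mono hsub).neg
      · simpa using ((hAs 1 0).mono hsub).neg
      · simpa using (hAs 0 0).mono hsub
    exact hn.mul ((hDs.mono hsub).inv hDne)
  set U' : Fin 2 → VF := fun j i x => ∑ l, B x j l * W l i x with hU'
  have hU's : ∀ j i, ContDiffOn ℝ (⊤ : ℕ∞) (U' j i) (Metric.ball 0 r') := by
    intro j i
    exact ContDiffOn.sum fun l _ => (hBs j l).mul ((hW l i).mono hsub)
  set χ : ContDiffBump (0 : E5) := ⟨r' / 2, 3 * r' / 4, by linarith, by linarith⟩ with hχ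
  refine ⟨r' / 2, fun j i x => ((χ x : ℝ) : ℂ) * U' j i x, by linarith, ?_, ?_, ?_⟩
  · have := min_le_right r1 ρ
    linarith
  · intro j i
    show ContDiff ℝ (⊤ : ℕ∞) _
    have hχs : ContDiff ℝ (⊤ : ℕ∞) fun x => ((χ x : ℝ) : ℂ) :=
      Complex.ofRealCLM.contDiff.comp χ.contDiff
    rw [contDiff_iff_contDiffAt]
    intro x
    by_cases hx : x ∈ Metric.ball (0 : E5) r'
    · exact hχs.contDiffAt.mul ((hU's j i).contDiffAt (Metric.isOpen_ball.mem_nhds hx))
    · have hx' : x ∈ (Metric.closedBall (0 : E5) (3 * r' / 4))ᶜ := by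
        intro h
        apply hx
        rw [Metric.mem_closedBall] at h
        rw [Metric.mem_ball]
        linarith
      have he : (fun x => ((χ x : ℝ) : ℂ) * U' j i x) =ᶠ[𝓝 x] fun _ => (0 : ℂ) := by
        filter_upwards [(Metric.isClosed_closedBall.isOpen_compl).mem_nhds hx'] with y hy
        have h1 : χ y = 0 := by
          apply χ.zero_of_le_dist
          have h2 : ¬ dist y 0 ≤ 3 * r' / 4 := hy
          exact (not_le.mp h2).le
        rw [h1]
        simp
      exact contDiffAt_const.congr_of_eventuallyEq he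
  · intro x hx
    have hx' : x ∈ Metric.ball (0 : E5) r' := Metric.ball_subset_ball (by linarith) hx
    have h1 : χ x = 1 := χ.one_of_mem_closedBall (Metric.ball_subset_closedBall hx)
    have hU : ∀ j i, ((χ x : ℝ) : ℂ) * U' j i x = ∑ l, B x j l * W l i x := by
      intro j i
      rw [h1]
      simp [hU']
    simp only [hU]
    have h2 := hWx x (hsub hx')
    refine ⟨fun j k => ?_, fun j => ?_, fun c hc => ?_⟩
    · rw [← bi_left (A x) (hDne x hx') j k]
      simp only [hA, hB, Finset.sum_mul, Finset.mul_sum]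
      rw [Finset.sum_comm]
      exact Finset.sum_congr rfl fun i _ => Finset.sum_congr rfl fun j _ => by ring
    · exact (h2.1 _).mpr ⟨fun l => B x j l, rfl⟩
    · obtain ⟨β, rfl⟩ := (h2.1 c).mp hc
      refine ⟨fun k => ∑ j, β j * A x j k, ?_⟩
      funext i
      have h3 : ∀ j, ∑ k, A x j k * ∑ l, B x k l * W l i x = W j i x := by
        intro j
        have h4 : ∑ k, A x j k * ∑ l, B x k l * W l i x =
            ∑ l, (∑ k, A x j k * B x k l) * W l i x := by
          simp only [Finset.sum_mul, Finset.mul_sum]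
          rw [Finset.sum_comm]
          exact Finset.sum_congr rfl fun i _ => Finset.sum_congr rfl fun j _ => by ring
        rw [h4]
        have h5 : ∀ l, ∑ k, A x j k * B x k l = if j = l then 1 else 0 :=
          fun l => bi_right (A x) (hDne x hx') j l
        simp only [h5]
        simp
      calc ∑ j, β j * W j i x = ∑ j, β j * ∑ k, A x j k * ∑ l, B x k l * W l i x :=
            Finset.sum_congr rfl fun j _ => by rw [h3 j]
        _ = ∑ k, (∑ j, β j * A x j k) * ∑ l, B x k l * W l i x := by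
            simp only [Finset.sum_mul (s := Finset.univ) (f := fun j => β j * A x j _)]
            rw [Finset.sum_comm]
            refine Finset.sum_congr rfl fun j _ => ?_
            rw [Finset.mul_sum]
            exact Finset.sum_congr rfl fun k _ => by ring

end Pool.Agent.CR5.Man
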