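import Pool.Agent.Lib.CR5.I.Spec

/-!
# CR5, block I, module Pb (helper44): pull-back of vector fields
-/

set_option autoImplicit false

open MeasureTheory Set Filter Topology
open scoped ENNReal ComplexConjugate Manifold ContDiff

noncomputable section

namespace Pool.Agent.CR5.Man

namespace Pbx

universe u

/-- the differential of the chart is invertible -/
theorem equiv (M : Type u) [TopologicalSpace M] [ChartedSpace E5 M]
    [IsManifold 𝓘(ℝ, E5) ∞ M] (p : M) (ρ : ℝ) (hc : Ctr p ρ) (y : E5)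
    (hy : y ∈ Metric.ball (0 : E5) ρ) :
    ∃ e : TangentSpace 𝓘(ℝ, E5) (ct p y) ≃L[ℝ] TangentSpace 𝓘(ℝ, E5) (cs p (ct p y)),
      (e : TangentSpace 𝓘(ℝ, E5) (ct p y) →L[ℝ] TangentSpace 𝓘(ℝ, E5) (cs p (ct p y)))
        = mfderiv 𝓘(ℝ, E5) 𝓘(ℝ, E5) (cs p) (ct p y) ∧ ∀ w : E5, e.symm w = dct p y w :=
  ⟨ContinuousLinearEquiv.equivOfInverse (mfderiv 𝓘(ℝ, E5) 𝓘(ℝ, E5) (cs p) (ct p y)) (dct p y)
    (hc.dr y hy) (hc.dl y hy), rfl, fun _ => rfl⟩

end Pbx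

theorem pPb.{u} : S_Pb.{u} := by
  intro M _ _ _ p ρ r hc hr A B hA hB
  have hsub : Metric.ball (0 : E5) r ⊆ Metric.ball (0 : E5) ρ := Metric.ball_subset_ball hr
  have hinv : ∀ y ∈ Metric.ball (0 : E5) ρ,
      (mfderiv 𝓘(ℝ, E5) 𝓘(ℝ, E5) (cs p) (ct p y)).IsInvertible := by
    intro y hy
    obtain ⟨e, he, _⟩ := Pbx.equiv M p ρ hc y hy
    exact ⟨e, he⟩
  have hval : ∀ (V : E5 → E5), ∀ y ∈ Metric.ball (0 : E5) ρ,
      VectorField.mpullback 𝓘(ℝ, E5) 𝓘(ℝ, E5) (cs p) V (ct p y) = dct p y (V y) := by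
    intro V y hy
    obtain ⟨e, he, he2⟩ := Pbx.equiv M p ρ hc y hy
    rw [VectorField.mpullback_apply, ← he, ContinuousLinearMap.inverse_equiv]
    have h1 : e.symm (V (cs p (ct p y))) = dct p y (V (cs p (ct p y))) :=
      he2 (V (cs p (ct p y)))
    have h2 : V (cs p (ct p y)) = V y := congrArg V (hc.left y hy)
    exact h1.trans (congrArg (fun w : E5 => dct p y w) h2)
  have hAy : ∀ (V : E5 → E5), ContDiffOn ℝ ∞ V (Metric.ball 0 r) → ∀ y ∈ Metric.ball (0 : E5) r,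
      ContMDiffAt 𝓘(ℝ, E5) 𝓘(ℝ, E5).tangent ∞
        (fun z => (⟨z, V z⟩ : TangentBundle 𝓘(ℝ, E5) E5)) y := by
    intro V hV y hy
    exact contMDiffAt_vectorSpace_iff_contDiffAt.2
      (hV.contDiffAt (Metric.isOpen_ball.mem_nhds hy))
  refine ⟨?_, ?_⟩
  · rintro q ⟨y, hy, rfl⟩
    have h1 := hAy A hA y hy
    have h2 : ContMDiffAt 𝓘(ℝ, E5) 𝓘(ℝ, E5).tangent ∞
        (fun z => (⟨z, A z⟩ : TangentBundle 𝓘(ℝ, E5) E5)) (cs p (ct p y)) := by
      rw [hc.left y (hsub hy)]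
      exact h1
    have h3 := ContMDiffAt.mpullback_vectorField_preimage (n := ∞) (m := ∞) h2
      (hc.sms y (hsub hy)) (hinv y (hsub hy)) (by simp)
    exact h3.contMDiffWithinAt
  · intro y hy
    refine ⟨hval A y (hsub hy), ?_⟩
    have hA2 : MDifferentiableAt 𝓘(ℝ, E5) 𝓘(ℝ, E5).tangent
        (fun z => (⟨z, A z⟩ : TangentBundle 𝓘(ℝ, E5) E5)) (cs p (ct p y)) := by
      rw [hc.left y (hsub hy)]
      exact (hAy A hA y hy).mdifferentiableAt (by simp)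
    have hB2 : MDifferentiableAt 𝓘(ℝ, E5) 𝓘(ℝ, E5).tangent
        (fun z => (⟨z, B z⟩ : TangentBundle 𝓘(ℝ, E5) E5)) (cs p (ct p y)) := by
      rw [hc.left y (hsub hy)]
      exact (hAy B hB y hy).mdifferentiableAt (by simp)
    have h2i : (minSmoothness ℝ 2 : ℕ∞ω) ≤ ((⊤ : ℕ∞) : ℕ∞ω) := by
      rw [minSmoothness_of_isRCLikeNormedField]
      have h21 : ((2 : ℕ∞) : ℕ∞ω) ≤ ((⊤ : ℕ∞) : ℕ∞ω) := WithTop.coe_le_coe.2 le_top
      exact h21
    have : IsManifold 𝓘(ℝ, E5) (minSmoothness ℝ 2) M := IsManifold.of_le h2i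
    have h3 := VectorField.mpullback_mlieBracket (n := ∞) hA2 hB2 (hc.sms y (hsub hy)) h2i
    have h4 := hval (VectorField.mlieBracket 𝓘(ℝ, E5) A B) y (hsub hy)
    have h5 : VectorField.mlieBracket 𝓘(ℝ, E5) A B y = VectorField.lieBracket ℝ A B y := by
      rw [← VectorField.mlieBracketWithin_univ, VectorField.mlieBracketWithin_eq_lieBracketWithin,
        VectorField.lieBracketWithin_univ]
    exact (h3.symm.trans h4).trans (congrArg (fun w : E5 => dct p y w) h5)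

end Pool.Agent.CR5.Man
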