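import Pool.Agent.Lib.CR5.I.Spec

/-!
# CR5, block I: vector fields of the manifold in the centred chart (`S_Pf`)
-/

open MeasureTheory Set Filter Topology
open scoped ENNReal ComplexConjugate Manifold ContDiff

noncomputable section

namespace Pool.Agent.CR5.Man

universe v

namespace Pfx

variable {M : Type v} [TopologicalSpace M] [ChartedSpace E5 M] [IsManifold 𝓘(ℝ, E5) ∞ M]

/-- The differential of `ct p` as an equivalence. -/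
def eqv {p : M} {ρ : ℝ} (hC : Ctr p ρ) {y : E5} (hy : y ∈ Metric.ball (0 : E5) ρ) :
    TangentSpace 𝓘(ℝ, E5) y ≃L[ℝ] TangentSpace 𝓘(ℝ, E5) (ct p y) :=
  ContinuousLinearEquiv.equivOfInverse (mfderiv 𝓘(ℝ, E5) 𝓘(ℝ, E5) (ct p) y)
    (mfderiv 𝓘(ℝ, E5) 𝓘(ℝ, E5) (cs p) (ct p y)) (fun w => hC.dl y hy w) (fun X => hC.dr y hy X)

theorem inv_eq {p : M} {ρ : ℝ} (hC : Ctr p ρ) {y : E5} (hy : y ∈ Metric.ball (0 : E5) ρ)
    (X : TangentSpace 𝓘(ℝ, E5) (ct p y)) :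
    (mfderiv 𝓘(ℝ, E5) 𝓘(ℝ, E5) (ct p) y).inverse X
      = mfderiv 𝓘(ℝ, E5) 𝓘(ℝ, E5) (cs p) (ct p y) X := by
  have h : (mfderiv 𝓘(ℝ, E5) 𝓘(ℝ, E5) (ct p) y).inverse
      = ((eqv hC hy).symm : TangentSpace 𝓘(ℝ, E5) (ct p y) →L[ℝ] TangentSpace 𝓘(ℝ, E5) y) :=
    ContinuousLinearMap.inverse_equiv (eqv hC hy)
  rw [h]
  rfl

end Pfx

open Pfx in
/-- **Pf.** Vector fields of `M` in the centred chart. -/
theorem pPf : S_Pf.{v} := by
  intro M _ _ _ p ρ r hC hr X U hU hX hsub y hy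
  have hyρ : y ∈ Metric.ball (0 : E5) ρ := Metric.ball_subset_ball hr hy
  have hyU : ct p y ∈ U := hsub ⟨y, hy, rfl⟩
  have hXat : ContMDiffAt 𝓘(ℝ, E5) 𝓘(ℝ, E5).tangent ∞
      (fun q => (⟨q, X q⟩ : TangentBundle 𝓘(ℝ, E5) M)) (ct p y) := hX.contMDiffAt (hU.mem_nhds hyU)
  have hinv : (mfderiv 𝓘(ℝ, E5) 𝓘(ℝ, E5) (ct p) y).IsInvertible := ⟨eqv hC hyρ, rfl⟩
  have h1 := ContMDiffAt.mpullback_vectorField_preimage hXat (hC.smt y hyρ) hinv (by simp)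
  have h2 := contMDiffAt_vectorSpace_iff_contDiffAt.1 h1
  refine (h2.congr_of_eventuallyEq ?_).contDiffWithinAt
  filter_upwards [Metric.isOpen_ball.mem_nhds hy] with y' hy'
  exact (inv_eq hC (Metric.ball_subset_ball hr hy') (X (ct p y'))).symm

end Pool.Agent.CR5.Man
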