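import Pool.Agent.Lib.CR5.I.Spec

/-!
# CR5, block I: the local theorem (assembly)
-/

open MeasureTheory Set Filter Topology
open scoped ENNReal ComplexConjugate Manifold ContDiff

noncomputable section

namespace Pool.Agent.CR5.Man

namespace Plx

theorem dil_apply (s : ℝ) (x : E5) (i : Fin 5) : dil s x i = (if i = 4 then s ^ 2 else s) * x i :=
  rfl

theorem dil_zero (s : ℝ) : dil s 0 = 0 := by
  ext i
  rw [dil_apply]
  simp

theorem contDiff_dil (s : ℝ) : ContDiff ℝ (⊤ : ℕ∞) (dil s) := by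
  rw [contDiff_euclidean]
  intro i
  simp only [dil_apply]
  exact contDiff_const.mul (contDiff_coord i)

theorem dil_inv {s : ℝ} (hs : s ≠ 0) (x : E5) : dil s (dil s⁻¹ x) = x := by
  ext i
  rw [dil_apply, dil_apply]
  split_ifs
  · rw [← mul_assoc, ← mul_pow, mul_inv_cancel₀ hs, one_pow, one_mul]
  · rw [← mul_assoc, mul_inv_cancel₀ hs, one_mul]

theorem norm_dil {s : ℝ} (hs : 0 < s) (hs1 : s ≤ 1) (x : E5) : ‖dil s x‖ ≤ s * ‖x‖ := by
  rw [EuclideanSpace.norm_eq, EuclideanSpace.norm_eq]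
  have h1 : s * √(∑ i, ‖x i‖ ^ 2) = √(s ^ 2 * ∑ i, ‖x i‖ ^ 2) := by
    rw [Real.sqrt_mul (sq_nonneg s), Real.sqrt_sq hs.le]
  rw [h1]
  refine Real.sqrt_le_sqrt ?_
  rw [Finset.mul_sum]
  refine Finset.sum_le_sum fun i _ => ?_
  rw [dil_apply, norm_mul, mul_pow]
  refine mul_le_mul_of_nonneg_right ?_ (by positivity)
  have h2 : ‖(if i = 4 then s ^ 2 else s : ℝ)‖ ≤ s := by
    split_ifs
    · rw [Real.norm_of_nonneg (by positivity)]
      nlinarith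
    · rw [Real.norm_of_nonneg hs.le]
  exact pow_le_pow_left₀ (norm_nonneg _) h2 2

end Plx

open Plx

theorem pPl (hGl : S_Gl) (hCd : S_Cd) (hQd : S_Qd) (hTs : S_Ts) (hTr : S_Tr) (hKp : S_Kp)
    (hEm : S_Em) : S_Pl := by
  intro hCORE V ζ θ ρ hV
  obtain ⟨q, hq, hq0, hT⟩ := hQd V ζ θ ρ hV
  obtain ⟨Ψ, Φ, hC⟩ := hCd ζ θ hV.nd q hq hq0
  obtain ⟨T, hTdef⟩ : ∃ T : E5 → ℝ, T = fun x => θ x + q fun k => ζ k x := ⟨_, rfl⟩
  rw [← hTdef] at hC
  obtain ⟨hT1, hT2, hT3⟩ := hT (fun x => (T x : ℂ)) (by rw [hTdef])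
  have hTsm : ContDiff ℝ (⊤ : ℕ∞) T := by
    rw [hTdef]
    exact θ.contDiff.add (hq.comp (contDiff_pi.2 fun k => (ζ k).contDiff))
  obtain ⟨g1, g2, g3, g4, g5⟩ := hTs V ζ θ ρ hV T hTsm hT1 hT2 hT3 Ψ Φ hC
  have hΦ0 : Φ 0 = 0 := by
    have h1 := hC.left 0
    rwa [hC.zero] at h1
  obtain ⟨ε, hε, hcore⟩ := hCORE
  obtain ⟨s0, hs0, hs1, hgl⟩ := hGl (fun j l y => vd (V j) (fun x => ζ l x) (Φ y))
    (fun j y => vd (V j) (fun x => (T x : ℂ)) (Φ y)) g1 g2 g3 g4 g5 (MM + 6) ε hε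
  -- the scale
  have hcont : ContinuousAt Φ 0 := hC.smΦ.continuous.continuousAt
  rw [Metric.continuousAt_iff] at hcont
  obtain ⟨δ, hδ, hδΦ⟩ := hcont ρ hV.pos
  obtain ⟨s, hs, hss0, hsδ⟩ : ∃ s : ℝ, 0 < s ∧ s ≤ s0 ∧ s < δ :=
    ⟨min s0 (δ / 2), lt_min hs0 (by linarith), min_le_left _ _,
      (min_le_right _ _).trans_lt (by linarith)⟩
  have hs1' : s ≤ 1 := hss0.trans hs1
  have hs' : s ≠ 0 := hs.ne'
  have hmem : ∀ y : E5, ‖y‖ < 7 / 8 → Φ (dil s y) ∈ Metric.ball (0 : E5) ρ := by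
    intro y hy
    have h1 : dist (dil s y) 0 < δ := by
      rw [dist_zero_right]
      calc ‖dil s y‖ ≤ s * ‖y‖ := norm_dil hs hs1' y
        _ ≤ s * 1 := by
            refine mul_le_mul_of_nonneg_left (by linarith) hs.le
        _ < δ := by linarith
    have h2 := hδΦ h1
    rwa [hΦ0] at h2
  obtain ⟨a, hnear, ha⟩ := hgl s hs hss0
  have hD : Dat V ζ ρ T Ψ Φ s a :=
    { spos := hs
      crd := hC
      smT := hTsm
      sma := hnear.sm
      mem := hmem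
      e0 := fun j y hy => (ha j y hy).1
      e1 := fun j y hy => (ha j y hy).2.1
      e2 := fun j y hy => (ha j y hy).2.2 }
  obtain ⟨F, hF1, hF2, -, hF4⟩ := hcore a hnear
    (fun l x hx => hKp V ζ θ ρ hV T Ψ Φ s a hD l x (by linarith))
  have hΨsm : ContDiff ℝ (⊤ : ℕ∞) fun x => dil s⁻¹ (Ψ x) := (contDiff_dil s⁻¹).comp hC.smΨ
  have hΨ0 : dil s⁻¹ (Ψ 0) = 0 := by rw [hC.zero, dil_zero]
  -- the radius
  have hcΨ : ContinuousAt (fun x => dil s⁻¹ (Ψ x)) 0 := hΨsm.continuous.continuousAt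
  rw [Metric.continuousAt_iff] at hcΨ
  obtain ⟨r1, hr1, hr1Ψ⟩ := hcΨ (1 / 8) (by norm_num)
  obtain ⟨r, hr, hrρ, hrr1⟩ : ∃ r : ℝ, 0 < r ∧ r ≤ ρ ∧ r ≤ r1 :=
    ⟨min ρ r1, lt_min hV.pos hr1, min_le_left _ _, min_le_right _ _⟩
  have hΨr : ∀ x ∈ Metric.ball (0 : E5) r, ‖dil s⁻¹ (Ψ x)‖ < 1 / 8 := by
    intro x hx
    have h1 : dist x 0 < r1 := (Metric.mem_ball.1 hx).trans_le hrr1
    have h2 := hr1Ψ h1
    rwa [hΨ0, dist_zero_right] at h2
  have hFd : ∀ (k : Fin 3) (y : E5), ‖y‖ < 1 / 8 → DifferentiableAt ℝ (F k) y := by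
    intro k y hy
    refine ((hF1 k).differentiableOn (by simp)).differentiableAt (Metric.isOpen_ball.mem_nhds ?_)
    rwa [mem_ball_zero_iff]
  refine ⟨r, hrρ, fun k x => F k (dil s⁻¹ (Ψ x)), hr, ?_, ?_, ?_⟩
  · intro k
    refine (hF1 k).comp hΨsm.contDiffOn ?_
    intro x hx
    rw [mem_ball_zero_iff]
    exact hΨr x hx
  · intro j k x hx
    have h1 := hΨr x hx
    have h2 := hTr V ζ θ ρ hV T Ψ Φ s a hD j (F k) x (by linarith) (hFd k _ h1)
    rw [hF2 j k _ h1] at h2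
    rcases mul_eq_zero.1 h2 with h3 | h3
    · exact absurd (Complex.ofReal_eq_zero.1 h3) hs'
    · exact h3
  · -- the lower bound
    have hΦs : ContDiff ℝ (⊤ : ℕ∞) fun y => Φ (dil s y) := hC.smΦ.comp (contDiff_dil s)
    have hΦd : Differentiable ℝ fun y => Φ (dil s y) := hΦs.differentiable (by simp)
    have hfc : Continuous (fderiv ℝ fun y => Φ (dil s y)) := hΦs.continuous_fderiv (by simp)
    obtain ⟨K, hK⟩ := (isCompact_closedBall (0 : E5) (1 / 8)).exists_bound_of_continuousOn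
      hfc.continuousOn
    have hK' : ∀ y ∈ Metric.closedBall (0 : E5) (1 / 8),
        ‖fderiv ℝ (fun y => Φ (dil s y)) y‖ ≤ |K| + 1 := fun y hy =>
      (hK y hy).trans (by linarith [le_abs_self K])
    have hLip : ∀ u v : E5, ‖u‖ ≤ 1 / 8 → ‖v‖ ≤ 1 / 8 →
        ‖Φ (dil s u) - Φ (dil s v)‖ ≤ (|K| + 1) * ‖u - v‖ := by
      intro u v hu hv
      exact (convex_closedBall (0 : E5) (1 / 8)).norm_image_sub_le_of_norm_fderiv_le
        (fun y _ => hΦd y) hK' (by rwa [mem_closedBall_zero_iff]) (by rwa [mem_closedBall_zero_iff])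
    have hKp : 0 < |K| + 1 := by positivity
    refine ⟨1 / 4 * (1 / (|K| + 1)), by positivity, ?_⟩
    intro x hx y hy
    have h1 := hΨr x hx
    have h2 := hΨr y hy
    have h3 := hEm F hF1 hF4 _ _ h1 h2
    have h4 := hLip _ _ h1.le h2.le
    rw [dil_inv hs', dil_inv hs', hC.left, hC.left] at h4
    refine le_trans ?_ h3
    rw [mul_assoc]
    refine mul_le_mul_of_nonneg_left ?_ (by norm_num)
    rw [one_div, inv_mul_le_iff₀ hKp]
    exact h4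

end Pool.Agent.CR5.Man
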