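import Pool.Agent.Lib.CR5.I.Spec

/-!
# CR5, block I: the quadratic change of the last coordinate (`S_Qd`)
-/

open MeasureTheory Set Filter Topology
open scoped ENNReal ComplexConjugate Manifold ContDiff

noncomputable section

namespace Pool.Agent.CR5.Man

namespace QdAux

theorem vd_sm {u : VF} (hu : ∀ i, Sm (u i)) {f : E5 → ℂ} (hf : Sm f) : Sm (vd u f) :=
  Sm.sum _ fun i _ => (hu i).mul (hf.pd i)

theorem vd_add {u : VF} {f g : E5 → ℂ} (hf : Sm f) (hg : Sm g) (x : E5) :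
    vd u (fun y => f y + g y) x = vd u f x + vd u g x := by
  simp only [vd, pd_add hf hg, mul_add, Finset.sum_add_distrib]

theorem vd_cm {u : VF} {f : E5 → ℂ} (hf : Sm f) (c : ℂ) (x : E5) :
    vd u (fun y => c * f y) x = c * vd u f x := by
  simp only [vd, pd_const_mul hf, Finset.mul_sum]
  exact Finset.sum_congr rfl fun i _ => by ring

theorem vd_mul {u : VF} {f g : E5 → ℂ} (hf : Sm f) (hg : Sm g) (x : E5) :
    vd u (fun y => f y * g y) x = f x * vd u g x + vd u f x * g x := by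
  simp only [vd, pd_mul hf hg, Finset.mul_sum, Finset.sum_mul, ← Finset.sum_add_distrib]
  exact Finset.sum_congr rfl fun i _ => by ring

theorem vd_conj {u : VF} {f : E5 → ℂ} (hf : Sm f) (x : E5) :
    vd u (fun y => conj (f y)) x = conj (vd (vc u) f x) := by
  simp only [vd, vc, pd_conj hf, map_sum, map_mul, Complex.conj_conj]

theorem vc_vc (u : VF) : vc (vc u) = u := by
  funext i x
  simp [vc]

theorem vc_sm {u : VF} (hu : ∀ i, Sm (u i)) : ∀ i, Sm (vc u i) := fun i => (hu i).conj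

/-- second derivative at the origin -/
def D2 (u v : VF) (f : E5 → ℂ) : ℂ := vd u (vd v f) 0

theorem D2_add {u v : VF} (hv : ∀ i, Sm (v i)) {f g : E5 → ℂ} (hf : Sm f) (hg : Sm g) :
    D2 u v (fun y => f y + g y) = D2 u v f + D2 u v g := by
  unfold D2
  have : vd v (fun y => f y + g y) = fun x => vd v f x + vd v g x := funext (vd_add hf hg)
  rw [this, vd_add (vd_sm hv hf) (vd_sm hv hg)]

theorem D2_cm {u v : VF} (hv : ∀ i, Sm (v i)) {f : E5 → ℂ} (hf : Sm f) (c : ℂ) :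
    D2 u v (fun y => c * f y) = c * D2 u v f := by
  unfold D2
  have : vd v (fun y => c * f y) = fun x => c * vd v f x := funext (vd_cm hf c)
  rw [this, vd_cm (vd_sm hv hf)]

/-- product of two functions which vanish at the origin -/
theorem D2_mul {u v : VF} (hv : ∀ i, Sm (v i)) {f g : E5 → ℂ} (hf : Sm f) (hg : Sm g)
    (hf0 : f 0 = 0) (hg0 : g 0 = 0) :
    D2 u v (fun y => f y * g y) = vd u f 0 * vd v g 0 + vd v f 0 * vd u g 0 := by
  unfold D2
  have : vd v (fun y => f y * g y) = fun x => f x * vd v g x + vd v f x * g x :=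
    funext (vd_mul hf hg)
  rw [this, vd_add (hf.mul (vd_sm hv hg)) ((vd_sm hv hf).mul hg), vd_mul hf (vd_sm hv hg),
    vd_mul (vd_sm hv hf) hg, hf0, hg0]
  ring

theorem vd_mul0 {u : VF} {f g : E5 → ℂ} (hf : Sm f) (hg : Sm g)
    (hf0 : f 0 = 0) (hg0 : g 0 = 0) : vd u (fun y => f y * g y) 0 = 0 := by
  rw [vd_mul hf hg, hf0, hg0]; ring

/-- The quadratic function: `w a b` are coefficients. -/
def Qf (Z : Fin 2 → E5 → ℂ) (p r s : Fin 2 → Fin 2 → ℂ) (a b : Fin 2) : E5 → ℂ := fun x =>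
  (p a b * (conj (Z a x) * conj (Z b x)) + r a b * (Z a x * Z b x)) + s a b * (conj (Z a x) * Z b x)

theorem Qf_sm {Z : Fin 2 → E5 → ℂ} (hZ : ∀ a, Sm (Z a)) (p r s : Fin 2 → Fin 2 → ℂ)
    (a b : Fin 2) : Sm (Qf Z p r s a b) :=
  (((Sm.const _).mul ((hZ a).conj.mul (hZ b).conj)).add ((Sm.const _).mul ((hZ a).mul (hZ b)))).add
    ((Sm.const _).mul ((hZ a).conj.mul (hZ b)))

theorem vd_Qf {u : VF} {Z : Fin 2 → E5 → ℂ} (hZ : ∀ a, Sm (Z a)) (hZ0 : ∀ a, Z a 0 = 0)
    (p r s : Fin 2 → Fin 2 → ℂ) (a b : Fin 2) : vd u (Qf Z p r s a b) 0 = 0 := by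
  have hc : ∀ a, Sm fun x => conj (Z a x) := fun a => (hZ a).conj
  have hc0 : ∀ a, (fun x => conj (Z a x)) 0 = 0 := by intro a; simp [hZ0 a]
  unfold Qf
  rw [vd_add (((Sm.const _).mul ((hc a).mul (hc b))).add ((Sm.const _).mul ((hZ a).mul (hZ b))))
    ((Sm.const _).mul ((hc a).mul (hZ b))),
    vd_add ((Sm.const _).mul ((hc a).mul (hc b))) ((Sm.const _).mul ((hZ a).mul (hZ b))),
    vd_cm ((hc a).mul (hc b)), vd_cm ((hZ a).mul (hZ b)), vd_cm ((hc a).mul (hZ b)),
    vd_mul0 (hc a) (hc b) (hc0 a) (hc0 b), vd_mul0 (hZ a) (hZ b) (hZ0 a) (hZ0 b),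
    vd_mul0 (hc a) (hZ b) (hc0 a) (hZ0 b)]
  ring

theorem D2_Qf {u v : VF} (hv : ∀ i, Sm (v i)) {Z : Fin 2 → E5 → ℂ} (hZ : ∀ a, Sm (Z a))
    (hZ0 : ∀ a, Z a 0 = 0) (p r s : Fin 2 → Fin 2 → ℂ) (a b : Fin 2) :
    D2 u v (Qf Z p r s a b)
      = p a b * (vd u (fun x => conj (Z a x)) 0 * vd v (fun x => conj (Z b x)) 0
          + vd v (fun x => conj (Z a x)) 0 * vd u (fun x => conj (Z b x)) 0)
        + r a b * (vd u (Z a) 0 * vd v (Z b) 0 + vd v (Z a) 0 * vd u (Z b) 0)
        + s a b * (vd u (fun x => conj (Z a x)) 0 * vd v (Z b) 0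
          + vd v (fun x => conj (Z a x)) 0 * vd u (Z b) 0) := by
  have hc : ∀ a, Sm fun x => conj (Z a x) := fun a => (hZ a).conj
  have hc0 : ∀ a, (fun x => conj (Z a x)) 0 = 0 := by intro a; simp [hZ0 a]
  unfold Qf
  rw [D2_add hv (((Sm.const _).mul ((hc a).mul (hc b))).add
      ((Sm.const _).mul ((hZ a).mul (hZ b)))) ((Sm.const _).mul ((hc a).mul (hZ b))),
    D2_add hv ((Sm.const _).mul ((hc a).mul (hc b))) ((Sm.const _).mul ((hZ a).mul (hZ b))),
    D2_cm hv ((hc a).mul (hc b)), D2_cm hv ((hZ a).mul (hZ b)), D2_cm hv ((hc a).mul (hZ b)),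
    D2_mul hv (hc a) (hc b) (hc0 a) (hc0 b), D2_mul hv (hZ a) (hZ b) (hZ0 a) (hZ0 b),
    D2_mul hv (hc a) (hZ b) (hc0 a) (hZ0 b)]

end QdAux

open QdAux in
theorem pQd : S_Qd := by
  intro V ζ θ ρ hN
  have hV : ∀ j i, Sm (V j i) := hN.sm
  have hVc : ∀ j i, Sm (vc (V j) i) := fun j => vc_sm (hV j)
  set Z : Fin 2 → E5 → ℂ := fun k x => ζ k x with hZdef
  set th : E5 → ℂ := fun x => (θ x : ℂ) with hth
  have hZ : ∀ a, Sm (Z a) := fun a => (ζ a).contDiff
  have hths : Sm th := Sm.ofReal θ.contDiff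
  have hZ0 : ∀ a, Z a 0 = 0 := by intro a; simp [hZdef]
  have h0 : (0 : E5) ∈ Metric.ball (0 : E5) ρ := Metric.mem_ball_self hN.pos
  -- first derivatives at the origin
  have d1 : ∀ j k, vd (V j) (fun x => conj (Z k x)) 0 = if j = k then 1 else 0 :=
    fun j k => hN.dual j k 0 h0
  have d2 : ∀ j k, vd (V j) (Z k) 0 = 0 := hN.z0
  have d3 : ∀ j k, vd (vc (V j)) (fun x => conj (Z k x)) 0 = 0 := by
    intro j k
    rw [vd_conj (hZ k), vc_vc, d2, map_zero]
  have d4 : ∀ j k, vd (vc (V j)) (Z k) 0 = if j = k then 1 else 0 := by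
    intro j k
    have h := vd_conj (u := V j) (hZ k) 0
    rw [d1 j k] at h
    have h' := congrArg conj h
    rw [Complex.conj_conj] at h'
    rw [← h']
    split_ifs <;> simp
  -- coefficients
  set β : Fin 2 → Fin 2 → ℂ := fun j k => D2 (V k) (V j) th with hβ
  set α : Fin 2 → Fin 2 → ℂ := fun j k => D2 (vc (V k)) (V j) th with hα
  set h : Fin 2 → Fin 2 → ℂ := fun j k => (α j k + conj (α k j)) / 2 with hh
  have hβs : β 0 1 = β 1 0 := (hN.comm th hths 0 h0).symm
  have hherm : ∀ j k, conj (h j k) = h k j := by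
    intro j k
    simp only [hh, map_div₀, map_add, Complex.conj_conj, map_ofNat]
    ring
  have hthc : (fun y => conj (th y)) = th := by
    funext y
    simp [hth]
  have hlev : ∀ j k, α j k - conj (α k j) = if j = k then -2 * Complex.I else 0 := by
    intro j k
    have h1 := hN.levi k j
    have h2 : vd (vc (V k)) th = fun y => conj (vd (V k) th y) := by
      funext y
      have h3 := vd_conj (u := vc (V k)) hths y
      rw [vc_vc, hthc] at h3
      exact h3
    have h4 : vd (V j) (vd (vc (V k)) th) 0 = conj (α k j) := by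
      rw [h2, vd_conj (vd_sm (hV k) hths)]
      rfl
    have h5 : vd (vc (V k)) (vd (V j) th) 0 = α j k := rfl
    have h6 : Complex.I * (α j k - conj (α k j)) = if k = j then 2 else 0 := by
      rw [← h5, ← h4]
      exact h1
    have h7 : α j k - conj (α k j) = -Complex.I * (Complex.I * (α j k - conj (α k j))) := by
      rw [← mul_assoc, neg_mul, Complex.I_mul_I]
      ring
    rw [h7, h6]
    by_cases hjk : j = k
    · rw [if_pos hjk.symm, if_pos hjk]; ring
    · rw [if_neg (fun e => hjk e.symm), if_neg hjk]; ring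
  -- the function q
  set p : Fin 2 → Fin 2 → ℂ := fun a b => -(1 / 2) * β a b with hp
  set r : Fin 2 → Fin 2 → ℂ := fun a b => -(1 / 2) * conj (β a b) with hr
  set s : Fin 2 → Fin 2 → ℂ := fun a b => -h a b with hs
  refine ⟨fun z => -(∑ a, ∑ b, β a b * (conj (z a) * conj (z b))).re
    - (∑ a, ∑ b, h a b * (conj (z a) * z b)).re, ?_, by simp, ?_⟩
  · have hz : ∀ a, ContDiff ℝ (⊤ : ℕ∞) (fun z : Fin 2 → ℂ => z a) := fun a => contDiff_apply ℝ ℂ a
    have hc : ∀ a, ContDiff ℝ (⊤ : ℕ∞) (fun z : Fin 2 → ℂ => conj (z a)) :=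
      fun a => contDiff_conj.comp (hz a)
    have e1 : ContDiff ℝ (⊤ : ℕ∞) (fun z : Fin 2 → ℂ =>
        ∑ a, ∑ b, β a b * (conj (z a) * conj (z b))) :=
      ContDiff.sum fun a _ => ContDiff.sum fun b _ => contDiff_const.mul ((hc a).mul (hc b))
    have e2 : ContDiff ℝ (⊤ : ℕ∞) (fun z : Fin 2 → ℂ =>
        ∑ a, ∑ b, h a b * (conj (z a) * z b)) :=
      ContDiff.sum fun a _ => ContDiff.sum fun b _ => contDiff_const.mul ((hc a).mul (hz b))
    exact (Complex.reCLM.contDiff.comp e1).neg.sub (Complex.reCLM.contDiff.comp e2)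
  intro T hT
  have hT' : T = fun x => (((th x + Qf Z p r s 0 0 x) + Qf Z p r s 0 1 x) + Qf Z p r s 1 0 x)
      + Qf Z p r s 1 1 x := by
    rw [hT]
    funext x
    have hre : ∀ w : ℂ, ((w.re : ℝ) : ℂ) = (w + conj w) / 2 := by
      intro w
      rw [Complex.re_eq_add_conj]
    have c00 := hherm 0 0
    have c01 := hherm 0 1
    have c10 := hherm 1 0
    have c11 := hherm 1 1
    push_cast
    rw [hre, hre]
    simp only [Qf, hp, hr, hs, Fin.sum_univ_two, map_add, map_mul, Complex.conj_conj, c00, c01,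
      c10, c11]
    show th x + _ = _
    simp only [hZdef]
    ring
  have q00 := Qf_sm hZ p r s 0 0
  have q01 := Qf_sm hZ p r s 0 1
  have q10 := Qf_sm hZ p r s 1 0
  have q11 := Qf_sm hZ p r s 1 1
  have hD : ∀ u v : VF, (∀ i, Sm (v i)) → D2 u v T = D2 u v th + D2 u v (Qf Z p r s 0 0)
      + D2 u v (Qf Z p r s 0 1) + D2 u v (Qf Z p r s 1 0) + D2 u v (Qf Z p r s 1 1) := by
    intro u v hv
    rw [hT', D2_add hv (((hths.add q00).add q01).add q10) q11,
      D2_add hv ((hths.add q00).add q01) q10, D2_add hv (hths.add q00) q01, D2_add hv hths q00]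
  refine ⟨?_, ?_, ?_⟩
  · intro j
    rw [hT', vd_add (((hths.add q00).add q01).add q10) q11, vd_add ((hths.add q00).add q01) q10,
      vd_add (hths.add q00) q01, vd_add hths q00, vd_Qf hZ hZ0, vd_Qf hZ hZ0, vd_Qf hZ hZ0,
      vd_Qf hZ hZ0]
    have := hN.t0 j
    simpa using this
  · intro j k
    show D2 (V k) (V j) T = 0
    rw [hD _ _ (hV j)]
    simp only [D2_Qf (hV j) hZ hZ0, d1, d2]
    have e : D2 (V k) (V j) th = β j k := rfl
    rw [e]
    simp only [hp]
    fin_cases j <;> fin_cases k <;> simp <;>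
      first | ring1 | linear_combination (1 / 2 : ℂ) * hβs | linear_combination -(1 / 2 : ℂ) * hβs
  · intro j k
    show D2 (vc (V k)) (V j) T = _
    rw [hD _ _ (hV j)]
    simp only [D2_Qf (hV j) hZ hZ0, d1, d2, d3, d4]
    have e : D2 (vc (V k)) (V j) th = α j k := rfl
    rw [e]
    have l := hlev j k
    simp only [hs, hh]
    fin_cases j <;> fin_cases k <;> simp at l ⊢ <;> linear_combination (1 / 2 : ℂ) * l

end Pool.Agent.CR5.Man
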