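import Pool.Agent.Lib.CR5.I.Dl

/-!
# CR5, block I, Sa: dilations of functions which vanish at the origin
-/

set_option autoImplicit false

open MeasureTheory Set Filter Topology
open scoped ENNReal ComplexConjugate

noncomputable section

namespace Pool.Agent.CR5.Man

namespace Sax

open Dlx

/-- `sq i g`, `i ≤ m`, is bounded on the closed unit ball. -/
theorem bound {g : E5 → ℂ} (hg : Sm g) (m : ℕ) :
    ∃ M : ℝ, 0 < M ∧ ∀ i ≤ m, ∀ y : E5, ‖y‖ ≤ 1 → sq i g y ≤ M := by
  have hc : Continuous fun y => ∑ i ∈ Finset.range (m + 1), sq i g y :=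
    continuous_finsetSum _ fun i _ => sq_continuous i hg
  obtain ⟨M, hM⟩ := (isCompact_closedBall (0 : E5) 1).bddAbove_image hc.continuousOn
  refine ⟨|M| + 1, by positivity, fun i hi y hy => ?_⟩
  have h1 : ∑ i ∈ Finset.range (m + 1), sq i g y ≤ M :=
    hM ⟨y, by simpa using hy, rfl⟩
  have h2 : sq i g y ≤ ∑ i ∈ Finset.range (m + 1), sq i g y :=
    Finset.single_le_sum (f := fun i => sq i g y) (fun j _ => sq_nonneg' j g y)
      (Finset.mem_range.2 (by omega))
  have h3 := le_abs_self M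
  linarith

theorem norm_dil_le {s : ℝ} (hs : 0 < s) (hs1 : s ≤ 1) (x : E5) : ‖dil s x‖ ≤ s * ‖x‖ := by
  have h : ‖dil s x‖ ^ 2 ≤ (s * ‖x‖) ^ 2 := by
    rw [mul_pow, EuclideanSpace.real_norm_sq_eq, EuclideanSpace.real_norm_sq_eq, Finset.mul_sum]
    refine Finset.sum_le_sum fun i _ => ?_
    rw [dil_coord, mul_pow]
    exact mul_le_mul_of_nonneg_right
      (pow_le_pow_left₀ (sk_pos hs i).le (sk_le hs hs1 i) 2) (sq_nonneg _)
  exact le_of_sq_le_sq h (by positivity)

theorem small {G : E5 → ℝ} (hG : Continuous G) (h0 : G 0 = 0) {η : ℝ} (hη : 0 < η) :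
    ∃ δ > 0, ∀ y : E5, ‖y‖ < δ → G y < η := by
  have h := (hG.tendsto 0).eventually (gt_mem_nhds (show G 0 < η by rw [h0]; exact hη))
  obtain ⟨δ, hδ, h⟩ := Metric.eventually_nhds_iff.1 h
  exact ⟨δ, hδ, fun y hy => h (by simpa using hy)⟩

end Sax

open Dlx Sax

theorem pSa (hDl : S_Dl) : S_Sa := by
  intro g hg hg0 m η hη
  obtain ⟨M, hM, hb⟩ := bound hg m
  obtain ⟨δ, hδ, hd⟩ := small (sq_continuous 0 hg) (by rw [sq_zero', hg0]; simp) hη
  refine ⟨min 1 (min (δ / 2) (η / M)), by positivity, min_le_left _ _, ?_⟩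
  intro s hs hs0 x hx i hi
  have h1 : s ≤ 1 := hs0.trans (min_le_left _ _)
  have h2 : s ≤ δ / 2 := hs0.trans ((min_le_right _ _).trans (min_le_left _ _))
  have h3 : s ≤ η / M := hs0.trans ((min_le_right _ _).trans (min_le_right _ _))
  have h3' : s * M ≤ η := (le_div_iff₀ hM).1 h3
  have hn : ‖dil s x‖ ≤ s := (norm_dil_le hs h1 x).trans (by nlinarith)
  rcases Nat.eq_zero_or_pos i with h | h
  · subst h
    have := hd (dil s x) (by linarith)
    rw [sq_zero'] at this ⊢
    exact this.le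
  · have a1 := hDl i g 1 s hg hs h1 x
    simp only [one_mul, norm_one, one_pow] at a1
    have a2 := hb i hi (dil s x) (by linarith)
    have a3 : s ^ (2 * i) ≤ s := by
      have : s ^ (2 * i) ≤ s ^ 1 := pow_le_pow_of_le_one hs.le h1 (by omega)
      simpa using this
    have a4 := sq_nonneg' i g (dil s x)
    calc sq i (fun y => g (dil s y)) x ≤ s ^ (2 * i) * sq i g (dil s x) := a1
      _ ≤ s * M := mul_le_mul a3 a2 a4 hs.le
      _ ≤ η := h3'

end Pool.Agent.CR5.Man
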