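import Pool.Agent.Lib.CR5.I.Sa

/-!
# CR5, block I, Sb: dilations of functions which vanish to weighted order two
-/

set_option autoImplicit false

open MeasureTheory Set Filter Topology
open scoped ENNReal ComplexConjugate

noncomputable section

namespace Pool.Agent.CR5.Man

namespace Sbx

open Dlx Sax

theorem eq_sum (v : E5) : v = ∑ k : Fin 5, v k • e5 k := by
  ext i
  rw [WithLp.ofLp_sum, Finset.sum_apply]
  simp [e5]

theorem fderiv_sum (f : E5 → ℂ) (x v : E5) :
    fderiv ℝ f x v = ∑ k : Fin 5, (v k : ℂ) * pd k f x := by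
  conv_lhs => rw [eq_sum v]
  rw [map_sum]
  refine Finset.sum_congr rfl fun k _ => ?_
  rw [map_smul, Complex.real_smul]
  rfl

theorem abs_coord_le (y : E5) (k : Fin 5) : |y k| ≤ ‖y‖ := by
  have := EuclideanSpace.norm_eq y
  have h : |y k| ^ 2 ≤ ‖y‖ ^ 2 := by
    rw [EuclideanSpace.real_norm_sq_eq, sq_abs]
    exact Finset.single_le_sum (f := fun i => y i ^ 2) (fun i _ => sq_nonneg _) (Finset.mem_univ k)
  exact le_of_sq_le_sq h (norm_nonneg _)

/-- Mean value inequality along a segment. -/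
theorem mvt {b : E5 → ℂ} (hb : Sm b) (y : E5) (C : ℝ)
    (h : ∀ u : ℝ, 0 ≤ u → u ≤ 1 → ‖fderiv ℝ b (u • y) y‖ ≤ C) : ‖b y - b 0‖ ≤ C := by
  have hd : ∀ u : ℝ, HasDerivAt (fun u : ℝ => b (u • y)) (fderiv ℝ b (u • y) y) u := by
    intro u
    have h1 : HasDerivAt (fun u : ℝ => u • y) y u := by
      simpa using (hasDerivAt_id u).smul_const y
    exact (hb.diffAt (u • y)).hasFDerivAt.comp_hasDerivAt u h1
  have := norm_image_sub_le_of_norm_deriv_le_segment_01' (f := fun u : ℝ => b (u • y))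
    (f' := fun u => fderiv ℝ b (u • y) y) (C := C) (fun u _ => (hd u).hasDerivWithinAt)
    (fun u hu => h u hu.1 hu.2.le)
  simpa using this

end Sbx

open Dlx Sax Sbx

theorem pSb (hDl : S_Dl) : S_Sb := by
  intro b hb hb0 hpd m η hη
  obtain ⟨M, hM, hbd⟩ := bound hb (m + 1)
  -- the small functions
  set G : E5 → ℝ := fun y => ∑ k : Fin 4, sq 0 (pd k.castSucc b) y with hG
  have hGc : Continuous G := continuous_finsetSum _ fun k _ => sq_continuous 0 (hb.pd _)
  have hG0 : G 0 = 0 := by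
    rw [hG]
    refine Finset.sum_eq_zero fun k _ => ?_
    rw [sq_zero', hpd k.castSucc (by
      intro h
      have := congrArg Fin.val h
      simp at this
      omega)]
    simp
  obtain ⟨δ1, hδ1, hd1⟩ := small hGc hG0 (half_pos hη)
  set H : E5 → ℝ := fun y => ∑ k : Fin 4, ‖pd k.castSucc b y‖ with hH
  have hHc : Continuous H := continuous_finsetSum _ fun k _ => (hb.pd _).cont.norm
  have hH0 : H 0 = 0 := by
    rw [hH]
    refine Finset.sum_eq_zero fun k _ => ?_
    rw [hpd k.castSucc (by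
      intro h
      have := congrArg Fin.val h
      simp at this
      omega)]
    simp
  have hη' : 0 < Real.sqrt η := Real.sqrt_pos.2 hη
  obtain ⟨δ2, hδ2, hd2⟩ := small hHc hH0 (half_pos hη')
  have hsM : 0 < Real.sqrt M := Real.sqrt_pos.2 hM
  refine ⟨min 1 (min (min (δ1 / 2) (δ2 / 2)) (min (η / (2 * M)) (Real.sqrt η / (2 * Real.sqrt M)))),
    by positivity, min_le_left _ _, ?_⟩
  intro s hs hs0 x hx i hi
  have h1 : s ≤ 1 := hs0.trans (min_le_left _ _)
  have h2 : s ≤ δ1 / 2 := hs0.trans ((min_le_right _ _).trans ((min_le_left _ _).trans (min_le_left _ _)))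
  have h2' : s ≤ δ2 / 2 :=
    hs0.trans ((min_le_right _ _).trans ((min_le_left _ _).trans (min_le_right _ _)))
  have h3 : s ≤ η / (2 * M) :=
    hs0.trans ((min_le_right _ _).trans ((min_le_right _ _).trans (min_le_left _ _)))
  have h3' : s * (2 * M) ≤ η := (le_div_iff₀ (by positivity)).1 h3
  have h4 : s ≤ Real.sqrt η / (2 * Real.sqrt M) :=
    hs0.trans ((min_le_right _ _).trans ((min_le_right _ _).trans (min_le_right _ _)))
  have h4' : s * (2 * Real.sqrt M) ≤ Real.sqrt η := (le_div_iff₀ (by positivity)).1 h4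
  have hn : ‖dil s x‖ ≤ s := (norm_dil_le hs h1 x).trans (by nlinarith)
  have hs2 : s ^ 2 ≤ s := by nlinarith
  have hsC : (s : ℂ) ≠ 0 := by exact_mod_cast hs.ne'
  match i, hi with
  | 0, _ =>
    -- the mean value inequality
    rw [sq_zero']
    have key : ‖b (dil s x) - b 0‖ ≤ s * Real.sqrt η := by
      refine mvt hb (dil s x) _ fun u hu0 hu1 => ?_
      have hun : ‖u • dil s x‖ ≤ s := by
        rw [norm_smul, Real.norm_eq_abs, abs_of_nonneg hu0]
        have := norm_nonneg (dil s x)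
        nlinarith
      rw [fderiv_sum, Fin.sum_univ_castSucc]
      refine (norm_add_le _ _).trans ?_
      have a1 : ‖∑ k : Fin 4, ((dil s x k.castSucc : ℝ) : ℂ) * pd k.castSucc b (u • dil s x)‖
          ≤ s * H (u • dil s x) := by
        refine (norm_sum_le _ _).trans ?_
        rw [hH, Finset.mul_sum]
        refine Finset.sum_le_sum fun k _ => ?_
        rw [norm_mul, Complex.norm_real, Real.norm_eq_abs]
        exact mul_le_mul_of_nonneg_right ((abs_coord_le _ _).trans hn) (norm_nonneg _)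
      have a2 : ‖((dil s x (Fin.last 4) : ℝ) : ℂ) * pd (Fin.last 4) b (u • dil s x)‖
          ≤ s * (s * Real.sqrt M) := by
        rw [norm_mul, Complex.norm_real, Real.norm_eq_abs]
        have b1 : |dil s x (Fin.last 4)| ≤ s * s := by
          rw [dil_coord, abs_mul]
          have c1 : sk s (Fin.last 4) = s ^ 2 := rfl
          rw [c1, abs_of_nonneg (by positivity : (0 : ℝ) ≤ s ^ 2)]
          have c2 : |x (Fin.last 4)| ≤ 1 := (abs_coord_le _ _).trans hx
          nlinarith [sq_nonneg s]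
        have b2 : ‖pd (Fin.last 4) b (u • dil s x)‖ ≤ Real.sqrt M := by
          apply Real.le_sqrt_of_sq_le
          have c1 := hbd 1 (by omega) (u • dil s x) (by linarith)
          have c2 := sq_pd_le 0 b (Fin.last 4) (u • dil s x)
          rw [sq_zero'] at c2
          simp only [zero_add] at c2
          linarith
        calc |dil s x (Fin.last 4)| * ‖pd (Fin.last 4) b (u • dil s x)‖
            ≤ (s * s) * Real.sqrt M := mul_le_mul b1 b2 (norm_nonneg _) (by positivity)
          _ = s * (s * Real.sqrt M) := by ring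
      have a3 := hd2 (u • dil s x) (by linarith)
      nlinarith
    rw [hb0, sub_zero] at key
    have e1 : ‖((1 / s : ℝ) : ℂ) * b (dil s x)‖ ≤ Real.sqrt η := by
      rw [norm_mul, Complex.norm_real, Real.norm_eq_abs, abs_of_pos (by positivity)]
      rw [div_mul_eq_mul_div, one_mul, div_le_iff₀ hs]
      linarith
    calc ‖((1 / s : ℝ) : ℂ) * b (dil s x)‖ ^ 2 ≤ Real.sqrt η ^ 2 :=
          pow_le_pow_left₀ (norm_nonneg _) e1 2
      _ = η := Real.sq_sqrt hη.le
  | 1, _ =>
    have e1 : ∀ k : Fin 5, pd k (fun y => ((1 / s : ℝ) : ℂ) * b (dil s y)) x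
        = ((1 / s : ℝ) : ℂ) * ((sk s k : ℂ) * pd k b (dil s x)) := by
      intro k
      rw [pd_const_mul (sm_dil hb s), pd_dil hb]
    have e2 : sq 1 (fun y => ((1 / s : ℝ) : ℂ) * b (dil s y)) x
        = ∑ k : Fin 5, ‖((1 / s : ℝ) : ℂ) * ((sk s k : ℂ) * pd k b (dil s x))‖ ^ 2 := by
      rw [show (1 : ℕ) = 0 + 1 from rfl, sq_succ]
      refine Finset.sum_congr rfl fun k _ => ?_
      rw [sq_zero', ← e1 k]
    rw [e2, Fin.sum_univ_castSucc]
    have a1 : ∑ k : Fin 4, ‖((1 / s : ℝ) : ℂ) * ((sk s k.castSucc : ℂ) *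
        pd k.castSucc b (dil s x))‖ ^ 2 = G (dil s x) := by
      rw [hG]
      refine Finset.sum_congr rfl fun k _ => ?_
      rw [sq_zero']
      have c1 : sk s k.castSucc = s := by
        unfold sk
        rw [if_neg]
        intro h
        have := congrArg Fin.val h
        simp at this
        omega
      rw [c1, ← mul_assoc]
      have c2 : ((1 / s : ℝ) : ℂ) * (s : ℂ) = 1 := by
        push_cast; field_simp
      rw [c2, one_mul]
    have a2 : ‖((1 / s : ℝ) : ℂ) * ((sk s (Fin.last 4) : ℂ) *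
        pd (Fin.last 4) b (dil s x))‖ ^ 2 ≤ s * M := by
      have c1 : sk s (Fin.last 4) = s ^ 2 := rfl
      have c2 : ((1 / s : ℝ) : ℂ) * ((s ^ 2 : ℝ) : ℂ) = (s : ℂ) := by
        push_cast; field_simp
      rw [c1, ← mul_assoc, c2, norm_mul, mul_pow, Complex.norm_real, Real.norm_eq_abs, sq_abs]
      have c3 := hbd 1 (by omega) (dil s x) (by linarith)
      have c4 := sq_pd_le 0 b (Fin.last 4) (dil s x)
      rw [sq_zero'] at c4
      simp only [zero_add] at c4
      exact mul_le_mul hs2 (c4.trans c3) (by positivity) hs.le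
    have a3 := hd1 (dil s x) (by linarith)
    rw [a1]
    linarith
  | j + 2, hi =>
    have a1 := hDl (j + 2) b ((1 / s : ℝ) : ℂ) s hb hs h1 x
    refine a1.trans ?_
    have a2 := hbd (j + 2) (by omega) (dil s x) (by linarith)
    have a3 : ‖((1 / s : ℝ) : ℂ)‖ ^ 2 * s ^ (2 * (j + 2)) ≤ s := by
      rw [Complex.norm_real, Real.norm_eq_abs, sq_abs]
      have c1 : (1 / s) ^ 2 * s ^ (2 * (j + 2)) = s ^ (2 * j + 2) := by
        have : s ^ (2 * (j + 2)) = s ^ 2 * s ^ (2 * j + 2) := by rw [← pow_add]; congr 1; ring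
        rw [this]
        field_simp
      rw [c1]
      have : s ^ (2 * j + 2) ≤ s ^ 1 := pow_le_pow_of_le_one hs.le h1 (by omega)
      simpa using this
    have a4 := sq_nonneg' (j + 2) b (dil s x)
    calc ‖((1 / s : ℝ) : ℂ)‖ ^ 2 * s ^ (2 * (j + 2)) * sq (j + 2) b (dil s x)
        ≤ s * M := mul_le_mul a3 a2 a4 hs.le
      _ ≤ η := by nlinarith

end Pool.Agent.CR5.Man
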