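import Pool.Agent.Lib.CR5.I.Spec

/-!
# CR5, block I, module Se (helper44): sections of `K` and their brackets as complex fields on `M`
-/

set_option autoImplicit false

open MeasureTheory Set Filter Topology
open scoped ENNReal ComplexConjugate Manifold ContDiff

noncomputable section

namespace Pool.Agent.CR5.Man

namespace Sex

/-- real parts -/
def R (u : VF) (y : E5) : E5 := vre fun i => u i y

/-- imaginary parts -/
def J (u : VF) (y : E5) : E5 := vim fun i => u i y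

/-- minus the imaginary parts -/
def N (u : VF) (y : E5) : E5 := -J u y

theorem R_smooth {u : VF} {s : Set E5} (hu : ∀ i, ContDiffOn ℝ (⊤ : ℕ∞) (u i) s) :
    ContDiffOn ℝ (⊤ : ℕ∞) (R u) s := by
  rw [contDiffOn_euclidean]
  intro i
  exact Complex.reCLM.contDiff.comp_contDiffOn (hu i)

theorem J_smooth {u : VF} {s : Set E5} (hu : ∀ i, ContDiffOn ℝ (⊤ : ℕ∞) (u i) s) :
    ContDiffOn ℝ (⊤ : ℕ∞) (J u) s := by
  rw [contDiffOn_euclidean]
  intro i
  exact Complex.imCLM.contDiff.comp_contDiffOn (hu i)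

theorem N_smooth {u : VF} {s : Set E5} (hu : ∀ i, ContDiffOn ℝ (⊤ : ℕ∞) (u i) s) :
    ContDiffOn ℝ (⊤ : ℕ∞) (N u) s := (J_smooth hu).neg

theorem lb_N_right (A : E5 → E5) (v : VF) (y : E5) :
    VectorField.lieBracket ℝ A (N v) y = -VectorField.lieBracket ℝ A (J v) y := by
  have h : N v = fun y => -J v y := rfl
  rw [h]
  simp only [VectorField.lieBracket, fderiv_fun_neg, map_neg, neg_apply]
  abel

theorem lb_N_left (A : E5 → E5) (v : VF) (y : E5) :
    VectorField.lieBracket ℝ (N v) A y = -VectorField.lieBracket ℝ (J v) A y := by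
  have h : N v = fun y => -J v y := rfl
  rw [h]
  simp only [VectorField.lieBracket, fderiv_fun_neg, map_neg, neg_apply]
  abel

theorem R_vc (u : VF) : R (vc u) = R u := by
  funext y
  ext i
  show (conj (u i y)).re = (u i y).re
  rw [Complex.conj_re]

theorem J_vc (u : VF) : J (vc u) = N u := by
  funext y
  ext i
  show (conj (u i y)).im = -(u i y).im
  rw [Complex.conj_im]

end Sex

open Sex in
theorem pSe.{u} (h1 : S_Pb.{u}) (h2 : S_Vb) : S_Se.{u} := by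
  intro M _ _ _ p ρ r hc hr u v hu hv
  have hP := h1 M p ρ r hc hr
  have hVb : ∀ (u v : VF) (x : E5), (∀ i, DifferentiableAt ℝ (u i) x) →
      (∀ i, DifferentiableAt ℝ (v i) x) →
      vre (fun i => vbr u v i x) = VectorField.lieBracket ℝ (R u) (R v) x
        - VectorField.lieBracket ℝ (J u) (J v) x ∧
      vim (fun i => vbr u v i x) = VectorField.lieBracket ℝ (R u) (J v) x
        + VectorField.lieBracket ℝ (J u) (R v) x := h2
  let Z : CVF E5 M := fun q => (VectorField.mpullback 𝓘(ℝ, E5) 𝓘(ℝ, E5) (cs p) (R u) q,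
    VectorField.mpullback 𝓘(ℝ, E5) 𝓘(ℝ, E5) (cs p) (N u) q)
  let Z' : CVF E5 M := fun q => (VectorField.mpullback 𝓘(ℝ, E5) 𝓘(ℝ, E5) (cs p) (R v) q,
    VectorField.mpullback 𝓘(ℝ, E5) 𝓘(ℝ, E5) (cs p) (N v) q)
  have hdu : ∀ y ∈ Metric.ball (0 : E5) r, ∀ i, DifferentiableAt ℝ (u i) y := fun y hy i =>
    ((hu i).contDiffAt (Metric.isOpen_ball.mem_nhds hy)).differentiableAt (by simp)
  have hdv : ∀ y ∈ Metric.ball (0 : E5) r, ∀ i, DifferentiableAt ℝ (v i) y := fun y hy i =>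
    ((hv i).contDiffAt (Metric.isOpen_ball.mem_nhds hy)).differentiableAt (by simp)
  have hdc : ∀ y ∈ Metric.ball (0 : E5) r, ∀ i, DifferentiableAt ℝ (vc u i) y := fun y hy i =>
    (Complex.conjCLE.toContinuousLinearMap.differentiableAt (x := u i y)).comp y (hdu y hy i)
  refine ⟨Z, Z', ⟨(hP _ _ (R_smooth hu) (R_smooth hu)).1, (hP _ _ (N_smooth hu) (R_smooth hu)).1⟩,
    ⟨(hP _ _ (R_smooth hv) (R_smooth hu)).1, (hP _ _ (N_smooth hv) (R_smooth hu)).1⟩, ?_⟩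
  intro y hy
  refine ⟨?_, ?_, ?_, ?_⟩
  · refine Prod.ext ?_ ?_
    · exact ((hP _ _ (R_smooth hu) (R_smooth hu)).2 y hy).1
    · refine ((hP _ _ (N_smooth hu) (R_smooth hu)).2 y hy).1.trans ?_
      exact map_neg (dct p y) (J u y)
  · refine Prod.ext ?_ ?_
    · exact ((hP _ _ (R_smooth hv) (R_smooth hu)).2 y hy).1
    · refine ((hP _ _ (N_smooth hv) (R_smooth hu)).2 y hy).1.trans ?_
      exact map_neg (dct p y) (J v y)
  · obtain ⟨e1, e2⟩ := hVb u v y (hdu y hy) (hdv y hy)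
    have a1 := ((hP _ _ (R_smooth hu) (R_smooth hv)).2 y hy).2
    have a2 := ((hP _ _ (N_smooth hu) (N_smooth hv)).2 y hy).2
    have a3 := ((hP _ _ (R_smooth hu) (N_smooth hv)).2 y hy).2
    have a4 := ((hP _ _ (N_smooth hu) (R_smooth hv)).2 y hy).2
    refine Prod.ext ?_ ?_
    · show VectorField.mlieBracket 𝓘(ℝ, E5)
          (VectorField.mpullback 𝓘(ℝ, E5) 𝓘(ℝ, E5) (cs p) (R u))
          (VectorField.mpullback 𝓘(ℝ, E5) 𝓘(ℝ, E5) (cs p) (R v)) (ct p y)
        - VectorField.mlieBracket 𝓘(ℝ, E5)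
          (VectorField.mpullback 𝓘(ℝ, E5) 𝓘(ℝ, E5) (cs p) (N u))
          (VectorField.mpullback 𝓘(ℝ, E5) 𝓘(ℝ, E5) (cs p) (N v)) (ct p y)
        = dct p y (vre fun i => vbr u v i y)
      rw [a1, a2, ← map_sub, e1, lb_N_left, lb_N_right, neg_neg]
    · show VectorField.mlieBracket 𝓘(ℝ, E5)
          (VectorField.mpullback 𝓘(ℝ, E5) 𝓘(ℝ, E5) (cs p) (R u))
          (VectorField.mpullback 𝓘(ℝ, E5) 𝓘(ℝ, E5) (cs p) (N v)) (ct p y)
        + VectorField.mlieBracket 𝓘(ℝ, E5)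
          (VectorField.mpullback 𝓘(ℝ, E5) 𝓘(ℝ, E5) (cs p) (N u))
          (VectorField.mpullback 𝓘(ℝ, E5) 𝓘(ℝ, E5) (cs p) (R v)) (ct p y)
        = -dct p y (vim fun i => vbr u v i y)
      rw [a3, a4, ← map_add, ← map_neg, e2, lb_N_left, lb_N_right, neg_add]
  · obtain ⟨e1, e2⟩ := hVb (vc u) u y (hdc y hy) (hdu y hy)
    rw [R_vc, J_vc] at e1 e2
    have a1 := ((hP _ _ (R_smooth hu) (R_smooth hu)).2 y hy).2
    have a2 := ((hP _ _ (N_smooth hu) (J_smooth hu)).2 y hy).2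
    have a3 := ((hP _ _ (R_smooth hu) (J_smooth hu)).2 y hy).2
    have a4 := ((hP _ _ (N_smooth hu) (R_smooth hu)).2 y hy).2
    have hneg : (fun q : M => -VectorField.mpullback 𝓘(ℝ, E5) 𝓘(ℝ, E5) (cs p) (N u) q)
        = VectorField.mpullback 𝓘(ℝ, E5) 𝓘(ℝ, E5) (cs p) (J u) := by
      funext q
      rw [← VectorField.mpullback_neg_apply]
      congr 1
      funext z
      show -(-J u z) = J u z
      rw [neg_neg]
    refine Prod.ext ?_ ?_
    · show VectorField.mlieBracket 𝓘(ℝ, E5)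
          (VectorField.mpullback 𝓘(ℝ, E5) 𝓘(ℝ, E5) (cs p) (R u))
          (VectorField.mpullback 𝓘(ℝ, E5) 𝓘(ℝ, E5) (cs p) (R u)) (ct p y)
        - VectorField.mlieBracket 𝓘(ℝ, E5)
          (VectorField.mpullback 𝓘(ℝ, E5) 𝓘(ℝ, E5) (cs p) (N u))
          (fun q : M => -VectorField.mpullback 𝓘(ℝ, E5) 𝓘(ℝ, E5) (cs p) (N u) q) (ct p y)
        = dct p y (vre fun i => vbr (vc u) u i y)
      rw [hneg, a1, a2, ← map_sub, e1]
    · show VectorField.mlieBracket 𝓘(ℝ, E5)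
          (VectorField.mpullback 𝓘(ℝ, E5) 𝓘(ℝ, E5) (cs p) (R u))
          (fun q : M => -VectorField.mpullback 𝓘(ℝ, E5) 𝓘(ℝ, E5) (cs p) (N u) q) (ct p y)
        + VectorField.mlieBracket 𝓘(ℝ, E5)
          (VectorField.mpullback 𝓘(ℝ, E5) 𝓘(ℝ, E5) (cs p) (N u))
          (VectorField.mpullback 𝓘(ℝ, E5) 𝓘(ℝ, E5) (cs p) (R u)) (ct p y)
        = dct p y (vim fun i => vbr (vc u) u i y)
      rw [hneg, a3, a4, ← map_add, e2]

end Pool.Agent.CR5.Man
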