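import Pool.Agent.Lib.CR5.I.Spec
import Pool.Agent.Lib.CR5.Basic

/-!
# CR5, block I: the operators in the new coordinates
-/

set_option autoImplicit false

open MeasureTheory Set Filter Topology
open scoped ENNReal ComplexConjugate Manifold ContDiff

noncomputable section

namespace Pool.Agent.CR5.Man

namespace Trx

theorem dil_apply (s : ℝ) (x : E5) (i : Fin 5) :
    dil s x i = (if i = 4 then s ^ 2 else s) * x i := rfl

theorem dil_dil_inv {s : ℝ} (hs : 0 < s) (w : E5) : dil s (dil s⁻¹ w) = w := by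
  ext i
  rw [dil_apply, dil_apply]
  split_ifs
  · field_simp
  · field_simp

theorem zc_dil (s : ℝ) (l : Fin 2) (w : E5) : zc l (dil s w) = (s : ℂ) * zc l w := by
  fin_cases l <;> simp [zc, dil_apply] <;> ring

theorem dil_four (s : ℝ) (w : E5) : dil s w 4 = s ^ 2 * w 4 := by
  rw [dil_apply, if_pos rfl]

theorem contDiff_dil (s : ℝ) : ContDiff ℝ (⊤ : ℕ∞) (dil s) := by
  rw [contDiff_euclidean]
  intro i
  exact contDiff_const.mul (contDiff_coord i)

theorem vd_const_mul (u : VF) {g : E5 → ℂ} {x : E5} (hg : DifferentiableAt ℝ g x) (c : ℂ) :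
    vd u (fun y => c * g y) x = c * vd u g x := by
  simp only [vd, Finset.mul_sum]
  refine Finset.sum_congr rfl fun i _ => ?_
  have : pd i (fun y => c * g y) x = c * pd i g x := by
    simp only [pd]
    rw [fderiv_const_mul hg]
    simp
  rw [this]
  ring

end Trx

open Trx in
theorem pTr (hCn : S_Cn) : S_Tr := by
  intro V ζ θ ρ hN T Ψ Φ s a hD j f x hx hf
  have hs := hD.spos
  have hsc : (s : ℂ) ≠ 0 := by exact_mod_cast hs.ne'
  have hxe : Φ (dil s (dil s⁻¹ (Ψ x))) = x := by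
    rw [dil_dil_inv hs, hD.crd.left]
  have hxb : x ∈ Metric.ball (0 : E5) ρ := by
    have := hD.mem _ hx
    rwa [hxe] at this
  have hdΨ : DifferentiableAt ℝ (fun y => dil s⁻¹ (Ψ y)) x :=
    (((contDiff_dil s⁻¹).comp hD.crd.smΨ).differentiable (by simp)) x
  have key := hCn (V j) (fun y => dil s⁻¹ (Ψ y)) f x hdΨ hf
  have hz : ∀ l, (fun y => zc l (dil s⁻¹ (Ψ y))) = fun y => ((s⁻¹ : ℝ) : ℂ) * ζ l y := by
    intro l
    funext y
    rw [zc_dil, hD.crd.zz]
  have hzb : ∀ l, (fun y => conj (zc l (dil s⁻¹ (Ψ y))))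
      = fun y => ((s⁻¹ : ℝ) : ℂ) * conj (ζ l y) := by
    intro l
    funext y
    rw [zc_dil, hD.crd.zz, map_mul, Complex.conj_ofReal]
  have hT : (fun y => ((dil s⁻¹ (Ψ y)) 4 : ℂ)) = fun y => (((s⁻¹ : ℝ) : ℂ) ^ 2) * (T y : ℂ) := by
    funext y
    rw [dil_four, hD.crd.tt]
    push_cast
    ring
  have dz1 : ∀ l, DifferentiableAt ℝ (fun y => ζ l y) x := fun l => (ζ l).differentiableAt
  have dz2 : ∀ l, DifferentiableAt ℝ (fun y => conj (ζ l y)) x := fun l =>
    ((contDiff_conj.comp (ζ l).contDiff).differentiable (by simp)) x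
  have dT : DifferentiableAt ℝ (fun y => (T y : ℂ)) x :=
    (Sm.ofReal hD.smT).diffAt x
  have k1 : ∀ l, vd (V j) (fun y => conj (zc l (dil s⁻¹ (Ψ y)))) x
      = ((s⁻¹ : ℝ) : ℂ) * (if j = l then 1 else 0) := by
    intro l
    rw [hzb, vd_const_mul _ (dz2 l), hN.dual j l x hxb]
  have k2 : ∀ l, vd (V j) (fun y => zc l (dil s⁻¹ (Ψ y))) x
      = ((s⁻¹ : ℝ) : ℂ) * vd (V j) (fun y => ζ l y) x := by
    intro l
    rw [hz, vd_const_mul _ (dz1 l)]
  have k3 : vd (V j) (fun y => ((dil s⁻¹ (Ψ y)) 4 : ℂ)) x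
      = (((s⁻¹ : ℝ) : ℂ) ^ 2) * vd (V j) (fun y => (T y : ℂ)) x := by
    rw [hT, vd_const_mul _ dT]
  have a0' := hD.e0 j _ hx
  have a1' := hD.e1 j _ hx
  have a2' := hD.e2 j _ hx
  rw [hxe] at a0' a1' a2'
  rw [key]
  simp only [k1, k2, k3, Fin.sum_univ_two]
  simp only [L, Fin.sum_univ_three]
  rw [a0', a1', a2', dz_two]
  have hj : j = 0 ∨ j = 1 := by fin_cases j <;> simp
  have e0 : (0 : Fin 2).castSucc = (0 : Fin 3) := rfl
  have e1 : (1 : Fin 2).castSucc = (1 : Fin 3) := rfl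
  rw [e0, e1, Complex.ofReal_inv]
  rcases hj with rfl | rfl
  · rw [if_pos rfl, if_neg (by decide), e0]
    field_simp
    ring
  · rw [if_pos rfl, if_neg (by decide), e1]
    field_simp
    ring

end Pool.Agent.CR5.Man
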