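import Pool.Agent.Lib.CR5.I.Spec
import Pool.Agent.Lib.CR5.B.Geo

/-!
# CR5, block I: the first order part of the structure in the new coordinates
-/

set_option autoImplicit false

open MeasureTheory Set Filter Topology
open scoped ENNReal ComplexConjugate Manifold ContDiff

noncomputable section

namespace Pool.Agent.CR5.Man

namespace Tsx

theorem sm_vd {u : VF} (hu : ∀ i, Sm (u i)) {f : E5 → ℂ} (hf : Sm f) : Sm (vd u f) :=
  Sm.sum _ fun i _ => (hu i).mul (hf.pd i)

theorem sm_comp {f : E5 → ℂ} (hf : Sm f) {Φ : E5 → E5} (hΦ : ContDiff ℝ (⊤ : ℕ∞) Φ) :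
    Sm fun y => f (Φ y) := ContDiff.comp (g := f) (f := Φ) hf hΦ

theorem vd_vc (u : VF) {f : E5 → ℂ} (hf : Sm f) (x : E5) :
    vd (vc u) (fun y => conj (f y)) x = conj (vd u f x) := by
  unfold vd vc
  rw [map_sum]
  exact Finset.sum_congr rfl fun i _ => by rw [pd_conj hf, map_mul]

theorem vd_vc' (u : VF) {f : E5 → ℂ} (hf : Sm f) (x : E5) :
    vd (vc u) f x = conj (vd u (fun y => conj (f y)) x) := by
  rw [← vd_vc u hf.conj]
  simp only [Complex.conj_conj]

theorem sm_lin (ζ : E5 →L[ℝ] ℂ) : Sm fun y => ζ y := ζ.contDiff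

theorem pd_of (f g : E5 → ℂ) (x : E5)
    (hz : ∀ k : Fin 2, dz k.castSucc f x = dz k.castSucc g x)
    (hb : ∀ k : Fin 2, db k.castSucc f x = db k.castSucc g x) (i : Fin 5) (hi : i ≠ 4) :
    pd i f x = pd i g x := by
  have z0 : (pd 0 f x - Complex.I * pd 1 f x) / 2 = (pd 0 g x - Complex.I * pd 1 g x) / 2 := by
    rw [← dz_zero, ← dz_zero]; exact hz 0
  have b0 : (pd 0 f x + Complex.I * pd 1 f x) / 2 = (pd 0 g x + Complex.I * pd 1 g x) / 2 := by
    rw [← db_zero, ← db_zero]; exact hb 0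
  have z1 : (pd 2 f x - Complex.I * pd 3 f x) / 2 = (pd 2 g x - Complex.I * pd 3 g x) / 2 := by
    rw [← dz_one, ← dz_one]; exact hz 1
  have b1 : (pd 2 f x + Complex.I * pd 3 f x) / 2 = (pd 2 g x + Complex.I * pd 3 g x) / 2 := by
    rw [← db_one, ← db_one]; exact hb 1
  have hI : ∀ w w' : ℂ, Complex.I * w = Complex.I * w' → w = w' := fun w w' h =>
    mul_left_cancel₀ Complex.I_ne_zero h
  fin_cases i
  · show pd 0 f x = pd 0 g x
    linear_combination z0 + b0
  · show pd 1 f x = pd 1 g x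
    apply hI
    linear_combination b0 - z0
  · show pd 2 f x = pd 2 g x
    linear_combination z1 + b1
  · show pd 3 f x = pd 3 g x
    apply hI
    linear_combination b1 - z1
  · exact absurd rfl hi

theorem a0_fun (j : Fin 2) : a0 j 2 = fun x => -Complex.I * zc j x := by
  funext x; simp [a0]

end Tsx

open Tsx in
theorem pTs (hCn : S_Cn) : S_Ts := by
  intro V ζ θ ρ hV T hT h1 h2 h3 Ψ Φ hc
  have hΦ0 : Φ 0 = 0 := by
    have := hc.left 0
    rwa [hc.zero] at this
  have sT : Sm fun x => (T x : ℂ) := Sm.ofReal hT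
  have sζ : ∀ l, Sm fun x => ζ l x := fun l => sm_lin (ζ l)
  have sP : ∀ j, Sm fun y => vd (V j) (fun x => (T x : ℂ)) (Φ y) := fun j =>
    sm_comp (sm_vd (hV.sm j) sT) hc.smΦ
  refine ⟨fun j l => sm_comp (sm_vd (hV.sm j) (sζ l)) hc.smΦ, sP, ?_, ?_, ?_⟩
  · intro j l
    rw [hΦ0]
    exact hV.z0 j l
  · intro j
    rw [hΦ0]
    exact h1 j
  · intro j i hi
    have h0 : (0 : E5) ∈ Metric.ball (0 : E5) ρ := Metric.mem_ball_self hV.pos
    have dΨ : DifferentiableAt ℝ Ψ 0 := (hc.smΨ.differentiable (by norm_num)) 0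
    have ePΨ : (fun y => (fun z => vd (V j) (fun x => (T x : ℂ)) (Φ z)) (Ψ y))
        = vd (V j) (fun x => (T x : ℂ)) := by
      funext y
      show vd (V j) (fun x => (T x : ℂ)) (Φ (Ψ y)) = _
      rw [hc.left]
    have dP : DifferentiableAt ℝ (fun y => vd (V j) (fun x => (T x : ℂ)) (Φ y)) (Ψ 0) :=
      (sP j).diffAt _
    have ez : ∀ l, (fun y => zc l (Ψ y)) = fun y => ζ l y := fun l => by
      funext y; exact hc.zz l y
    have ezb : ∀ l, (fun y => conj (zc l (Ψ y))) = fun y => conj (ζ l y) := fun l => by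
      funext y; rw [hc.zz l y]
    have et : (fun y => ((Ψ y 4 : ℝ) : ℂ)) = fun y => (T y : ℂ) := by
      funext y; rw [hc.tt y]
    -- the derivatives
    have hb : ∀ k : Fin 2,
        db k.castSucc (fun y => vd (V j) (fun x => (T x : ℂ)) (Φ y)) 0 = 0 := by
      intro k
      have h := hCn (V k) Ψ (fun y => vd (V j) (fun x => (T x : ℂ)) (Φ y)) 0 dΨ dP
      rw [ePΨ, h2 j k, hc.zero, et, h1 k, zero_mul, add_zero] at h
      simp only [ez, ezb] at h
      have e : ∀ l : Fin 2, (vd (V k) (fun y => conj (ζ l y)) 0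
            * db l.castSucc (fun y => vd (V j) (fun x => (T x : ℂ)) (Φ y)) 0
          + vd (V k) (fun y => ζ l y) 0
            * dz l.castSucc (fun y => vd (V j) (fun x => (T x : ℂ)) (Φ y)) 0)
          = if k = l then db l.castSucc (fun y => vd (V j) (fun x => (T x : ℂ)) (Φ y)) 0 else 0 := by
        intro l
        rw [hV.dual k l 0 h0, hV.z0 k l]
        by_cases hkl : k = l <;> simp [hkl]
      simp only [e] at h
      rw [Finset.sum_ite_eq Finset.univ k] at h
      simpa using h.symm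
    have hz : ∀ k : Fin 2,
        dz k.castSucc (fun y => vd (V j) (fun x => (T x : ℂ)) (Φ y)) 0
          = if j = k then -Complex.I else 0 := by
      intro k
      have h := hCn (vc (V k)) Ψ (fun y => vd (V j) (fun x => (T x : ℂ)) (Φ y)) 0 dΨ dP
      have eT : vd (vc (V k)) (fun y => (T y : ℂ)) 0 = 0 := by
        rw [vd_vc' _ sT]
        simp only [Complex.conj_ofReal]
        rw [h1 k, map_zero]
      rw [ePΨ, h3 j k, hc.zero, et, eT, zero_mul, add_zero] at h
      simp only [ez, ezb] at h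
      have e : ∀ l : Fin 2, (vd (vc (V k)) (fun y => conj (ζ l y)) 0
            * db l.castSucc (fun y => vd (V j) (fun x => (T x : ℂ)) (Φ y)) 0
          + vd (vc (V k)) (fun y => ζ l y) 0
            * dz l.castSucc (fun y => vd (V j) (fun x => (T x : ℂ)) (Φ y)) 0)
          = if k = l then dz l.castSucc (fun y => vd (V j) (fun x => (T x : ℂ)) (Φ y)) 0 else 0 := by
        intro l
        rw [vd_vc _ (sζ l), vd_vc' _ (sζ l), hV.dual k l 0 h0, hV.z0 k l, map_zero, zero_mul,
          zero_add]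
        by_cases hkl : k = l <;> simp [hkl]
      simp only [e] at h
      rw [Finset.sum_ite_eq Finset.univ k] at h
      simpa using h.symm
    refine pd_of _ _ 0 (fun k => ?_) (fun k => ?_) i hi
    · rw [hz k, a0_fun, dz_const_mul (Sm.zc j), geo_dz_zc]
      by_cases hjk : j = k
      · subst hjk
        simp
      · have : ¬ (Fin.castSucc k = Fin.castSucc j) := fun h => hjk (Fin.castSucc_injective _ h).symm
        simp [hjk, Ne.symm hjk]
    · rw [hb k, a0_fun, db_const_mul (Sm.zc j), geo_db_zc, mul_zero]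

end Pool.Agent.CR5.Man
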