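import Pool.Agent.Lib.CR5.I.Spec

/-!
# CR5, block I, module Vb (helper44): the bracket of complex fields and the Lie bracket
-/

set_option autoImplicit false

open MeasureTheory Set Filter Topology
open scoped ENNReal ComplexConjugate Manifold ContDiff

noncomputable section

namespace Pool.Agent.CR5.Man

namespace Vbx

theorem fderiv_eq (f : E5 → ℂ) (x w : E5) :
    fderiv ℝ f x w = ∑ k, (w k : ℂ) * pd k f x := by
  have h1 : w = ∑ k, w k • e5 k := by
    ext i
    simp [e5, Pi.single_apply]
  conv_lhs => rw [h1]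
  rw [map_sum]
  refine Finset.sum_congr rfl fun k _ => ?_
  rw [map_smul]
  show (w k : ℝ) • pd k f x = _
  rw [Complex.real_smul]

theorem vd_eq (u : VF) (f : E5 → ℂ) (x : E5) :
    vd u f x = fderiv ℝ f x (vre fun i => u i x)
      + Complex.I * fderiv ℝ f x (vim fun i => u i x) := by
  rw [fderiv_eq, fderiv_eq, Finset.mul_sum, ← Finset.sum_add_distrib]
  refine Finset.sum_congr rfl fun k _ => ?_
  show u k x * pd k f x = (((u k x).re : ℝ) : ℂ) * pd k f x
    + Complex.I * ((((u k x).im : ℝ) : ℂ) * pd k f x)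
  have h := Complex.re_add_im (u k x)
  linear_combination -(pd k f x) * h

theorem comp_i (W : E5 → E5) (x h : E5) (hW : DifferentiableAt ℝ W x) (i : Fin 5) :
    (fderiv ℝ W x h) i = fderiv ℝ (fun y => W y i) x h := by
  have h1 := ((EuclideanSpace.proj i : E5 →L[ℝ] ℝ).hasFDerivAt (x := W x)).comp x hW.hasFDerivAt
  have h2 : fderiv ℝ (fun y => W y i) x = (EuclideanSpace.proj i : E5 →L[ℝ] ℝ).comp (fderiv ℝ W x) :=
    h1.fderiv
  rw [h2]
  rfl

theorem dre (w : VF) (x : E5) (hw : ∀ i, DifferentiableAt ℝ (w i) x) :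
    DifferentiableAt ℝ (fun y => vre fun i => w i y) x := by
  rw [differentiableAt_euclidean]
  intro i
  exact Complex.reCLM.differentiableAt.comp x (hw i)

theorem dim (w : VF) (x : E5) (hw : ∀ i, DifferentiableAt ℝ (w i) x) :
    DifferentiableAt ℝ (fun y => vim fun i => w i y) x := by
  rw [differentiableAt_euclidean]
  intro i
  exact Complex.imCLM.differentiableAt.comp x (hw i)

theorem re_i (w : VF) (x h : E5) (hw : ∀ i, DifferentiableAt ℝ (w i) x) (i : Fin 5) :
    (fderiv ℝ (fun y => vre fun i => w i y) x h) i = (fderiv ℝ (w i) x h).re := by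
  rw [comp_i _ x h (dre w x hw) i]
  have h1 := (Complex.reCLM.hasFDerivAt (x := w i x)).comp x (hw i).hasFDerivAt
  have h2 : fderiv ℝ (fun y => (vre fun i => w i y) i) x = Complex.reCLM.comp (fderiv ℝ (w i) x) :=
    h1.fderiv
  rw [h2]
  rfl

theorem im_i (w : VF) (x h : E5) (hw : ∀ i, DifferentiableAt ℝ (w i) x) (i : Fin 5) :
    (fderiv ℝ (fun y => vim fun i => w i y) x h) i = (fderiv ℝ (w i) x h).im := by
  rw [comp_i _ x h (dim w x hw) i]
  have h1 := (Complex.imCLM.hasFDerivAt (x := w i x)).comp x (hw i).hasFDerivAt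
  have h2 : fderiv ℝ (fun y => (vim fun i => w i y) i) x = Complex.imCLM.comp (fderiv ℝ (w i) x) :=
    h1.fderiv
  rw [h2]
  rfl

end Vbx

open Vbx in
theorem pVb : S_Vb := by
  intro u v x hu hv
  constructor
  · ext i
    show (vbr u v i x).re = _
    simp only [VectorField.lieBracket, PiLp.sub_apply, re_i u x _ hu, re_i v x _ hv,
      im_i u x _ hu, im_i v x _ hv]
    simp only [vbr, vd_eq, Complex.sub_re, Complex.add_re, Complex.mul_re, Complex.I_re,
      Complex.I_im]
    ring
  · ext i
    show (vbr u v i x).im = _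
    simp only [VectorField.lieBracket, PiLp.sub_apply, PiLp.add_apply, re_i u x _ hu,
      re_i v x _ hv, im_i u x _ hu, im_i v x _ hv]
    simp only [vbr, vd_eq, Complex.sub_im, Complex.add_im, Complex.mul_im, Complex.I_re,
      Complex.I_im]
    ring

end Pool.Agent.CR5.Man
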