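import Pool.Agent.Lib.CR5.I.Spec

/-!
# CR5, block I, Bs: linear coordinates dual to two vectors
-/

open MeasureTheory Set Filter Topology
open scoped ENNReal ComplexConjugate Manifold ContDiff

noncomputable section

namespace Pool.Agent.CR5.Man

namespace Bsx

/-- the five vectors -/
def fam (w : Fin 2 → Fin 5 → ℂ) (τ : Fin 5 → ℂ) : Fin 5 → (Fin 5 → ℂ) :=
  ![w 0, w 1, fun i => conj (w 0 i), fun i => conj (w 1 i), τ]

theorem li (w : Fin 2 → Fin 5 → ℂ) (θ : Fin 5 → ℝ) (τ : Fin 5 → ℂ)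
    (hi : ∀ α β : Fin 2 → ℂ, (∀ i, ∑ j, (α j * w j i + β j * conj (w j i)) = 0) → α = 0 ∧ β = 0)
    (hw : ∀ j, ∑ i, (θ i : ℂ) * w j i = 0) (hτ : ∑ i, (θ i : ℂ) * τ i = 1) :
    LinearIndependent ℂ (fam w τ) := by
  rw [Fintype.linearIndependent_iff]
  intro g hg
  have h1 : ∀ i, g 0 * w 0 i + g 1 * w 1 i + g 2 * conj (w 0 i) + g 3 * conj (w 1 i) + g 4 * τ i
      = 0 := by
    intro i
    have h2 := congrFun hg i
    rw [Fin.sum_univ_five] at h2
    exact h2
  have hwc : ∀ j, ∑ i, (θ i : ℂ) * conj (w j i) = 0 := by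
    intro j
    have h2 := congrArg conj (hw j)
    rw [map_sum, map_zero] at h2
    rw [← h2]
    refine Finset.sum_congr rfl fun i _ => ?_
    rw [map_mul, Complex.conj_ofReal]
  have h4 : g 4 = 0 := by
    have h2 : ∑ i, (θ i : ℂ) * (g 0 * w 0 i + g 1 * w 1 i + g 2 * conj (w 0 i)
        + g 3 * conj (w 1 i) + g 4 * τ i) = 0 := by
      refine Finset.sum_eq_zero fun i _ => ?_
      rw [h1 i, mul_zero]
    have h3 : ∑ i, (θ i : ℂ) * (g 0 * w 0 i + g 1 * w 1 i + g 2 * conj (w 0 i)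
        + g 3 * conj (w 1 i) + g 4 * τ i)
        = g 0 * (∑ i, (θ i : ℂ) * w 0 i) + g 1 * (∑ i, (θ i : ℂ) * w 1 i)
          + g 2 * (∑ i, (θ i : ℂ) * conj (w 0 i)) + g 3 * (∑ i, (θ i : ℂ) * conj (w 1 i))
          + g 4 * (∑ i, (θ i : ℂ) * τ i) := by
      simp only [Finset.mul_sum, ← Finset.sum_add_distrib]
      refine Finset.sum_congr rfl fun i _ => ?_
      ring
    rw [h3, hw 0, hw 1, hwc 0, hwc 1, hτ] at h2
    simpa using h2
  have h5 := hi ![g 0, g 1] ![g 2, g 3] (by
    intro i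
    rw [Fin.sum_univ_two]
    show g 0 * w 0 i + g 2 * conj (w 0 i) + (g 1 * w 1 i + g 3 * conj (w 1 i)) = 0
    have h6 := h1 i
    rw [h4] at h6
    linear_combination h6)
  have a0 : g 0 = 0 := congrFun h5.1 0
  have a1 : g 1 = 0 := congrFun h5.1 1
  have b0 : g 2 = 0 := congrFun h5.2 0
  have b1 : g 3 = 0 := congrFun h5.2 1
  intro i
  fin_cases i
  · exact a0
  · exact a1
  · exact b0
  · exact b1
  · exact h4

end Bsx

open Bsx in
theorem pBs : S_Bs := by
  intro w θ hi hθ hw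
  obtain ⟨i0, hi0⟩ : ∃ i, θ i ≠ 0 := by
    by_contra hcon
    push Not at hcon
    exact hθ (funext hcon)
  obtain ⟨τ, hτ⟩ : ∃ τ : Fin 5 → ℂ, ∑ i, (θ i : ℂ) * τ i = 1 := by
    refine ⟨Pi.single i0 ((θ i0 : ℂ)⁻¹), ?_⟩
    rw [Finset.sum_eq_single i0]
    · rw [Pi.single_eq_same]
      exact mul_inv_cancel₀ (Complex.ofReal_ne_zero.2 hi0)
    · intro b _ hb
      rw [Pi.single_eq_of_ne hb, mul_zero]
    · intro h
      exact absurd (Finset.mem_univ i0) h
  have hli := li w θ τ hi hw hτ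
  have hcard : Fintype.card (Fin 5) = Module.finrank ℂ (Fin 5 → ℂ) := by simp
  let b := basisOfLinearIndependentOfCardEqFinrank hli hcard
  have hb : ∀ i, b i = fam w τ i := fun i => by
    show (basisOfLinearIndependentOfCardEqFinrank hli hcard) i = _
    rw [coe_basisOfLinearIndependentOfCardEqFinrank]
  have hbc : ∀ i j, b.coord i (fam w τ j) = if j = i then 1 else 0 := by
    intro i j
    rw [← hb j, Module.Basis.coord_apply, Module.Basis.repr_self, Finsupp.single_apply]
  let φ : Fin 2 → ((Fin 5 → ℂ) →ₗ[ℂ] ℂ) := fun k => b.coord (![2, 3] k)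
  have hφ : ∀ k (c : Fin 5 → ℂ), φ k c = ∑ i, c i * φ k (Pi.single i 1) := by
    intro k c
    have h1 : c = ∑ i, c i • (Pi.single i (1 : ℂ) : Fin 5 → ℂ) := by
      funext m
      rw [Finset.sum_apply]
      simp [Pi.single_apply]
    conv_lhs => rw [h1]
    rw [map_sum]
    refine Finset.sum_congr rfl fun i _ => ?_
    rw [map_smul, smul_eq_mul]
  let ζ : Fin 2 → E5 →L[ℝ] ℂ := fun k =>
    ∑ i, (EuclideanSpace.proj i : E5 →L[ℝ] ℝ).smulRight (φ k (Pi.single i 1))
  have hζx : ∀ k x, ζ k x = ∑ i, (x i : ℂ) * φ k (Pi.single i 1) := by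
    intro k x
    show (∑ i, (EuclideanSpace.proj i : E5 →L[ℝ] ℝ).smulRight (φ k (Pi.single i 1))) x = _
    rw [ContinuousLinearMap.sum_apply]
    refine Finset.sum_congr rfl fun i _ => ?_
    show (x i) • φ k (Pi.single i 1) = _
    rw [Complex.real_smul]
  have hζe : ∀ k i, ζ k (e5 i) = φ k (Pi.single i 1) := by
    intro k i
    rw [hζx, Finset.sum_eq_single i]
    · simp [e5]
    · intro m _ hm
      simp [e5, hm]
    · intro h
      exact absurd (Finset.mem_univ i) h
  refine ⟨ζ, ?_, ?_, ?_⟩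
  · intro j k
    have h1 : ∑ i, w j i * ζ k (e5 i) = φ k (w j) := by
      rw [hφ]
      exact Finset.sum_congr rfl fun i _ => by rw [hζe]
    rw [h1]
    have h2 : ∀ j k : Fin 2, φ k (w j) = 0 := by
      intro j k
      have h3 : ∀ j : Fin 2, w j = fam w τ (![0, 1] j) := by
        intro j
        fin_cases j <;> rfl
      show b.coord (![2, 3] k) (w j) = 0
      rw [h3, hbc]
      fin_cases j <;> fin_cases k <;> simp
    exact h2 j k
  · intro j k
    have h1 : ∑ i, w j i * conj (ζ k (e5 i)) = conj (φ k fun i => conj (w j i)) := by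
      rw [hφ, map_sum]
      refine Finset.sum_congr rfl fun i _ => ?_
      rw [map_mul, Complex.conj_conj, hζe]
    rw [h1]
    have h3 : ∀ j : Fin 2, (fun i => conj (w j i)) = fam w τ (![2, 3] j) := by
      intro j
      fin_cases j <;> rfl
    show conj (b.coord (![2, 3] k) fun i => conj (w j i)) = _
    rw [h3, hbc]
    fin_cases j <;> fin_cases k <;> simp
  · intro x hx hθx
    have h1 := b.sum_repr (fun i => (x i : ℂ))
    have g2 : b.repr (fun i => (x i : ℂ)) 2 = 0 := by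
      have h2 : φ 0 (fun i => (x i : ℂ)) = 0 := by
        rw [hφ, ← hζx]
        exact hx 0
      exact h2
    have g3 : b.repr (fun i => (x i : ℂ)) 3 = 0 := by
      have h2 : φ 1 (fun i => (x i : ℂ)) = 0 := by
        rw [hφ, ← hζx]
        exact hx 1
      exact h2
    obtain ⟨g, hg⟩ : ∃ g : Fin 5 → ℂ, g = fun i => b.repr (fun i => (x i : ℂ)) i := ⟨_, rfl⟩
    have hg2 : g 2 = 0 := by rw [hg]; exact g2
    have hg3 : g 3 = 0 := by rw [hg]; exact g3
    have h2 : ∀ i, g 0 * w 0 i + g 1 * w 1 i + g 4 * τ i = (x i : ℂ) := by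
      intro i
      have h3 := congrFun h1 i
      rw [Fin.sum_univ_five] at h3
      simp only [hb] at h3
      have h4 : g 0 * w 0 i + g 1 * w 1 i + g 2 * conj (w 0 i) + g 3 * conj (w 1 i)
          + g 4 * τ i = (x i : ℂ) := by
        rw [hg]
        exact h3
      rw [hg2, hg3] at h4
      linear_combination h4
    have g4 : g 4 = 0 := by
      have h3 : ∑ i, (θ i : ℂ) * (g 0 * w 0 i + g 1 * w 1 i + g 4 * τ i) = 0 := by
        have h4 : ((∑ i, θ i * x i : ℝ) : ℂ) = 0 := by rw [hθx, Complex.ofReal_zero]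
        rw [← h4, Complex.ofReal_sum]
        refine Finset.sum_congr rfl fun i _ => ?_
        rw [h2 i, Complex.ofReal_mul]
      have h4 : ∑ i, (θ i : ℂ) * (g 0 * w 0 i + g 1 * w 1 i + g 4 * τ i)
          = g 0 * (∑ i, (θ i : ℂ) * w 0 i) + g 1 * (∑ i, (θ i : ℂ) * w 1 i)
            + g 4 * (∑ i, (θ i : ℂ) * τ i) := by
        simp only [Finset.mul_sum, ← Finset.sum_add_distrib]
        refine Finset.sum_congr rfl fun i _ => ?_
        ring
      rw [h4, hw 0, hw 1, hτ] at h3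
      simpa using h3
    have h5 := hi ![g 0, g 1] ![-conj (g 0), -conj (g 1)] (by
      intro i
      rw [Fin.sum_univ_two]
      show g 0 * w 0 i + -conj (g 0) * conj (w 0 i)
        + (g 1 * w 1 i + -conj (g 1) * conj (w 1 i)) = 0
      have h6 := h2 i
      rw [g4] at h6
      have h7 := congrArg conj h6
      rw [map_add, map_add, map_mul, map_mul, Complex.conj_ofReal, zero_mul, map_zero] at h7
      linear_combination h6 - h7)
    have a0 : g 0 = 0 := congrFun h5.1 0
    have a1 : g 1 = 0 := congrFun h5.1 1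
    ext i
    have h6 := h2 i
    rw [a0, a1, g4] at h6
    have h7 : (x i : ℂ) = 0 := by rw [← h6]; ring
    exact Complex.ofReal_eq_zero.1 h7

end Pool.Agent.CR5.Man
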