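import Mathlib

/-!
# CR5, block I: CR structures on manifolds (helper58)

CR structures of hypersurface type, strong pseudoconvexity and local embeddability, as in the
statement of the problem.  `E` is the model space of the manifold `M`.
-/

open Set Topology
open scoped Manifold ContDiff

noncomputable section

namespace Pool.Agent.CR5.Man

variable (E : Type*) [NormedAddCommGroup E] [NormedSpace ℝ E]
  (M : Type*) [TopologicalSpace M] [ChartedSpace E M] [IsManifold 𝓘(ℝ, E) ∞ M]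

/-- The complexified tangent space `ℂ T_p M`; the pair `(X, Y)` stands for `X + i Y`. -/
abbrev CTan (p : M) : Type _ := TangentSpace 𝓘(ℝ, E) p × TangentSpace 𝓘(ℝ, E) p

/-- Complex vector fields `X + i Y` on `M`. -/
abbrev CVF : Type _ := (p : M) → CTan E M p

variable {E M}

/-- The complex conjugate `X - i Y` of `X + i Y`. -/
def cconj {p : M} (v : CTan E M p) : CTan E M p := (v.1, -v.2)

/-- The product `c (X + i Y)` for a complex number `c`. -/
def csmul {p : M} (c : ℂ) (v : CTan E M p) : CTan E M p :=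
  (c.re • v.1 - c.im • v.2, c.re • v.2 + c.im • v.1)

/-- The complex vector field `Z = X + i Y` is smooth on `U`. -/
def SmoothVF (Z : CVF E M) (U : Set M) : Prop :=
  ContMDiffOn 𝓘(ℝ, E) 𝓘(ℝ, E).tangent ∞
    (fun p => (⟨p, (Z p).1⟩ : TangentBundle 𝓘(ℝ, E) M)) U ∧
  ContMDiffOn 𝓘(ℝ, E) 𝓘(ℝ, E).tangent ∞
    (fun p => (⟨p, (Z p).2⟩ : TangentBundle 𝓘(ℝ, E) M)) U

/-- The Lie bracket of complex vector fields: for `Z = X + i Y` and `W = X' + i Y'` it is
`[X, X'] - [Y, Y'] + i ([X, Y'] + [Y, X'])`. -/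
def cbr (Z W : CVF E M) : CVF E M := fun p =>
  (VectorField.mlieBracket 𝓘(ℝ, E) (fun q => (Z q).1) (fun q => (W q).1) p
      - VectorField.mlieBracket 𝓘(ℝ, E) (fun q => (Z q).2) (fun q => (W q).2) p,
    VectorField.mlieBracket 𝓘(ℝ, E) (fun q => (Z q).1) (fun q => (W q).2) p
      + VectorField.mlieBracket 𝓘(ℝ, E) (fun q => (Z q).2) (fun q => (W q).1) p)

variable (E M)

/-- A CR structure with bundle `H = T^{1,0} M` of complex rank `n`. -/
structure CRStructure (n : ℕ) where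
  /-- the fibre `H_p` -/
  H : (p : M) → Submodule ℝ (CTan E M p)
  /-- `H_p` is a complex subspace -/
  smul_mem : ∀ (p : M) (c : ℂ) (v : CTan E M p), v ∈ H p → csmul c v ∈ H p
  /-- `H` is a smooth subbundle of complex rank `n` -/
  frame : ∀ p : M, ∃ U : Set M, IsOpen U ∧ p ∈ U ∧ ∃ Z : Fin n → CVF E M,
    (∀ j, SmoothVF (Z j) U) ∧ ∀ q ∈ U,
      (∀ v : CTan E M q, v ∈ H q ↔ ∃ c : Fin n → ℂ, v = ∑ j, csmul (c j) (Z j q)) ∧
      ∀ c : Fin n → ℂ, ∑ j, csmul (c j) (Z j q) = 0 → c = 0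
  /-- `H ∩ conj H = 0` -/
  disj : ∀ (p : M) (v : CTan E M p), v ∈ H p → cconj v ∈ H p → v = 0
  /-- the bracket of two sections of `H` is a section of `H` -/
  invol : ∀ U : Set M, IsOpen U → ∀ Z W : CVF E M, SmoothVF Z U → SmoothVF W U →
    (∀ q ∈ U, Z q ∈ H q) → (∀ q ∈ U, W q ∈ H q) → ∀ q ∈ U, cbr Z W q ∈ H q

variable {E M}

/-- The structure is strongly pseudoconvex: at every point `p` there is a real covector `θ` which
vanishes on `H_p ⊕ conj H_p` and for which the Levi form `(Z, Z) ↦ θ (i [Z, conj Z]_p)` is positive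
for all sections `Z` of `H` near `p` with `Z_p ≠ 0`. -/
def StronglyPseudoconvex {n : ℕ} (S : CRStructure E M n) : Prop :=
  ∀ p : M, ∃ θ : TangentSpace 𝓘(ℝ, E) p →ₗ[ℝ] ℝ, (∀ v ∈ S.H p, θ v.1 = 0 ∧ θ v.2 = 0) ∧
    ∀ U : Set M, IsOpen U → p ∈ U → ∀ Z : CVF E M, SmoothVF Z U → (∀ q ∈ U, Z q ∈ S.H q) →
      Z p ≠ 0 → 0 < θ (csmul Complex.I (cbr Z (fun q => cconj (Z q)) p)).1

/-- The differential of the complex valued function `f`. -/
def rder (f : M → ℂ) (q : M) : TangentSpace 𝓘(ℝ, E) q →L[ℝ] ℂ := mfderiv 𝓘(ℝ, E) 𝓘(ℝ, ℂ) f q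

/-- The derivative `v f = X f + i Y f` of the complex valued function `f` in the direction of the
complex tangent vector `v = X + i Y`. -/
def cder (f : M → ℂ) (q : M) (v : CTan E M q) : ℂ := rder f q v.1 + Complex.I * rder f q v.2

/-- `f` is a CR function on `U`: `conj Z f = 0` for all `Z` in `H`. -/
def IsCR {n : ℕ} (S : CRStructure E M n) (f : M → ℂ) (U : Set M) : Prop :=
  ∀ q ∈ U, ∀ v ∈ S.H q, cder f q (cconj v) = 0

/-- The structure is locally embeddable at `p`: on a neighbourhood `U` of `p` there is a smooth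
embedding into `ℂ^{n+1}` whose components are CR functions. -/
def LocEmb {n : ℕ} (S : CRStructure E M n) (p : M) : Prop :=
  ∃ U : Set M, IsOpen U ∧ p ∈ U ∧ ∃ F : M → (Fin (n + 1) → ℂ),
    ContMDiffOn 𝓘(ℝ, E) 𝓘(ℝ, Fin (n + 1) → ℂ) ∞ F U ∧
    IsEmbedding (U.restrict F) ∧
    (∀ q ∈ U, Function.Injective (mfderiv 𝓘(ℝ, E) 𝓘(ℝ, Fin (n + 1) → ℂ) F q)) ∧
    ∀ k, IsCR S (fun q => F q k) U

end Pool.Agent.CR5.Man
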