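import Pool.Agent.Lib.CR5.I.DefsM

/-!
# CR5, block I: local embeddability in terms of the component functions

The same notion as `LocEmb`, written with the component functions of the embedding.
-/

open Set Topology
open scoped Manifold ContDiff

noncomputable section

namespace Pool.Agent.CR5.Man

variable {E : Type*} [NormedAddCommGroup E] [NormedSpace ℝ E]
  {M : Type*} [TopologicalSpace M] [ChartedSpace E M]

variable (E) in
/-- The complex valued function `f` is smooth on `U`. -/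
def SmoothFn (f : M → ℂ) (U : Set M) : Prop := ContMDiffOn 𝓘(ℝ, E) 𝓘(ℝ, ℂ) ∞ f U

variable (E) in
/-- The functions `F 0, …, F (m - 1)` are the components of a smooth embedding of `U` into `ℂ^m`:
they are smooth on `U`, the map `(F 0, …, F (m - 1))` is a homeomorphism of `U` onto its image, and
at every point of `U` the only tangent vector killed by all the differentials is zero. -/
def EmbOn {m : ℕ} (F : Fin m → M → ℂ) (U : Set M) : Prop :=
  (∀ k, SmoothFn E (F k) U) ∧ IsEmbedding (fun (q : U) (k : Fin m) => F k q) ∧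
    ∀ q ∈ U, ∀ v : TangentSpace 𝓘(ℝ, E) q, (∀ k, rder (F k) q v = 0) → v = 0

/-- The structure is locally embeddable at `p`: on a neighbourhood `U` of `p` there is a smooth
embedding into `ℂ^{n+1}` whose components are CR functions. -/
def LocEmbC [IsManifold 𝓘(ℝ, E) ∞ M] {n : ℕ} (S : CRStructure E M n) (p : M) : Prop :=
  ∃ U : Set M, IsOpen U ∧ p ∈ U ∧ ∃ F : Fin (n + 1) → M → ℂ, EmbOn E F U ∧ ∀ k, IsCR S (F k) U

theorem locEmbC_of [IsManifold 𝓘(ℝ, E) ∞ M] {n : ℕ} {S : CRStructure E M n} {p : M}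
    (h : LocEmb S p) : LocEmbC S p := by
  obtain ⟨U, hU, hp, F, hF, hemb, hinj, hCR⟩ := h
  refine ⟨U, hU, hp, fun k q => F q k, ⟨?_, hemb, ?_⟩, hCR⟩
  · intro k
    exact contMDiffOn_pi_space.1 hF k
  · intro q hq v hv
    have hd : MDifferentiableAt 𝓘(ℝ, E) 𝓘(ℝ, Fin (n + 1) → ℂ) F q :=
      (hF.contMDiffAt (hU.mem_nhds hq)).mdifferentiableAt (by simp)
    have hk : ∀ k, (mfderiv 𝓘(ℝ, E) 𝓘(ℝ, Fin (n + 1) → ℂ) F q v : Fin (n + 1) → ℂ) k = 0 := by
      intro k
      have h1 : HasMFDerivAt 𝓘(ℝ, E) 𝓘(ℝ, ℂ) (fun q => F q k) q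
          ((ContinuousLinearMap.proj (R := ℝ) (φ := fun _ : Fin (n + 1) => ℂ) k).comp
            (mfderiv 𝓘(ℝ, E) 𝓘(ℝ, Fin (n + 1) → ℂ) F q)) :=
        (ContinuousLinearMap.proj (R := ℝ) (φ := fun _ : Fin (n + 1) => ℂ) k).hasMFDerivAt.comp q
          hd.hasMFDerivAt
      have h2 := hv k
      unfold rder at h2
      rw [h1.mfderiv] at h2
      exact h2
    apply hinj q hq
    rw [map_zero]
    funext k
    exact hk k

end Pool.Agent.CR5.Man
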