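import Pool.Agent.Lib.CR5.SpecI2

/-!
# CR5, block I: assembly of the normal form at a point (helper9)
-/

open MeasureTheory Set Filter Topology
open scoped ENNReal ComplexConjugate

noncomputable section

namespace Pool.Agent.CR5

namespace I2x

theorem mv_mv {S T : Matrix (Fin 5) (Fin 5) ℝ} (h : S * T = 1) (x : E5) : mv S (mv T x) = x := by
  have e : mv S * mv T = 1 := by
    unfold mv
    rw [← map_mul, h, map_one]
  calc mv S (mv T x) = (mv S * mv T) x := rfl
    _ = x := by rw [e]; rfl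

/-- Two by two systems. -/
theorem solve {A B : Fin 2 → Fin 2 → ℂ} (hBA : ∀ j k, ∑ m, B j m * A m k = if j = k then 1 else 0)
    {V : Fin 2 → ℂ} (h : ∀ j, ∑ k, A j k * V k = 0) (k : Fin 2) : V k = 0 := by
  have e : ∑ m, B k m * ∑ n, A m n * V n = V k := by
    have e1 : ∑ m, B k m * ∑ n, A m n * V n = ∑ n, (∑ m, B k m * A m n) * V n := by
      simp only [Fin.sum_univ_two]; ring
    rw [e1]
    simp only [hBA, ite_mul, one_mul, zero_mul, Finset.sum_ite_eq, Finset.mem_univ, if_true]
  rw [← e]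
  simp only [h, mul_zero, Finset.sum_const_zero]

end I2x

open I2x in
theorem pI2 (h1 : S_iRed) (h2 : S_iLG) (h3 : S_iChg) (h4 : S_iNa) (h5 : S_iNb) (h6 : S_iNk)
    (h7 : S_iNl) (h8 : S_iSh) (h9 : S_iShk) (h10 : S_iQd) : S_I2 := by
  intro U c hc
  obtain ⟨ρ, c', hLG, hball, hcc⟩ := h1 U c hc
  obtain ⟨P, Q, S, T, ρ', hPQ, hQP, hST, hTS, hLG', hmv, hstd, hlev⟩ := h2 ρ c' hLG
  obtain ⟨a, N, r, haS, hNs, hr, hrρ, hNM, hMN, haG, hN0, ha0⟩ := h4 ρ' _ hLG' hstd
  have hk := h6 ρ' _ a N r hLG' haS hNs hr hrρ hNM hMN haG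
  have hLevi : ∀ j k : Fin 2, db j.castSucc (fun y => conj (a k 2 y)) 0 - dz k.castSucc (a j 2) 0
      = if j = k then 2 * Complex.I else 0 := fun j k => by
    rw [h7 _ a N r hLG'.sm hstd haS hNs hr hNM haG hN0 ha0 j k, hlev j k]
  obtain ⟨q, hq, hq0, hb0, hbpd⟩ := h10 a haS ha0 (fun l => hk l 0 (by simpa using hr)) hLevi
  obtain ⟨s1, s2, s3, s4, s5, s6⟩ := h8 q a hq haS
  obtain ⟨-, g2, -, -⟩ := h3 P S T c' hST hTS hLG.sm
  have hm0 : shr (fun u => -q u) 0 = 0 := by simp [shr, hq0]
  obtain ⟨r₁, hr₁, hcont⟩ : ∃ r₁ > 0, ∀ y : E5, ‖y‖ < r₁ → ‖shr (fun u => -q u) y‖ < r := by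
    have h := Metric.continuousAt_iff.mp (s2.continuous.continuousAt (x := (0 : E5))) r hr
    obtain ⟨δ, hδ, h⟩ := h
    refine ⟨δ, hδ, fun y hy => ?_⟩
    have h' := h (x := y) (by simpa using hy)
    rwa [hm0, dist_zero_right] at h'
  refine ⟨shA q a, r₁, fun x => shr q (mv T x), fun y => mv S (shr (fun u => -q u) y), s5, hr₁,
    s1.comp (mv T).contDiff, (mv S).contDiff.comp s2, fun x => ?_, fun y => ?_, ?_, ?_, hb0, hbpd,
    ?_⟩
  · show mv S (shr (fun u => -q u) (shr q (mv T x))) = x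
    rw [s3, mv_mv hST]
  · show shr q (mv T (mv S (shr (fun u => -q u) y))) = y
    rw [mv_mv hTS, s4]
  · show shr q (mv T 0) = 0
    rw [map_zero]; simp [shr, hq0]
  · intro l y hy
    have h := h9 q a hq haS (shr (fun u => -q u) y) (fun l => hk l _ (hcont y hy)) l
    rwa [s4] at h
  · intro x hx
    have hx' : ‖shr q (mv T x)‖ < r₁ := hx
    set u := mv T x with hu
    have hur : ‖u‖ < r := by
      have h := hcont _ hx'
      rwa [s3] at h
    have hSu : mv S u = x := mv_mv hST x
    have hxρ : ‖x‖ < ρ := by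
      rw [← hSu]; exact hmv u (lt_of_lt_of_le hur hrρ)
    refine ⟨hball (by simpa using hxρ), fun g hg hL j => ?_⟩
    have hg' : DifferentiableAt ℝ g (shr q u) := hg
    have hL1 : ∀ j, L a j (fun y => g (shr q y)) u = 0 := fun j => by
      rw [← s6 g u hg' j]; exact hL j
    have hd : DifferentiableAt ℝ (fun y => g (shr q y)) u :=
      hg'.comp u (s1.differentiable (by simp) u)
    have hV : ∀ k, vf (chg P S T c' k) (fun y => g (shr q y)) u = 0 := by
      refine solve (A := fun j k => N j k u) (B := fun j k => Mc (chg P S T c') j k u)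
        (fun j k => hMN j k u hur) fun j => ?_
      have h := h5 _ a N u (fun j k => hNM j k u hur) (fun j l => haG j l u hur)
        (fun y => g (shr q y)) j
      rw [hL1 j] at h
      exact h.symm
    have hW : ∀ k, vf (c' k) (fun y => g (shr q (mv T y))) x = 0 := by
      refine solve (A := fun j k => P j k) (B := fun j k => Q j k) (fun j k => ?_) fun j => ?_
      · have := congrFun (congrFun hQP j) k
        rw [Matrix.mul_apply, Matrix.one_apply] at this
        exact this
      · have h := g2 _ u hd j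
        rw [hV j, hSu] at h
        exact h.symm
    rw [← hW j]
    show ∑ i, c j i x * pd i (fun y => g (shr q (mv T y))) x
      = ∑ i, c' j i x * pd i (fun y => g (shr q (mv T y))) x
    exact Finset.sum_congr rfl fun i _ => by rw [hcc j i x hxρ]

end Pool.Agent.CR5
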