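import Pool.Agent.Lib.CR5.I.Spec
import Pool.Agent.Lib.CR5.F.Sq

/-!
# CR5, block I: pointwise product rule
-/

noncomputable section

namespace Pool.Agent.CR5.Man

theorem pLb : S_Lb := fun n => ⟨4 ^ n, by positivity, fun _ _ hf hg x => sq_mul_le n hf hg x⟩

end Pool.Agent.CR5.Man
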