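import Pool.Agent.Lib.CR5.Iface
import Pool.Agent.Lib.CR5.I.DefsM

/-!
# CR5, block I (helper58): from the core theorem to manifolds

Part 1: the local theorem `S_LT` for normalised frames on a ball of `ℝ⁵`, from `S_CORE`.
Part 2: normal form of a CR structure on a ball of `ℝ⁵`.
Part 3: manifolds.  Complete proofs in the docstrings.  Statement `S_X` is proved by `theorem pX` in
`Pool/Agent/Lib/CR5/I/X.lean` (namespace `Pool.Agent.CR5.Man`); the statements which are used are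
hypotheses.
-/

open MeasureTheory Set Filter Topology
open scoped ENNReal ComplexConjugate Manifold ContDiff

noncomputable section

namespace Pool.Agent.CR5.Man

/-- Complex vector fields on `ℝ⁵`. -/
abbrev VF := Fin 5 → E5 → ℂ

/-- The derivative of `f` in the direction of the complex vector field `u`. -/
def vd (u : VF) (f : E5 → ℂ) : E5 → ℂ := fun x => ∑ i, u i x * pd i f x

/-- The conjugate field. -/
def vc (u : VF) : VF := fun i x => conj (u i x)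

/-- The Lie bracket of complex fields. -/
def vbr (u v : VF) : VF := fun i x => vd u (v i) x - vd v (u i) x

/-- The dilations `(s z, s² t)`. -/
def dil (s : ℝ) (x : E5) : E5 := WithLp.toLp 2 fun i => (if i = 4 then s ^ 2 else s) * x i

/-- **Normalised frames** on the ball of radius `ρ`: smooth fields `V 0`, `V 1` (a frame of `T^{0,1}`) and
linear functions `ζ 0`, `ζ 1` (complex), `θ` (real), which are coordinates of `ℝ⁵`, such that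
`V j (conj ζ k) = δ_jk`, the fields commute, and at `0`: `V j ζ k = 0`, `V j θ = 0`, and the Levi matrix is
`2 δ_jk`. -/
structure NFld (V : Fin 2 → VF) (ζ : Fin 2 → E5 →L[ℝ] ℂ) (θ : E5 →L[ℝ] ℝ) (ρ : ℝ) : Prop where
  pos : 0 < ρ
  sm : ∀ j i, Sm (V j i)
  nd : ∀ x : E5, (∀ k, ζ k x = 0) → θ x = 0 → x = 0
  dual : ∀ j k, ∀ x ∈ Metric.ball (0 : E5) ρ,
    vd (V j) (fun y => conj (ζ k y)) x = if j = k then 1 else 0
  comm : ∀ f : E5 → ℂ, Sm f → ∀ x ∈ Metric.ball (0 : E5) ρ,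
    vd (V 0) (vd (V 1) f) x = vd (V 1) (vd (V 0) f) x
  z0 : ∀ j k, vd (V j) (fun y => ζ k y) 0 = 0
  t0 : ∀ j, vd (V j) (fun y => (θ y : ℂ)) 0 = 0
  levi : ∀ j k, Complex.I * (vd (vc (V j)) (vd (V k) fun y => (θ y : ℂ)) 0
    - vd (V k) (vd (vc (V j)) fun y => (θ y : ℂ)) 0) = if j = k then 2 else 0

/-- `f` is an embedding of the ball of radius `r`, with components annihilated by the fields `V j`. -/
structure EmbV (V : Fin 2 → VF) (r : ℝ) (f : Fin 3 → E5 → ℂ) : Prop where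
  pos : 0 < r
  sm : ∀ k, ContDiffOn ℝ (⊤ : ℕ∞) (f k) (Metric.ball 0 r)
  ann : ∀ j k, ∀ x ∈ Metric.ball (0 : E5) r, vd (V j) (f k) x = 0
  emb : ∃ c > 0, ∀ x ∈ Metric.ball (0 : E5) r, ∀ y ∈ Metric.ball (0 : E5) r,
    c * ‖x - y‖ ≤ ∑ k, ‖f k x - f k y‖

/-- **The local theorem** (target of part 1). -/
def S_LT : Prop := ∀ (V : Fin 2 → VF) (ζ : Fin 2 → E5 →L[ℝ] ℂ) (θ : E5 →L[ℝ] ℝ) (ρ : ℝ),
  NFld V ζ θ ρ → ∃ r ≤ ρ, ∃ f : Fin 3 → E5 → ℂ, EmbV V r f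

/-! ### Part 1: the local theorem -/

/-- **Lb.** Pointwise product rule for `sq`.

Proof. Induction on `n` (for all `f, g`).  `n = 0`: `‖f g‖² = ‖f‖² ‖g‖²`.  Step: `pd k (f g) = pd k f * g + f * pd k g`
(`pd_mul`, as functions), `sq n (u + v) ≤ 2 (sq n u + sq n v)` for smooth `u, v` (induction, `pd_add`), the induction
hypothesis for `(pd k f, g)` and `(f, pd k g)`, the sum over `k`: `∑ k, sq i (pd k f) x = sq (i + 1) f x`; so
`C (n + 1) = 4 C n` works. -/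
def S_Lb : Prop := ∀ n : ℕ, ∃ C > 0, ∀ f g : E5 → ℂ, Sm f → Sm g → ∀ x,
  sq n (fun y => f y * g y) x ≤ C * ∑ i ∈ Finset.range (n + 1), sq i f x * sq (n - i) g x

/-- **Dl.** Dilations.

Proof. `dil s` is the restriction of a continuous linear map with `dil s (e5 k) = s_k • e5 k`, `s_k = s²` for `k = 4`,
`s_k = s` otherwise.  Chain rule: `pd k (fun y => c * g (dil s y)) = fun y => (c * s_k) * pd k g (dil s y)`.  Induction on
`n` for all `g, c`: `sq (n+1) (..) x = ∑ k, sq n (fun y => (c * s_k) * pd k g (dil s y)) x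
≤ ∑ k, ‖c‖² s_k² s^(2n) sq n (pd k g) (dil s x) ≤ ‖c‖² s^(2n+2) sq (n+1) g (dil s x)` (`s_k ≤ s`, `sq ≥ 0`). -/
def S_Dl : Prop := ∀ (n : ℕ) (g : E5 → ℂ) (c : ℂ) (s : ℝ), Sm g → 0 < s → s ≤ 1 → ∀ x,
  sq n (fun y => c * g (dil s y)) x ≤ ‖c‖ ^ 2 * s ^ (2 * n) * sq n g (dil s x)

/-- **Sa.** Dilations of functions which vanish at `0`.  (Uses `S_Dl`.)

Proof. `‖dil s x‖ ≤ s ‖x‖ ≤ s` for `s ≤ 1`, `‖x‖ ≤ 1`.  `sq i g` is continuous (smoothness), so bounded by `M` on the closed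
unit ball for all `i ≤ m`.  For `1 ≤ i ≤ m`: `S_Dl` with `c = 1`: `≤ s^(2i) M ≤ s² M ≤ η`.  For `i = 0`:
`‖g (dil s x)‖² ≤ η` by continuity of `g` at `0`. -/
def S_Sa : Prop := ∀ g : E5 → ℂ, Sm g → g 0 = 0 → ∀ (m : ℕ) (η : ℝ), 0 < η →
  ∃ s0 > 0, s0 ≤ 1 ∧ ∀ s, 0 < s → s ≤ s0 → ∀ x : E5, ‖x‖ ≤ 1 → ∀ i ≤ m,
    sq i (fun y => g (dil s y)) x ≤ η

/-- **Sb.** Dilations of functions which vanish to the second order (in the weighted sense) at `0`.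
(Uses `S_Dl`.)

Proof. `c = 1/s`.  `M` a bound of `sq i b`, `i ≤ m`, on the closed unit ball.  `i ≥ 2`: `S_Dl`: `≤ s^(-2) s^(2i) M ≤ s² M`.
`i = 1`: `pd k (fun y => (1/s) b (dil s y)) x = (s_k / s) pd k b (dil s x)`: for `k ≠ 4` it is `pd k b (dil s x)`, small by
continuity of `pd k b` at `0` where it vanishes; for `k = 4` it is `s pd 4 b (dil s x)`.  `i = 0`: let `y = dil s x`, so
`|y k| ≤ s` for `k ≠ 4` and `|y 4| ≤ s²`.  `u ↦ b (u • y)` has the derivative `∑ k, y k pd k b (u y)`, so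
`‖b y‖ = ‖b y - b 0‖ ≤ s ∑_{k ≠ 4} sup_{‖w‖ ≤ s} ‖pd k b w‖ + s² sup ‖pd 4 b‖`; divide by `s`. -/
def S_Sb : Prop := ∀ b : E5 → ℂ, Sm b → b 0 = 0 → (∀ i : Fin 5, i ≠ 4 → pd i b 0 = 0) →
  ∀ (m : ℕ) (η : ℝ), 0 < η → ∃ s0 > 0, s0 ≤ 1 ∧ ∀ s, 0 < s → s ≤ s0 → ∀ x : E5, ‖x‖ ≤ 1 →
    ∀ i ≤ m, sq i (fun y => ((1 / s : ℝ) : ℂ) * b (dil s y)) x ≤ η

/-- **Gl.** Gluing with the standard structure.  (Uses `S_Lb`, `S_Sa`, `S_Sb`.)

Proof. `χ` a smooth bump (`ContDiffBump` at `0` with radii `7/8`, `15/16`), complex valued: `χ = 1` for `‖x‖ ≤ 7/8`,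
`χ = 0` for `‖x‖ ≥ 15/16`.  `B` a bound of `sq i χ` for `i ≤ m` (compact support, continuity).
`a j l = a0 j l + χ * h j l` with `h j 0 = g j 0 ∘ dil s`, `h j 1 = g j 1 ∘ dil s`,
`h j 2 = (1/s) (P j - a0 j 2) ∘ dil s`; note `a0 j 2 (dil s x) = s * a0 j 2 x`.  So for `‖x‖ < 7/8`:
`a j 2 x = P j (dil s x) / s`.  For `‖x‖ ≤ 1`, `i ≤ m`: `S_Lb`: `sq i (χ h) x ≤ C ∑ sq q χ x * sq (i - q) h x
≤ C (m + 1) B η`, with `η` chosen such that this is `≤ ε²` (take the maximum of the constants `C` for `i ≤ m` and the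
minimum of the finitely many `s0`).  For `‖x‖ > 15/16` the function `χ h` vanishes near `x` and so do its `sq i`
(a function which is eventually `0` at `x` has `sq i f x = 0`, by induction).  `out`: `χ = 0`. -/
def S_Gl : Prop := ∀ (g : Fin 2 → Fin 2 → E5 → ℂ) (P : Fin 2 → E5 → ℂ),
  (∀ j l, Sm (g j l)) → (∀ j, Sm (P j)) → (∀ j l, g j l 0 = 0) → (∀ j, P j 0 = 0) →
  (∀ (j : Fin 2) (i : Fin 5), i ≠ 4 → pd i (P j) 0 = pd i (a0 j 2) 0) →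
  ∀ (m : ℕ) (ε : ℝ), 0 < ε → ∃ s0 > 0, s0 ≤ 1 ∧ ∀ s, 0 < s → s ≤ s0 →
    ∃ a : Str, Near a m ε ∧ ∀ (j : Fin 2) (x : E5), ‖x‖ < 7 / 8 →
      a j 0 x = g j 0 (dil s x) ∧ a j 1 x = g j 1 (dil s x) ∧
      a j 2 x = P j (dil s x) / (s : ℂ)

/-- **Cn.** Chain rule in complex coordinates.

Proof. Real chain rule: `pd i (f ∘ Ψ) x = ∑ k, pd i (Ψ_k) x * pd k f (Ψ x)` (`fderiv_comp`; `fderiv f y w = ∑ k, w k * pd k f y`),
and `∂_{x_l}`, `∂_{y_l}` expressed by `db`, `dz`: `pd (2l) = db l + dz l`, `pd (2l+1) = -i (db l - dz l)`; so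
`X_l pd (2l) f + Y_l pd (2l+1) f = (X_l - i Y_l) db l f + (X_l + i Y_l) dz l f` with `X_l = u Ψ_{2l}`, `Y_l = u Ψ_{2l+1}`,
and `u (zc l ∘ Ψ) = X_l + i Y_l`, `u (conj zc l ∘ Ψ) = X_l - i Y_l` (linearity of `pd` in the function; components of
a differentiable map are differentiable). -/
def S_Cn : Prop := ∀ (u : VF) (Ψ : E5 → E5) (f : E5 → ℂ) (x : E5), DifferentiableAt ℝ Ψ x →
  DifferentiableAt ℝ f (Ψ x) →
  vd u (fun y => f (Ψ y)) x =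
    (∑ l : Fin 2, (vd u (fun y => conj (zc l (Ψ y))) x * db l.castSucc f (Ψ x)
      + vd u (fun y => zc l (Ψ y)) x * dz l.castSucc f (Ψ x)))
    + vd u (fun y => (Ψ y 4 : ℂ)) x * pd 4 f (Ψ x)

/-- Global coordinates `Ψ` of `ℝ⁵` (inverse `Φ`) with the complex components `ζ l` and the real component
`T`. -/
structure Crd (Ψ Φ : E5 → E5) (ζ : Fin 2 → E5 →L[ℝ] ℂ) (T : E5 → ℝ) : Prop where
  smΨ : ContDiff ℝ (⊤ : ℕ∞) Ψ
  smΦ : ContDiff ℝ (⊤ : ℕ∞) Φ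
  left : ∀ x, Φ (Ψ x) = x
  right : ∀ y, Ψ (Φ y) = y
  zz : ∀ l x, zc l (Ψ x) = ζ l x
  tt : ∀ x, Ψ x 4 = T x
  zero : Ψ 0 = 0

/-- **Cd.** Existence of coordinates.

Proof. `Λ x = (Re ζ 0 x, Im ζ 0 x, Re ζ 1 x, Im ζ 1 x, θ x)` is linear and injective (hypothesis), so a continuous linear
equivalence (finite dimension).  `Ψ x = Λ x + q (ζ x) e5 4`, `Φ y = Λ⁻¹ (y - q (zc 0 y, zc 1 y) e5 4)`. -/
def S_Cd : Prop := ∀ (ζ : Fin 2 → E5 →L[ℝ] ℂ) (θ : E5 →L[ℝ] ℝ),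
  (∀ x : E5, (∀ k, ζ k x = 0) → θ x = 0 → x = 0) → ∀ q : (Fin 2 → ℂ) → ℝ,
  ContDiff ℝ (⊤ : ℕ∞) q → q 0 = 0 → ∃ Ψ Φ : E5 → E5, Crd Ψ Φ ζ fun x => θ x + q fun k => ζ k x

/-- **Qd.** The quadratic change of the last coordinate.

Proof. `β j k = vd (V k) (vd (V j) θ) 0`, symmetric by `comm` for `f = θ` at `x = 0`;
`α j k = vd (vc (V k)) (vd (V j) θ) 0`.  As `θ` is real, `vd (V k) (vd (vc (V j)) θ) 0 = conj (α j k)`
(`vd (vc u) (conj f) = conj (vd u f)` for smooth `f`, twice), so `levi` reads `i (α k j - conj (α j k)) = 2 δ_jk`.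
Let `h j k = (α j k + conj (α k j)) / 2` and
`q z = -Re (∑_{j,k} β j k conj (z j) conj (z k)) - Re (∑_{j,k} h j k conj (z j) z k)`; the second sum is real since `h` is
Hermitian.  `T = θ + q(ζ)`.  With `r j a = vd (V j) (ζ a)` (`r j a 0 = 0`) and `V j (conj ζ a) = δ_ja` on the ball:
`vd (V j) T = vd (V j) θ - ∑_b β j b conj ζ_b - ∑_{a,b} conj (β a b) r_ja ζ_b - ∑_b h j b ζ_b - ∑_{a,b} h a b conj ζ_a r_jb` on the ball
(`Re w = (w + conj w)/2`, `β` symmetric).  At `0`: `0`.  Apply `vd (V k)` at `0`: products of two factors which vanish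
at `0` give `0`; `V k (conj ζ b) = δ_kb`, `V k ζ_b = 0` at `0`: the result is `β j k - β j k = 0`.  Apply `vd (vc (V k))` at
`0`: `conj V_k ζ_b = conj (V_k (conj ζ_b)) = δ_kb`, `conj V_k (conj ζ_b) = conj (r k b 0) = 0`: the result is
`α j k - h j k = (α j k - conj (α k j)) / 2 = -i δ_jk` by `levi`. -/
def S_Qd : Prop := ∀ (V : Fin 2 → VF) (ζ : Fin 2 → E5 →L[ℝ] ℂ) (θ : E5 →L[ℝ] ℝ) (ρ : ℝ),
  NFld V ζ θ ρ → ∃ q : (Fin 2 → ℂ) → ℝ, ContDiff ℝ (⊤ : ℕ∞) q ∧ q 0 = 0 ∧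
    ∀ T : E5 → ℂ, T = (fun x => ((θ x + q fun k => ζ k x : ℝ) : ℂ)) →
      (∀ j, vd (V j) T 0 = 0) ∧ (∀ j k, vd (V k) (vd (V j) T) 0 = 0) ∧
      ∀ j k, vd (vc (V k)) (vd (V j) T) 0 = if j = k then -Complex.I else 0

/-- **Ts.** The first order part of the structure in the new coordinates.  (Uses `S_Cn`.)

Proof. `Φ 0 = 0`, so `P j 0 = vd (V j) T 0 = 0`, `g j l 0 = 0` (`z0`).  Smooth: compositions.  `P j ∘ Ψ = vd (V j) T`.
`S_Cn` for `u = V k`, `f = P j`, `x = 0`: the factors are `vd (V k) (conj ζ l) 0 = δ_kl`, `vd (V k) ζ_l 0 = 0`,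
`vd (V k) T 0 = 0`, so `db k (P j) 0 = vd (V k) (vd (V j) T) 0 = 0`.  For `u = vc (V k)`: the factors are the conjugates
(`T` real): `vd (vc (V k)) (conj ζ l) 0 = 0`, `vd (vc (V k)) ζ_l 0 = δ_kl`, `0`; so
`dz k (P j) 0 = vd (vc (V k)) (vd (V j) T) 0 = -i δ_jk`.  The same values for `a0 j 2 = -i zc j`; and
`pd 0 = dz 0 + db 0`, `pd 1 = i (dz 0 - db 0)`, `pd 2 = dz 1 + db 1`, `pd 3 = i (dz 1 - db 1)`. -/
def S_Ts : Prop := ∀ (V : Fin 2 → VF) (ζ : Fin 2 → E5 →L[ℝ] ℂ) (θ : E5 →L[ℝ] ℝ) (ρ : ℝ),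
  NFld V ζ θ ρ → ∀ T : E5 → ℝ, ContDiff ℝ (⊤ : ℕ∞) T →
  (∀ j, vd (V j) (fun x => (T x : ℂ)) 0 = 0) →
  (∀ j k, vd (V k) (vd (V j) fun x => (T x : ℂ)) 0 = 0) →
  (∀ j k, vd (vc (V k)) (vd (V j) fun x => (T x : ℂ)) 0 = if j = k then -Complex.I else 0) →
  ∀ Ψ Φ : E5 → E5, Crd Ψ Φ ζ T →
    (∀ j l, Sm fun y => vd (V j) (fun x => ζ l x) (Φ y)) ∧
    (∀ j, Sm fun y => vd (V j) (fun x => (T x : ℂ)) (Φ y)) ∧
    (∀ j l, vd (V j) (fun x => ζ l x) (Φ 0) = 0) ∧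
    (∀ j, vd (V j) (fun x => (T x : ℂ)) (Φ 0) = 0) ∧
    ∀ (j : Fin 2) (i : Fin 5), i ≠ 4 →
      pd i (fun y => vd (V j) (fun x => (T x : ℂ)) (Φ y)) 0 = pd i (a0 j 2) 0

/-- The structure `a` is, on the ball of radius `7/8`, the structure given by the frame `V` in the
dilated coordinates. -/
structure Dat (V : Fin 2 → VF) (ζ : Fin 2 → E5 →L[ℝ] ℂ) (ρ : ℝ) (T : E5 → ℝ) (Ψ Φ : E5 → E5)
    (s : ℝ) (a : Str) : Prop where
  spos : 0 < s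
  crd : Crd Ψ Φ ζ T
  smT : ContDiff ℝ (⊤ : ℕ∞) T
  sma : ∀ j l, Sm (a j l)
  mem : ∀ y : E5, ‖y‖ < 7 / 8 → Φ (dil s y) ∈ Metric.ball (0 : E5) ρ
  e0 : ∀ (j : Fin 2) (y : E5), ‖y‖ < 7 / 8 → a j 0 y = vd (V j) (fun x => ζ 0 x) (Φ (dil s y))
  e1 : ∀ (j : Fin 2) (y : E5), ‖y‖ < 7 / 8 → a j 1 y = vd (V j) (fun x => ζ 1 x) (Φ (dil s y))
  e2 : ∀ (j : Fin 2) (y : E5), ‖y‖ < 7 / 8 →
    a j 2 y = vd (V j) (fun x => (T x : ℂ)) (Φ (dil s y)) / (s : ℂ)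

/-- **Tr.** The operators in the new coordinates.  (Uses `S_Cn`.)

Proof. Let `Ψs x = dil s⁻¹ (Ψ x)`, smooth, inverse of `y ↦ Φ (dil s y)` (`dil s (dil s⁻¹ y) = y`).  `y = Ψs x`, so
`x = Φ (dil s y)`.  `zc l (Ψs x) = ζ l x / s`, `Ψs x 4 = T x / s²`.  `S_Cn` for `u = V j`, `Ψs`, `f` at `x`:
`s vd (V j) (conj ζ l / s) x = δ_jl` (`dual`, `mem`), `s vd (V j) (ζ l / s) x = vd (V j) ζ_l x = a j l y`,
`s vd (V j) (T / s²) x = vd (V j) T x / s = a j 2 y`.  Hence `s vd (V j) (f ∘ Ψs) x = db j f y + ∑ a j l y dz l f y`. -/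
def S_Tr : Prop := ∀ (V : Fin 2 → VF) (ζ : Fin 2 → E5 →L[ℝ] ℂ) (θ : E5 →L[ℝ] ℝ) (ρ : ℝ),
  NFld V ζ θ ρ → ∀ (T : E5 → ℝ) (Ψ Φ : E5 → E5) (s : ℝ) (a : Str), Dat V ζ ρ T Ψ Φ s a →
  ∀ (j : Fin 2) (f : E5 → ℂ) (x : E5), ‖dil s⁻¹ (Ψ x)‖ < 7 / 8 →
    DifferentiableAt ℝ f (dil s⁻¹ (Ψ x)) →
    (s : ℂ) * vd (V j) (fun y => f (dil s⁻¹ (Ψ y))) x = L a j f (dil s⁻¹ (Ψ x))

/-- **Kp.** The new structure is integrable.  (Uses `S_Tr`.)

Proof. Let `‖y‖ < 7/8`, `x = Φ (dil s y)`, so `y = dil s⁻¹ (Ψ x)`, and `x ∈ ball 0 ρ`.  For `l < 2` the function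
`a 1 l ∘ (dil s⁻¹ ∘ Ψ)` is equal to `vd (V 1) ζ_l` near `x` (the condition `‖dil s⁻¹ (Ψ x')‖ < 7/8` is open), for `l = 2` to
`vd (V 1) T / s`; the same for `a 0 l`.  `S_Tr` for `f = a 1 l` and `f = a 0 l`:
`kap a l y = s (vd (V 0) (vd (V 1) ζ_l) x - vd (V 1) (vd (V 0) ζ_l) x) = 0` by `comm`; for `l = 2` the same with `T / s`. -/
def S_Kp : Prop := ∀ (V : Fin 2 → VF) (ζ : Fin 2 → E5 →L[ℝ] ℂ) (θ : E5 →L[ℝ] ℝ) (ρ : ℝ),
  NFld V ζ θ ρ → ∀ (T : E5 → ℝ) (Ψ Φ : E5 → E5) (s : ℝ) (a : Str), Dat V ζ ρ T Ψ Φ s a →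
  ∀ (l : Fin 3) (y : E5), ‖y‖ < 7 / 8 → kap a l y = 0

/-- **Em.** Maps which are `C¹`-close to `F0` are embeddings.

Proof. A function `u` on the ball with `‖pd i u‖ ≤ 1/100` for all `i` satisfies `‖u x - u y‖ ≤ (1/20) ‖x - y‖` (convexity,
`‖fderiv u w‖ ≤ ∑ |w i| ‖pd i u‖ ≤ (1/20) ‖w‖`).  For `u = F 0 - F0 0`, `F 1 - F0 1` and `u = F 2 - F0 2` (take the
real part of the last: `Re F0 2 x = x 4`):
`‖x - y‖ ≤ ‖zc 0 x - zc 0 y‖ + ‖zc 1 x - zc 1 y‖ + |x 4 - y 4| ≤ ∑ k ‖F k x - F k y‖ + (3/20) ‖x - y‖`. -/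
def S_Em : Prop := ∀ F : Mp, (∀ k, ContDiffOn ℝ (⊤ : ℕ∞) (F k) (Metric.ball 0 (1 / 8))) →
  (∀ k i x, ‖x‖ < 1 / 8 → ‖pd i (F k) x - pd i (F0 k) x‖ ≤ 1 / 100) →
  ∀ x y : E5, ‖x‖ < 1 / 8 → ‖y‖ < 1 / 8 → (1 / 4) * ‖x - y‖ ≤ ∑ k, ‖F k x - F k y‖

/-- **Pl.** The local theorem.  (Uses `S_CORE`, `S_Gl`, `S_Cd`, `S_Qd`, `S_Ts`, `S_Tr`, `S_Kp`, `S_Em`.)

Proof. `q`, `T` from `S_Qd`, `Ψ`, `Φ` from `S_Cd`, `g j l = vd (V j) ζ_l ∘ Φ`, `P j = vd (V j) T ∘ Φ`; `S_Ts` gives the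
hypotheses of `S_Gl`.  `ε` from `S_CORE`, `s0` from `S_Gl` for the order required by `S_CORE`; `s ≤ s0` so small that
`Φ (dil s y) ∈ ball 0 ρ` for `‖y‖ ≤ 1` (continuity of `Φ` at `0`, `Φ 0 = 0`, `‖dil s y‖ ≤ s`).  `a` from `S_Gl`: `Dat`.  `S_Kp`
and `S_CORE` give `F`.  `f k = F k ∘ Ψs`, `Ψs x = dil s⁻¹ (Ψ x)`.  Choose `0 < r ≤ ρ` with `‖Ψs x‖ < 1/8` for
`x ∈ ball 0 r`.  `S_Tr`: `vd (V j) (f k) x = L a j (F k) (Ψs x) / s = 0` (`F k` is differentiable at points of the open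
ball).  `emb`: `S_Em` gives `(1/4) ‖Ψs x - Ψs y‖ ≤ ∑ ‖f k x - f k y‖`, and `‖x - y‖ ≤ K ‖Ψs x - Ψs y‖` with a Lipschitz
constant `K` of the smooth map `y ↦ Φ (dil s y)` on the closed ball of radius `1/8` (compact, convex). -/
def S_Pl : Prop := S_CORE → S_LT

/-! ### Part 2: normal form of a CR structure on a ball of `ℝ⁵` -/

/-- **CR structures on a ball of `ℝ⁵`**: `K x` is the fibre of `T^{0,1}` at `x`. -/
structure LK (K : E5 → Submodule ℂ (Fin 5 → ℂ)) (ρ : ℝ) : Prop where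
  pos : 0 < ρ
  frame : ∃ W : Fin 2 → VF, (∀ j i, ContDiffOn ℝ (⊤ : ℕ∞) (W j i) (Metric.ball 0 ρ)) ∧
    ∀ x ∈ Metric.ball (0 : E5) ρ,
      (∀ c : Fin 5 → ℂ, c ∈ K x ↔ ∃ α : Fin 2 → ℂ, c = fun i => ∑ j, α j * W j i x) ∧
      ∀ α : Fin 2 → ℂ, (∀ i, ∑ j, α j * W j i x = 0) → α = 0
  disj : ∀ x ∈ Metric.ball (0 : E5) ρ, ∀ c ∈ K x, (fun i => conj (c i)) ∈ K x → c = 0
  invol : ∀ r ≤ ρ, ∀ u v : VF, (∀ i, ContDiffOn ℝ (⊤ : ℕ∞) (u i) (Metric.ball 0 r)) →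
    (∀ i, ContDiffOn ℝ (⊤ : ℕ∞) (v i) (Metric.ball 0 r)) →
    (∀ x ∈ Metric.ball (0 : E5) r, (fun i => u i x) ∈ K x) →
    (∀ x ∈ Metric.ball (0 : E5) r, (fun i => v i x) ∈ K x) →
    ∀ x ∈ Metric.ball (0 : E5) r, (fun i => vbr u v i x) ∈ K x
  levi : ∃ θ : Fin 5 → ℝ, (∀ c ∈ K 0, ∑ i, (θ i : ℂ) * c i = 0) ∧
    ∀ r, 0 < r → r ≤ ρ → ∀ u : VF, (∀ i, ContDiffOn ℝ (⊤ : ℕ∞) (u i) (Metric.ball 0 r)) →
    (∀ x ∈ Metric.ball (0 : E5) r, (fun i => u i x) ∈ K x) → (∃ i, u i 0 ≠ 0) →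
    0 < (Complex.I * ∑ i, (θ i : ℂ) * vbr (vc u) u i 0).re

/-- **Bs.** Linear coordinates dual to two vectors.

Proof. As `θ ≠ 0` there is `τ ∈ ℝ⁵` with `θ · τ = 1`.  The five vectors `w 0, w 1, conj w 0, conj w 1, τ` of `ℂ⁵` are
linearly independent (apply `θ`, which vanishes on the first four), so they are a basis.  Let `φ k` be the
`ℂ`-linear functionals with `φ k (w j) = 0`, `φ k (conj w j) = δ_jk`, `φ k τ = 0`, and `ζ k` the restriction of `φ k` to `ℝ⁵`: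
`ζ k x = φ k (x)`, so `φ k c = ∑ c i * ζ k (e5 i)`.  First two claims: values of `φ k` at `w j` and `conj w j` (conjugate the
second).  Last claim: `x = ∑ α_j w_j + ∑ β_j conj w_j + γ τ` with `γ = θ · x = 0`, `β_k = φ k x = 0`; `x` is real, so
`∑ α_j w_j = ∑ conj α_j conj w_j`, so `α = 0`. -/
def S_Bs : Prop := ∀ (w : Fin 2 → Fin 5 → ℂ) (θ : Fin 5 → ℝ),
  (∀ α β : Fin 2 → ℂ, (∀ i, ∑ j, (α j * w j i + β j * conj (w j i)) = 0) → α = 0 ∧ β = 0) →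
  θ ≠ 0 → (∀ j, ∑ i, (θ i : ℂ) * w j i = 0) → ∃ ζ : Fin 2 → E5 →L[ℝ] ℂ,
    (∀ j k, ∑ i, w j i * ζ k (e5 i) = 0) ∧
    (∀ j k, ∑ i, w j i * conj (ζ k (e5 i)) = if j = k then 1 else 0) ∧
    ∀ x : E5, (∀ k, ζ k x = 0) → ∑ i, θ i * x i = 0 → x = 0

/-- **Nr.** Normalised smooth frames.

Proof. `W` from `frame`; by hypothesis the matrix `A x j k = ∑ i, W j i x * conj (ζ k (e5 i))` is invertible at `0`, so by
continuity `det A x ≠ 0` for `‖x‖ < r'`, `r' ≤ ρ`.  `U' = A⁻¹ W` (2×2 inverse, explicit), smooth on the ball of radius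
`r'`; `U = χ U'` with a bump `χ = 1` for `‖x‖ ≤ r'/2`, support in the closed ball of radius `3r'/4` (and `U = 0` outside the
ball of radius `r'`): smooth on `ℝ⁵`.  On the ball of radius `r = r'/2`: `U = A⁻¹ W`, so `U j ∈ K x`, `W j = ∑ A j k U k`,
`∑ i, U j i conj (ζ k (e5 i)) = δ_jk`.  -/
def S_Nr : Prop := ∀ (K : E5 → Submodule ℂ (Fin 5 → ℂ)) (ρ : ℝ), LK K ρ →
  ∀ ζ : Fin 2 → E5 →L[ℝ] ℂ,
  (∀ c ∈ K 0, (∀ k, ∑ i, c i * conj (ζ k (e5 i)) = 0) → c = 0) →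
  ∃ (r : ℝ) (U : Fin 2 → VF), 0 < r ∧ r ≤ ρ ∧ (∀ j i, Sm (U j i)) ∧
    ∀ x ∈ Metric.ball (0 : E5) r,
      (∀ j k, ∑ i, U j i x * conj (ζ k (e5 i)) = if j = k then 1 else 0) ∧
      (∀ j, (fun i => U j i x) ∈ K x) ∧
      ∀ c ∈ K x, ∃ α : Fin 2 → ℂ, c = fun i => ∑ j, α j * U j i x

/-- **Cm.** Normalised frames commute.

Proof. Let `x ∈ ball 0 r`.  `[U 0, U 1] x ∈ K x` (`invol`), so it is `∑ γ_j U_j x`.  Pair with `conj ζ_k`:
`∑ i, vbr (U 0) (U 1) i x * conj (ζ k (e5 i)) = U_0 (∑ i, U 1 i conj (ζ k (e5 i))) - U_1 (∑ i, U 0 i ..) = 0` at `x`, because these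
sums are constant near `x`; so `γ = 0`: `vbr (U 0) (U 1) i x = 0` for all `i`.  For smooth `f`:
`vd (U 0) (vd (U 1) f) - vd (U 1) (vd (U 0) f) = ∑ i, vbr (U 0) (U 1) i * pd i f` (product rule and `pd_comm`). -/
def S_Cm : Prop := ∀ (K : E5 → Submodule ℂ (Fin 5 → ℂ)) (ρ : ℝ), LK K ρ →
  ∀ (ζ : Fin 2 → E5 →L[ℝ] ℂ) (r : ℝ) (U : Fin 2 → VF), 0 < r → r ≤ ρ → (∀ j i, Sm (U j i)) →
  (∀ x ∈ Metric.ball (0 : E5) r,
      (∀ j k, ∑ i, U j i x * conj (ζ k (e5 i)) = if j = k then 1 else 0) ∧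
      (∀ j, (fun i => U j i x) ∈ K x) ∧
      ∀ c ∈ K x, ∃ α : Fin 2 → ℂ, c = fun i => ∑ j, α j * U j i x) →
  ∀ f : E5 → ℂ, Sm f → ∀ x ∈ Metric.ball (0 : E5) r,
    vd (U 0) (vd (U 1) f) x = vd (U 1) (vd (U 0) f) x

/-- **Gr.** Gram-Schmidt.

Proof. `p = G 0 0 > 0` and `q' = G 1 1` are real (Hermitian), `g = G 0 1`, and `d = q' - |g|²/p > 0` (positivity for
`c = (-g/p, 1)`).  `m 0 0 = √(2/p)`, `m 0 1 = 0`, `m 1 1 = √(2/d)`, `m 1 0 = -m 1 1 * g / p`; `n` the inverse matrix. -/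
def S_Gr : Prop := ∀ G : Matrix (Fin 2) (Fin 2) ℂ, (∀ a b, conj (G a b) = G b a) →
  (∀ c : Fin 2 → ℂ, c ≠ 0 → 0 < (∑ j, ∑ k, conj (c j) * c k * G j k).re) →
  ∃ m n : Matrix (Fin 2) (Fin 2) ℂ, m * n = 1 ∧ n * m = 1 ∧
    ∀ j k, ∑ a, ∑ b, conj (m j a) * m k b * G a b = if j = k then 2 else 0

/-- **Nf.** Normal form.  (Uses `S_Bs`, `S_Nr`, `S_Cm`, `S_Gr`.)

Proof. `W` from `frame`, `w j = W j · 0`.  They satisfy the independence in `S_Bs`: if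
`∑ (α_j w_j + β_j conj w_j) = 0` then `c = ∑ α_j w_j ∈ K 0` and its conjugate `= -∑ conj β_j w_j ∈ K 0`, so `c = 0` by `disj`,
`α = 0` and `β = 0`.  `θ` from `levi`; `θ ≠ 0` (apply the positivity to `u = W 0`; or: if `θ = 0` the value is `0`).
`ζ` from `S_Bs` (call it `ζ'`), `U`, `r` from `S_Nr` (an element `∑ α_j w_j` of `K 0` with all `conj ζ'_k` equal to `0` has
`α = 0`).  At `0`: `U j · 0 ∈ K 0` is a combination of the `w_j`, so `ζ'_k` and `θ` vanish on it.  `S_Cm`: commute.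
`G a b = i (vd (vc (U a)) (vd (U b) θ) 0 - vd (U b) (vd (vc (U a)) θ) 0) = i ∑ θ_i vbr (vc (U a)) (U b) i 0`, Hermitian (`θ`
real), and positive: for constants `c`, `u = ∑ c_a U_a` is a section of `K`, `u 0 ≠ 0` if `c ≠ 0` (pair with `conj ζ'`), and
`i ∑ θ_i vbr (vc u) u i 0 = ∑ conj (c j) c k G j k`.  `m`, `n` from `S_Gr`, `V j = ∑_a m j a U a`,
`ζ k = ∑_b conj (n b k) ζ' b`, `θ x = ∑ θ_i x_i`.  `dual`: `∑ m j a n b k δ_ab = (m n) j k`.  `nd`: `ζ x = 0` implies `ζ' x = 0`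
(`n` invertible).  `comm`, `z0`, `t0`, `levi`: linearity.  Last claim: `U a = ∑_j n a j V j`. -/
def S_Nf : Prop := ∀ (K : E5 → Submodule ℂ (Fin 5 → ℂ)) (ρ : ℝ), LK K ρ →
  ∃ (V : Fin 2 → VF) (ζ : Fin 2 → E5 →L[ℝ] ℂ) (θ : E5 →L[ℝ] ℝ) (r : ℝ), r ≤ ρ ∧ NFld V ζ θ r ∧
    ∀ x ∈ Metric.ball (0 : E5) r, ∀ c ∈ K x, ∃ α : Fin 2 → ℂ, c = fun i => ∑ j, α j * V j i x

/-! ### Part 3: manifolds

`M` is a manifold modelled on `E5`, `p ∈ M`, `φ = extChartAt 𝓘(ℝ, E5) p`; `ct p y = φ⁻¹ (φ p + y)`,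
`cs p q = φ q - φ p`. -/

universe u

section Cht

variable {M : Type u} [TopologicalSpace M] [ChartedSpace E5 M] [IsManifold 𝓘(ℝ, E5) ∞ M]

/-- The chart at `p`, centred at `0`. -/
def cs (p : M) (q : M) : E5 := extChartAt 𝓘(ℝ, E5) p q - extChartAt 𝓘(ℝ, E5) p p

/-- Its inverse. -/
def ct (p : M) (y : E5) : M := (extChartAt 𝓘(ℝ, E5) p).symm (extChartAt 𝓘(ℝ, E5) p p + y)

/-- The differential of `ct p` at `y`. -/
def dct (p : M) (y : E5) : E5 →L[ℝ] TangentSpace 𝓘(ℝ, E5) (ct p y) :=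
  mfderiv 𝓘(ℝ, E5) 𝓘(ℝ, E5) (ct p) y

end Cht

/-- Real part of a complex vector. -/
def vre (c : Fin 5 → ℂ) : E5 := WithLp.toLp 2 fun i => (c i).re

/-- Imaginary part of a complex vector. -/
def vim (c : Fin 5 → ℂ) : E5 := WithLp.toLp 2 fun i => (c i).im

/-- The complex tangent vector with the coordinates `c`, conjugated: `conj (dct (c))`. -/
def pc {M : Type u} [TopologicalSpace M] [ChartedSpace E5 M] [IsManifold 𝓘(ℝ, E5) ∞ M]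
    (p : M) (y : E5) (c : Fin 5 → ℂ) : CTan E5 M (ct p y) :=
  (dct p y (vre c), -dct p y (vim c))

/-- The fibres of `T^{0,1}` in the centred chart. -/
def KS {M : Type u} [TopologicalSpace M] [ChartedSpace E5 M] [IsManifold 𝓘(ℝ, E5) ∞ M]
    (S : CRStructure E5 M 2) (p : M) (y : E5) : Submodule ℂ (Fin 5 → ℂ) where
  carrier := {c | pc p y c ∈ S.H (ct p y)}
  zero_mem' := by
    have h : pc p y (0 : Fin 5 → ℂ) = 0 := by
      have h1 : vre 0 = 0 := by ext i; simp [vre]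
      have h2 : vim 0 = 0 := by ext i; simp [vim]
      simp only [pc, h1, h2, map_zero, neg_zero]
      rfl
    show pc p y 0 ∈ S.H (ct p y)
    rw [h]
    exact Submodule.zero_mem _
  add_mem' := by
    intro c d hc hd
    have h : pc p y (c + d) = pc p y c + pc p y d := by
      have h1 : vre (c + d) = vre c + vre d := by ext i; simp [vre]
      have h2 : vim (c + d) = vim c + vim d := by ext i; simp [vim]
      simp only [pc, h1, h2, map_add, neg_add]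
      rfl
    show pc p y (c + d) ∈ S.H (ct p y)
    rw [h]
    exact Submodule.add_mem _ hc hd
  smul_mem' := by
    intro a c hc
    have h : pc p y (a • c) = csmul (conj a) (pc p y c) := by
      have h1 : vre (a • c) = a.re • vre c - a.im • vim c := by ext i; simp [vre, vim]
      have h2 : vim (a • c) = a.re • vim c + a.im • vre c := by ext i; simp [vre, vim]
      simp only [pc, csmul, h1, h2, map_add, map_sub, map_smul, Complex.conj_re, Complex.conj_im]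
      refine Prod.ext ?_ ?_
      · show _ - _ = _ - _
        simp only [smul_neg, neg_smul, neg_neg]
      · show -(_ + _) = _ + _
        simp only [smul_neg, neg_smul, neg_add]
    show pc p y (a • c) ∈ S.H (ct p y)
    rw [h]
    exact S.smul_mem _ _ _ hc

/-- Basic facts on the centred chart on the ball of radius `ρ`. -/
structure Ctr {M : Type u} [TopologicalSpace M] [ChartedSpace E5 M] [IsManifold 𝓘(ℝ, E5) ∞ M]
    (p : M) (ρ : ℝ) : Prop where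
  pos : 0 < ρ
  smt : ∀ y ∈ Metric.ball (0 : E5) ρ, ContMDiffAt 𝓘(ℝ, E5) 𝓘(ℝ, E5) ∞ (ct p) y
  sms : ∀ y ∈ Metric.ball (0 : E5) ρ, ContMDiffAt 𝓘(ℝ, E5) 𝓘(ℝ, E5) ∞ (cs p) (ct p y)
  op : ∀ r ≤ ρ, IsOpen (ct p '' Metric.ball 0 r)
  left : ∀ y ∈ Metric.ball (0 : E5) ρ, cs p (ct p y) = y
  zero : ct p 0 = p
  dl : ∀ y ∈ Metric.ball (0 : E5) ρ, ∀ w : E5,
    mfderiv 𝓘(ℝ, E5) 𝓘(ℝ, E5) (cs p) (ct p y) (dct p y w) = w
  dr : ∀ y ∈ Metric.ball (0 : E5) ρ, ∀ X : TangentSpace 𝓘(ℝ, E5) (ct p y),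
    dct p y (mfderiv 𝓘(ℝ, E5) 𝓘(ℝ, E5) (cs p) (ct p y) X) = X

/-- **Ca.** The centred chart.

Proof. `extChartAt` has open source and target, is smooth on the source and its inverse is smooth on the target
(boundaryless model); translations are diffeomorphisms of `E5`.  Choose `ρ > 0` with
`ball (φ p) ρ ⊆ (extChartAt p).target`.  `ct p '' ball 0 r` is the preimage of `ball 0 r` in the (open) source.  The
differentials are inverse to each other by the chain rule for `cs p ∘ ct p = id` near `y` and `ct p ∘ cs p = id` near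
`ct p y`. -/
def S_Ca : Prop := ∀ (M : Type u) [TopologicalSpace M] [ChartedSpace E5 M]
  [IsManifold 𝓘(ℝ, E5) ∞ M] (p : M), ∃ ρ : ℝ, Ctr p ρ

/-- **Pb.** Pull-back of vector fields to `M`.

Proof. `f = cs p` is smooth at `ct p y` with invertible differential (inverse `dct p y` by `dl`, `dr`), so
`mpullback .. (cs p) A (ct p y) = (mfderiv (cs p) (ct p y)).inverse (A (cs p (ct p y))) = dct p y (A y)`.  Smoothness:
`ContMDiffAt.mpullback_vectorField_preimage` at every point (`A` smooth at `y`, as a section of the tangent bundle of `E5`: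
`contMDiffAt_vectorSpace_iff_contDiffAt`).  Bracket: `VectorField.mpullback_mlieBracket` and
`VectorField.mlieBracket_eq_lieBracket`. -/
def S_Pb : Prop := ∀ (M : Type u) [TopologicalSpace M] [ChartedSpace E5 M]
  [IsManifold 𝓘(ℝ, E5) ∞ M] (p : M) (ρ r : ℝ), Ctr p ρ → r ≤ ρ → ∀ A B : E5 → E5,
  ContDiffOn ℝ ∞ A (Metric.ball 0 r) → ContDiffOn ℝ ∞ B (Metric.ball 0 r) →
    ContMDiffOn 𝓘(ℝ, E5) 𝓘(ℝ, E5).tangent ∞
      (fun q => (⟨q, VectorField.mpullback 𝓘(ℝ, E5) 𝓘(ℝ, E5) (cs p) A q⟩ :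
        TangentBundle 𝓘(ℝ, E5) M)) (ct p '' Metric.ball 0 r) ∧
    ∀ y ∈ Metric.ball (0 : E5) r,
      VectorField.mpullback 𝓘(ℝ, E5) 𝓘(ℝ, E5) (cs p) A (ct p y) = dct p y (A y) ∧
      VectorField.mlieBracket 𝓘(ℝ, E5)
        (VectorField.mpullback 𝓘(ℝ, E5) 𝓘(ℝ, E5) (cs p) A)
        (VectorField.mpullback 𝓘(ℝ, E5) 𝓘(ℝ, E5) (cs p) B) (ct p y)
        = dct p y (VectorField.lieBracket ℝ A B y)

/-- **Pf.** Vector fields of `M` in the centred chart.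

Proof. For `y` in the ball the map `ct p` is smooth at `y` with invertible differential, so
`mfderiv (cs p) (ct p y) (X (ct p y)) = mpullback .. (ct p) X y`, a smooth section of the tangent bundle of `E5` at `y`
(`ContMDiffAt.mpullback_vectorField_preimage`), i.e. a smooth function (`contMDiffAt_vectorSpace_iff_contDiffAt`). -/
def S_Pf : Prop := ∀ (M : Type u) [TopologicalSpace M] [ChartedSpace E5 M]
  [IsManifold 𝓘(ℝ, E5) ∞ M] (p : M) (ρ r : ℝ), Ctr p ρ → r ≤ ρ →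
  ∀ (X : (q : M) → TangentSpace 𝓘(ℝ, E5) q) (U : Set M), IsOpen U →
  ContMDiffOn 𝓘(ℝ, E5) 𝓘(ℝ, E5).tangent ∞
    (fun q => (⟨q, X q⟩ : TangentBundle 𝓘(ℝ, E5) M)) U → ct p '' Metric.ball 0 r ⊆ U →
    ContDiffOn ℝ ∞ (fun y : E5 => (mfderiv 𝓘(ℝ, E5) 𝓘(ℝ, E5) (cs p) (ct p y) (X (ct p y)) : E5))
      (Metric.ball 0 r)

/-- **Vb.** The bracket of complex fields on `ℝ⁵` in terms of the real Lie bracket.

Proof. Componentwise: `lieBracket ℝ A B x = fderiv ℝ B x (A x) - fderiv ℝ A x (B x)`, the `i`-th component of `fderiv ℝ B x w` is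
`∑ k, w k * ∂_k (B i)`, and `pd k (v i) = ∂_k (re v i) + i ∂_k (im v i)`. -/
def S_Vb : Prop := ∀ (u v : VF) (x : E5), (∀ i, DifferentiableAt ℝ (u i) x) →
  (∀ i, DifferentiableAt ℝ (v i) x) →
    vre (fun i => vbr u v i x)
      = VectorField.lieBracket ℝ (fun y => vre fun i => u i y) (fun y => vre fun i => v i y) x
        - VectorField.lieBracket ℝ (fun y => vim fun i => u i y) (fun y => vim fun i => v i y) x ∧
    vim (fun i => vbr u v i x)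
      = VectorField.lieBracket ℝ (fun y => vre fun i => u i y) (fun y => vim fun i => v i y) x
        + VectorField.lieBracket ℝ (fun y => vim fun i => u i y) (fun y => vre fun i => v i y) x

/-- **Se.** Sections of `K` and their brackets as complex fields on `M`.  (Uses `S_Pb`, `S_Vb`.)

Proof. `Z q = (mpullback .. (cs p) (vre u) q, mpullback .. (cs p) (-vim u) q)` and `Z'` the same for `v`, `Z'' = cconj ∘ Z`
equal to `(mpullback (vre u), mpullback (vim u))` (`mpullback` is linear in the field).  `S_Pb` (1), (2): smooth, and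
`Z (ct p y) = pc p y (u y)` (`dct` linear).  Bracket: `S_Pb` (3) with `A, B` among `vre u, -vim u, vre v, -vim v` and
bilinearity of `lieBracket` (negative of a field), then `S_Vb`:
`cbr Z Z' (ct p y) = (dct (vre [u, v]), -dct (vim [u, v])) = pc p y ([u, v] y)`; and
`cbr Z (cconj Z) (ct p y) = (dct (vre [ū, u]), dct (vim [ū, u]))`. -/
def S_Se : Prop := ∀ (M : Type u) [TopologicalSpace M] [ChartedSpace E5 M]
  [IsManifold 𝓘(ℝ, E5) ∞ M] (p : M) (ρ r : ℝ), Ctr p ρ → r ≤ ρ → ∀ u v : VF,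
  (∀ i, ContDiffOn ℝ (⊤ : ℕ∞) (u i) (Metric.ball 0 r)) →
  (∀ i, ContDiffOn ℝ (⊤ : ℕ∞) (v i) (Metric.ball 0 r)) → ∃ Z Z' : CVF E5 M,
    SmoothVF Z (ct p '' Metric.ball 0 r) ∧ SmoothVF Z' (ct p '' Metric.ball 0 r) ∧
    ∀ y ∈ Metric.ball (0 : E5) r,
      Z (ct p y) = pc p y (fun i => u i y) ∧ Z' (ct p y) = pc p y (fun i => v i y) ∧
      cbr Z Z' (ct p y) = pc p y (fun i => vbr u v i y) ∧
      cbr Z (fun q => cconj (Z q)) (ct p y)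
        = (dct p y (vre fun i => vbr (vc u) u i y), dct p y (vim fun i => vbr (vc u) u i y))

/-- **Fr.** Frames of `K`.  (Uses `S_Pf`.)

Proof. `Z`, `U` from `S.frame (ct p 0)`; `ρ' ≤ ρ` with `ct p '' ball 0 ρ' ⊆ U` (continuity of `ct p` at `0`).  Let
`e y = mfderiv (cs p) (ct p y)` and `W j i y = (e y (Z j (ct p y)).1) i - i (e y (Z j (ct p y)).2) i`: smooth by `S_Pf`.  By `dr`:
`pc p y (W j · y) = Z j (ct p y)`; and `pc p y` is injective (`dl`) and conjugate linear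
(`pc p y (a • c) = csmul (conj a) (pc p y c)`, see the definition of `KS`), so the two claims are those of `S.frame`:
`c ∈ K y` iff `pc p y c = ∑ csmul (b j) (Z j ..)` for some `b` iff `c = ∑ conj (b j) W j`. -/
def S_Fr : Prop := ∀ (M : Type u) [TopologicalSpace M] [ChartedSpace E5 M]
  [IsManifold 𝓘(ℝ, E5) ∞ M] (S : CRStructure E5 M 2) (p : M) (ρ : ℝ), Ctr p ρ →
  ∃ ρ' > 0, ρ' ≤ ρ ∧ ∃ W : Fin 2 → VF,
    (∀ j i, ContDiffOn ℝ (⊤ : ℕ∞) (W j i) (Metric.ball 0 ρ')) ∧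
    ∀ x ∈ Metric.ball (0 : E5) ρ',
      (∀ c : Fin 5 → ℂ, c ∈ KS S p x ↔ ∃ α : Fin 2 → ℂ, c = fun i => ∑ j, α j * W j i x) ∧
      ∀ α : Fin 2 → ℂ, (∀ i, ∑ j, α j * W j i x = 0) → α = 0

/-- **Ma.** The structure in the centred chart.  (Uses `S_Ca`, `S_Se`, `S_Fr`.)

Proof. `Ctr p ρ0` from `S_Ca`; it also holds for smaller radii.  `frame`: `S_Fr`.  `disj`: `pc p y (conj c) = cconj (pc p y c)`,
so `S.disj` gives `pc p y c = 0`, and `pc p y` is injective (`dl`).  `invol`: for sections `u`, `v` of `K` over `ball 0 r` let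
`Z`, `Z'` be as in `S_Se`; they are sections of `S.H` over the open set `ct p '' ball 0 r`, so `S.invol` gives
`pc p y ([u, v] y) = cbr Z Z' (ct p y) ∈ H`.  `levi`: let `θ'` be the covector of `StronglyPseudoconvex S` at the point
`ct p 0` and `θ i = θ' (dct p 0 (e5 i))`, so `θ' (dct p 0 w) = ∑ θ i * w i`.  For `c ∈ K 0`: both components of `pc p 0 c`
are killed by `θ'`, so `∑ θ i * c i = 0`.  Positivity: `Z` as in `S_Se` for the section `u`; `Z (ct p 0) ≠ 0`; the first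
component of `csmul I (cbr Z (cconj Z) (ct p 0))` is `-dct p 0 (vim [ū, u])`, and
`-∑ θ i * im ([ū, u] i 0) = re (i ∑ θ i [ū, u] i 0)`. -/
def S_Ma : Prop := ∀ (M : Type u) [TopologicalSpace M] [ChartedSpace E5 M]
  [IsManifold 𝓘(ℝ, E5) ∞ M] (S : CRStructure E5 M 2) (p : M), StronglyPseudoconvex S →
  ∃ ρ : ℝ, Ctr p ρ ∧ LK (KS S p) ρ

/-- **Cr.** CR functions in the centred chart.

Proof. `e = mfderiv (cs p) (ct p y)`, `c i = (e v.1) i - i (e v.2) i`: `pc p y c = v` (`dr`), so `c ∈ K y`.  For `f` differentiable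
at `y`: `rder (f ∘ cs p) (ct p y) (dct p y w) = fderiv ℝ f y w` (chain rule, `left`, `dl`), and
`cconj (pc p y c) = (dct (vre c), dct (vim c))`, so
`cder (f ∘ cs p) (ct p y) (cconj v) = fderiv f y (vre c) + i fderiv f y (vim c) = ∑ c i * pd i f y`. -/
def S_Cr : Prop := ∀ (M : Type u) [TopologicalSpace M] [ChartedSpace E5 M]
  [IsManifold 𝓘(ℝ, E5) ∞ M] (S : CRStructure E5 M 2) (p : M) (ρ : ℝ), Ctr p ρ →
  ∀ y ∈ Metric.ball (0 : E5) ρ, ∀ v ∈ S.H (ct p y), ∃ c ∈ KS S p y,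
    ∀ f : E5 → ℂ, DifferentiableAt ℝ f y →
      cder (fun q => f (cs p q)) (ct p y) (cconj v) = ∑ i, c i * pd i f y

/-- **Eb.** Embeddings in the centred chart.

Proof. `F q k = f k (cs p q)` on `U = ct p '' ball 0 r`.  Smooth: composition.  For `q = ct p y`, `q' = ct p y'`:
`c ‖y - y'‖ ≤ ∑ k, ‖F q k - F q' k‖`, so `F` is injective on `U`, and if `F q' → F q` in `U` then `y' → y`, so
`q' = ct p y' → q` (`ct p` is continuous at `y`): `U.restrict F` is inducing.  Differential: for `w ≠ 0` the lower bound gives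
`c ‖w‖ ≤ ∑ k, ‖fderiv ℝ (f k) y w‖` (difference quotients `(f k (y + t w) - f k y) / t`), and
`mfderiv F (ct p y) (dct p y w) = (fderiv ℝ (f k) y w)_k`; every `X` is `dct p y w` (`dr`). -/
def S_Eb : Prop := ∀ (M : Type u) [TopologicalSpace M] [ChartedSpace E5 M]
  [IsManifold 𝓘(ℝ, E5) ∞ M] (p : M) (ρ r : ℝ), Ctr p ρ → 0 < r → r ≤ ρ →
  ∀ f : Fin 3 → E5 → ℂ, (∀ k, ContDiffOn ℝ (⊤ : ℕ∞) (f k) (Metric.ball 0 r)) → ∀ c > (0 : ℝ),
  (∀ x ∈ Metric.ball (0 : E5) r, ∀ y ∈ Metric.ball (0 : E5) r,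
    c * ‖x - y‖ ≤ ∑ k, ‖f k x - f k y‖) → ∀ F : M → (Fin 3 → ℂ), F = (fun q k => f k (cs p q)) →
    ContMDiffOn 𝓘(ℝ, E5) 𝓘(ℝ, Fin 3 → ℂ) ∞ F (ct p '' Metric.ball 0 r) ∧
    IsEmbedding ((ct p '' Metric.ball 0 r).restrict F) ∧
    ∀ q ∈ ct p '' Metric.ball (0 : E5) r,
      Function.Injective (mfderiv 𝓘(ℝ, E5) 𝓘(ℝ, Fin 3 → ℂ) F q)

/-- **Fn.** The final theorem.  (Uses `S_CORE`, `S_Pl`, `S_Nf`, `S_Ma`, `S_Cr`, `S_Eb`.)

Proof. `S_Ma`, then `S_Nf`, then `S_LT` (from `S_Pl`), which gives `f` on the ball of radius `r'`.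
`U = ct p '' ball 0 r'`, `F q k = f k (cs p q)`; `p = ct p 0 ∈ U`.  `S_Eb`.  CR: for `q = ct p y`, `v ∈ S.H q`, `S_Cr` gives `c ∈ K y`,
a combination of `V j · y`, so `cder .. = ∑ c i * pd i (f k) y = ∑ α j vd (V j) (f k) y = 0`. -/
def S_Fn : Prop := ∀ (M : Type u) [TopologicalSpace M] [ChartedSpace E5 M]
  [IsManifold 𝓘(ℝ, E5) ∞ M] (S : CRStructure E5 M 2), StronglyPseudoconvex S →
  ∀ p : M, LocEmb S p

end Pool.Agent.CR5.Man
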