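import Pool.Agent.Lib.CR5.SpecI2

/-!
# CR5, I/iBc: brackets of combinations of fields
-/

open MeasureTheory Set Filter Topology
open scoped ENNReal ComplexConjugate

noncomputable section

namespace Pool.Agent.CR5

namespace iBcx

theorem vf_lin (c : Fin 2 → Fin 5 → E5 → ℂ) (N : Fin 2 → E5 → ℂ) (f : E5 → ℂ) (x : E5) :
    vf (fun i y => ∑ k, N k y * c k i y) f x = ∑ k, N k x * vf (c k) f x := by
  unfold vf
  simp only [Finset.sum_mul, Finset.mul_sum]
  rw [Finset.sum_comm]
  refine Finset.sum_congr rfl fun k _ => Finset.sum_congr rfl fun i _ => ?_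
  ring

theorem vf_prod (X : Fin 5 → E5 → ℂ) (O d : Fin 2 → E5 → ℂ) (hO : ∀ k, Sm (O k))
    (hd : ∀ k, Sm (d k)) (x : E5) :
    vf X (fun y => ∑ k, O k y * d k y) x =
      ∑ k, (vf X (O k) x * d k x + O k x * vf X (d k) x) := by
  unfold vf
  have h : ∀ i, pd i (fun y => ∑ k, O k y * d k y) x =
      ∑ k, (O k x * pd i (d k) x + pd i (O k) x * d k x) := by
    intro i
    rw [pd_sum Finset.univ (fun k _ => (hO k).mul (hd k))]
    exact Finset.sum_congr rfl fun k _ => pd_mul (hO k) (hd k) i x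
  simp only [h, Finset.mul_sum, Finset.sum_mul]
  rw [Finset.sum_comm]
  refine Finset.sum_congr rfl fun k _ => ?_
  rw [← Finset.sum_add_distrib]
  refine Finset.sum_congr rfl fun i _ => ?_
  ring

end iBcx

open iBcx in
theorem piBc : S_iBc := by
  intro c d N O hc hd hN hO i x
  unfold brk
  rw [vf_prod _ O (fun k => d k i) hO (fun k => hd k i),
    vf_prod _ N (fun k => c k i) hN (fun k => hc k i)]
  simp only [vf_lin c N, vf_lin d O]
  simp only [Fin.sum_univ_two]
  ring

end Pool.Agent.CR5
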