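import Pool.Agent.Lib.CR5.SpecI2

/-!
# CR5, block I2: the bracket of two complex vector fields
-/

set_option autoImplicit false

open MeasureTheory Set Filter Topology
open scoped ENNReal ComplexConjugate

noncomputable section

namespace Pool.Agent.CR5

namespace iBrx

theorem vf_vf (c : Fin 5 → E5 → ℂ) {d : Fin 5 → E5 → ℂ} (hd : ∀ i, Sm (d i)) {g : E5 → ℂ}
    (hg : Sm g) (x : E5) :
    vf c (vf d g) x = (∑ i, ∑ k, c i x * d k x * pd i (pd k g) x)
      + ∑ k, vf c (d k) x * pd k g x := by
  have e : vf d g = fun y => ∑ k, d k y * pd k g y := rfl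
  have e1 : ∀ i, pd i (vf d g) x = ∑ k, (d k x * pd i (pd k g) x + pd i (d k) x * pd k g x) := by
    intro i
    rw [e, pd_sum _ (fun k _ => (hd k).mul (hg.pd k))]
    exact Finset.sum_congr rfl fun k _ => pd_mul (hd k) (hg.pd k) i x
  have e2 : ∑ k, vf c (d k) x * pd k g x = ∑ i, ∑ k, c i x * (pd i (d k) x * pd k g x) := by
    rw [Finset.sum_comm]
    refine Finset.sum_congr rfl fun k _ => ?_
    rw [vf, Finset.sum_mul]
    exact Finset.sum_congr rfl fun i _ => by ring
  rw [e2, ← Finset.sum_add_distrib]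
  show ∑ i, c i x * pd i (vf d g) x = _
  refine Finset.sum_congr rfl fun i _ => ?_
  rw [e1, Finset.mul_sum, ← Finset.sum_add_distrib]
  exact Finset.sum_congr rfl fun k _ => by ring

end iBrx

open iBrx in
theorem piBr : S_iBr := by
  intro c d hc hd g hg x
  rw [vf_vf c hd hg, vf_vf d hc hg]
  have e : ∑ i, ∑ k, d i x * c k x * pd i (pd k g) x
      = ∑ i, ∑ k, c i x * d k x * pd i (pd k g) x := by
    rw [Finset.sum_comm]
    refine Finset.sum_congr rfl fun i _ => Finset.sum_congr rfl fun k _ => ?_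
    rw [pd_comm hg k i]
    ring
  have e1 : vf (brk c d) g x
      = (∑ k, vf c (d k) x * pd k g x) - ∑ k, vf d (c k) x * pd k g x := by
    rw [← Finset.sum_sub_distrib]
    show ∑ k, (vf c (d k) x - vf d (c k) x) * pd k g x = _
    exact Finset.sum_congr rfl fun k _ => by ring
  rw [e, e1]
  ring

end Pool.Agent.CR5
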