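import Pool.Agent.Lib.CR5.SpecI2

/-!
# CR5, block I2: I2 (chain rule for `pd`) (helper34)
-/

open MeasureTheory Set Filter Topology
open scoped ENNReal ComplexConjugate

noncomputable section

namespace Pool.Agent.CR5

namespace iChx

private theorem sum_e5 (v : E5) : v = ∑ m, v m • e5 m := by
  have h := (EuclideanSpace.basisFun (Fin 5) ℝ).sum_repr v
  simp only [EuclideanSpace.basisFun_repr, EuclideanSpace.basisFun_apply] at h
  exact h.symm

end iChx

theorem piCh : S_iCh := by
  intro ψ g x hψ hg i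
  have h1 : fderiv ℝ (fun y => g (ψ y)) x = (fderiv ℝ g (ψ x)).comp (fderiv ℝ ψ x) :=
    fderiv_comp x hg hψ
  show fderiv ℝ (fun y => g (ψ y)) x (e5 i) = _
  rw [h1, ContinuousLinearMap.comp_apply]
  conv_lhs => rw [iChx.sum_e5 (fderiv ℝ ψ x (e5 i))]
  rw [map_sum]
  refine Finset.sum_congr rfl fun m _ => ?_
  rw [map_smul]
  show _ = _ * fderiv ℝ g (ψ x) (e5 m)
  rw [Complex.real_smul]

end Pool.Agent.CR5
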