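import Pool.Agent.Lib.CR5.SpecI2

/-!
# CR5, I/iHer: definite Hermitian forms in two variables
-/

open MeasureTheory Set Filter Topology
open scoped ENNReal ComplexConjugate

noncomputable section

namespace Pool.Agent.CR5

theorem piHer : S_iHer := by
  intro Λ hΛ hne
  obtain ⟨α, hα⟩ : ∃ α : ℝ, Λ 0 0 = (α : ℂ) := by
    have h := hΛ 0 0
    exact ⟨(Λ 0 0).re, (Complex.conj_eq_iff_re.1 h.symm).symm⟩
  obtain ⟨δ, hδ⟩ : ∃ δ : ℝ, Λ 1 1 = (δ : ℂ) := by
    have h := hΛ 1 1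
    exact ⟨(Λ 1 1).re, (Complex.conj_eq_iff_re.1 h.symm).symm⟩
  obtain ⟨b, hb⟩ : ∃ b : ℂ, Λ 0 1 = b := ⟨_, rfl⟩
  have hb' : Λ 1 0 = conj b := by
    rw [← hb]
    exact hΛ 0 1
  have hα0 : α ≠ 0 := by
    rintro rfl
    apply hne ![1, 0]
    · intro h
      have := congrFun h 0
      simp at this
    · simp [Fin.sum_univ_two, hα]
  have hαC : (α : ℂ) ≠ 0 := by exact_mod_cast hα0
  have hbb : b * conj b = ((Complex.normSq b : ℝ) : ℂ) := Complex.mul_conj b
  obtain ⟨D, hD⟩ : ∃ D : ℝ, D = α * δ - Complex.normSq b := ⟨_, rfl⟩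
  have hDC : (D : ℂ) = α * δ - b * conj b := by
    rw [hbb, hD]
    push_cast
    ring
  have hDpos : 0 < D := by
    by_contra hcon
    have hnn : 0 ≤ -D := by linarith
    have hsq : ((Real.sqrt (-D) : ℝ) : ℂ) * ((Real.sqrt (-D) : ℝ) : ℂ) = -(D : ℂ) := by
      rw [← Complex.ofReal_mul, Real.mul_self_sqrt hnn]
      push_cast
      ring
    apply hne ![(-conj b + (Real.sqrt (-D) : ℝ)) / α, 1]
    · intro h
      have := congrFun h 1
      simp at this
    · have hc : conj ((-conj b + ((Real.sqrt (-D) : ℝ) : ℂ)) / (α : ℂ)) =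
          (-b + ((Real.sqrt (-D) : ℝ) : ℂ)) / (α : ℂ) := by
        simp
      simp only [Fin.sum_univ_two, Matrix.cons_val_zero, Matrix.cons_val_one, hα, hδ, hb, hb', hc,
        map_one, mul_one, one_mul]
      generalize ((Real.sqrt (-D) : ℝ) : ℂ) = w at *
      have h1 : (-(conj b) + w) / (α : ℂ) * ((-b + w) / (α : ℂ)) * (α : ℂ) +
          (-(conj b) + w) / (α : ℂ) * b + ((-b + w) / (α : ℂ) * conj b + (δ : ℂ)) =
          (w * w + (α * δ - b * conj b)) / (α : ℂ) := by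
        field_simp
        ring
      rw [h1, hsq, ← hDC]
      simp
  obtain ⟨σ, hσ, hσα⟩ : ∃ σ : ℝ, (σ = 1 ∨ σ = -1) ∧ 0 < σ * α := by
    rcases lt_or_gt_of_ne hα0 with h | h
    · exact ⟨-1, Or.inr rfl, by linarith⟩
    · exact ⟨1, Or.inl rfl, by linarith⟩
  have hσσ : (σ : ℂ) * σ = 1 := by
    rcases hσ with h | h <;> rw [h] <;> simp
  obtain ⟨p, hp⟩ : ∃ p : ℝ, p = Real.sqrt (2 / (σ * α)) := ⟨_, rfl⟩
  obtain ⟨r, hr⟩ : ∃ r : ℝ, r = Real.sqrt (2 * (σ * α) / D) := ⟨_, rfl⟩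
  have hp0 : p ≠ 0 := by
    rw [hp]
    exact (Real.sqrt_pos.2 (by positivity)).ne'
  have hr0 : r ≠ 0 := by
    rw [hr]
    exact (Real.sqrt_pos.2 (by positivity)).ne'
  have hp2 : p * p * (σ * α) = 2 := by
    rw [hp, Real.mul_self_sqrt (by positivity), div_mul_cancel₀ _ hσα.ne']
  have hr2 : r * r * D = 2 * (σ * α) := by
    rw [hr, Real.mul_self_sqrt (by positivity)]
    field_simp
  have hpC : (p : ℂ) * p * (σ * α) = 2 := by exact_mod_cast hp2
  have hrC : (r : ℂ) * r * D = 2 * (σ * α) := by exact_mod_cast hr2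
  have hpC0 : (p : ℂ) ≠ 0 := by exact_mod_cast hp0
  have hrC0 : (r : ℂ) ≠ 0 := by exact_mod_cast hr0
  have hp3 : (p : ℂ) * p * α = 2 * σ := by
    linear_combination (σ : ℂ) * hpC - (p : ℂ) * p * α * hσσ
  refine ⟨σ, !![(p : ℂ), 0; r * (-conj b / α), r], !![1 / (p : ℂ), 0; -((-conj b / α) / p), 1 / r],
    hσ, ?_, ?_, ?_⟩
  · rw [Matrix.mul_fin_two, Matrix.one_fin_two]
    congr 1
    ext i j
    fin_cases i <;> fin_cases j <;> simp <;> field_simp <;> ring
  · rw [Matrix.mul_fin_two, Matrix.one_fin_two]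
    congr 1
    ext i j
    fin_cases i <;> fin_cases j <;> simp <;> field_simp <;> ring
  · intro j j'
    have hc : conj ((r : ℂ) * (-conj b / α)) = r * (-b / α) := by simp
    fin_cases j <;> fin_cases j'
    · simp [Fin.sum_univ_two, hα]
      linear_combination hp3
    · simp [Fin.sum_univ_two, hα, hb]
      field_simp
      ring
    · simp [Fin.sum_univ_two, hα, hb']
      field_simp
      ring
    · have h1 : (r : ℂ) * (-conj b / α) * (r * (-b / α)) * α + r * (-conj b / α) * r * b +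
          (r * (r * (-b / α)) * conj b + r * r * δ) = r * r * (α * δ - b * conj b) / α := by
        field_simp
        ring
      have h2 : (r : ℂ) * r * (α * δ - b * conj b) / α = 2 * σ := by
        rw [← hDC, hrC]
        field_simp
      rw [h2] at h1
      simpa [Fin.sum_univ_two, hα, hb, hb', hδ] using h1

end Pool.Agent.CR5
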