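import Pool.Agent.Lib.CR5.SpecI2

/-!
# CR5, block I2: linear algebra at the point (helper76)
-/

open MeasureTheory Set Filter Topology
open scoped ENNReal ComplexConjugate

noncomputable section

namespace Pool.Agent.CR5

namespace ILin

theorem exists_theta (v : Fin 2 → Fin 5 → ℂ) :
    ∃ θ : Fin 5 → ℝ, θ ≠ 0 ∧ ∀ j, ∑ i, (θ i : ℂ) * v j i = 0 := by
  let f : (Fin 5 → ℝ) →ₗ[ℝ] (Fin 2 → ℂ) :=
    { toFun := fun θ j => ∑ i, (θ i : ℂ) * v j i
      map_add' := by
        intro x y
        funext j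
        simp [add_mul, Finset.sum_add_distrib]
      map_smul' := by
        intro c x
        funext j
        simp [Finset.mul_sum, mul_assoc] }
  have h : LinearMap.ker f ≠ ⊥ := LinearMap.ker_ne_bot_of_finrank_lt (by
    simp [Module.finrank_pi_fintype, Complex.finrank_real_complex])
  obtain ⟨θ, hθ, h0⟩ := (Submodule.ne_bot_iff _).1 h
  exact ⟨θ, h0, fun j => congrFun (LinearMap.mem_ker.1 hθ) j⟩

theorem span_theta (v : Fin 2 → Fin 5 → ℂ) (hv : Ind4 v) (θ : Fin 5 → ℝ) (h0 : θ ≠ 0)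
    (h : ∀ j, ∑ i, (θ i : ℂ) * v j i = 0) (b : Fin 5 → ℂ) (hb : ∑ i, (θ i : ℂ) * b i = 0) :
    ∃ s t : Fin 2 → ℂ, ∀ i, b i = ∑ j, (s j * v j i + t j * conj (v j i)) := by
  let g : ((Fin 2 → ℂ) × (Fin 2 → ℂ)) →ₗ[ℂ] (Fin 5 → ℂ) :=
    { toFun := fun p i => ∑ j, (p.1 j * v j i + p.2 j * conj (v j i))
      map_add' := by
        intro x y
        funext i
        simp only [Fin.sum_univ_two, Prod.fst_add, Prod.snd_add, Pi.add_apply]
        ring
      map_smul' := by
        intro c x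
        funext i
        simp only [Fin.sum_univ_two, Prod.smul_fst, Prod.smul_snd, Pi.smul_apply, smul_eq_mul,
          RingHom.id_apply]
        ring }
  let φ : (Fin 5 → ℂ) →ₗ[ℂ] ℂ :=
    { toFun := fun b => ∑ i, (θ i : ℂ) * b i
      map_add' := by
        intro x y
        simp [mul_add, Finset.sum_add_distrib]
      map_smul' := by
        intro c x
        simp only [Pi.smul_apply, smul_eq_mul, RingHom.id_apply, Finset.mul_sum]
        exact Finset.sum_congr rfl fun i _ => by ring }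
  have hg : Function.Injective g := by
    rw [← LinearMap.ker_eq_bot, LinearMap.ker_eq_bot']
    intro p hp
    obtain ⟨h1, h2⟩ := hv p.1 p.2 fun i => congrFun hp i
    exact Prod.ext h1 h2
  have hconj : ∀ j, ∑ i, (θ i : ℂ) * conj (v j i) = 0 := fun j => by
    have := congrArg (starRingEnd ℂ) (h j)
    simpa [map_sum, map_mul] using this
  have hle : LinearMap.range g ≤ LinearMap.ker φ := by
    rintro _ ⟨p, rfl⟩
    rw [LinearMap.mem_ker]
    change ∑ i, (θ i : ℂ) * ∑ j, (p.1 j * v j i + p.2 j * conj (v j i)) = 0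
    have h1 : ∑ i, (θ i : ℂ) * ∑ j, (p.1 j * v j i + p.2 j * conj (v j i))
        = ∑ j, (p.1 j * ∑ i, (θ i : ℂ) * v j i + p.2 j * ∑ i, (θ i : ℂ) * conj (v j i)) := by
      simp only [Finset.mul_sum, ← Finset.sum_add_distrib]
      rw [Finset.sum_comm]
      exact Finset.sum_congr rfl fun j _ => Finset.sum_congr rfl fun i _ => by ring
    rw [h1]
    simp [h, hconj]
  have hsurj : Function.Surjective φ := by
    obtain ⟨i, hi⟩ : ∃ i, θ i ≠ 0 := by
      by_contra hc
      push Not at hc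
      exact h0 (funext hc)
    intro c
    refine ⟨Pi.single i (c / θ i), ?_⟩
    change ∑ k, (θ k : ℂ) * (Pi.single i (c / θ i) : Fin 5 → ℂ) k = c
    rw [Finset.sum_eq_single i]
    · rw [Pi.single_eq_same]
      have : (θ i : ℂ) ≠ 0 := by exact_mod_cast hi
      field_simp
    · intro k _ hk
      rw [Pi.single_eq_of_ne hk, mul_zero]
    · intro hk
      exact absurd (Finset.mem_univ _) hk
  have hfk : Module.finrank ℂ (LinearMap.ker φ) = 4 := by
    have h1 := LinearMap.finrank_range_add_finrank_ker φ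
    rw [LinearMap.range_eq_top.2 hsurj, finrank_top] at h1
    simp at h1
    omega
  have hfg : Module.finrank ℂ (LinearMap.range g) = 4 := by
    rw [LinearMap.finrank_range_of_inj hg]
    simp
  have heq : LinearMap.range g = LinearMap.ker φ :=
    Submodule.eq_of_le_of_finrank_eq hle (hfg.trans hfk.symm)
  have hbm : b ∈ LinearMap.range g := by
    rw [heq, LinearMap.mem_ker]
    exact hb
  obtain ⟨p, hp⟩ := hbm
  exact ⟨p.1, p.2, fun i => (congrFun hp i).symm⟩

/-- the matrix with the columns `2 Re (w 0), 2 Im (w 0), 2 Re (w 1), 2 Im (w 1), τ` -/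
def SM (w : Fin 2 → Fin 5 → ℂ) (τ : Fin 5 → ℝ) : Matrix (Fin 5) (Fin 5) ℝ :=
  Matrix.of fun m i => ![2 * (w 0 m).re, 2 * (w 0 m).im, 2 * (w 1 m).re, 2 * (w 1 m).im, τ m] i

theorem SM_std (w : Fin 2 → Fin 5 → ℂ) (τ : Fin 5 → ℝ) (j : Fin 2) (m : Fin 5) :
    ∑ i, (SM w τ m i : ℂ) * std5 j i = w j m := by
  have h (z : ℂ) : z = (z.re : ℂ) + (z.im : ℂ) * Complex.I := (Complex.re_add_im z).symm
  fin_cases j
  · simp only [Fin.sum_univ_five, SM, std5, Matrix.of_apply]
    simp
    nth_rewrite 3 [h (w 0 m)]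
    ring
  · simp only [Fin.sum_univ_five, SM, std5, Matrix.of_apply]
    simp
    nth_rewrite 3 [h (w 1 m)]
    ring

theorem rm (θ : Fin 5 → ℝ) (w : Fin 5 → ℂ) (h : ∑ i, (θ i : ℂ) * w i = 0) :
    ∑ i, θ i * (w i).re = 0 ∧ ∑ i, θ i * (w i).im = 0 := by
  constructor
  · have := congrArg Complex.re h
    simpa using this
  · have := congrArg Complex.im h
    simpa using this

theorem main (w : Fin 2 → Fin 5 → ℂ) (hw : Ind4 w) (θ : Fin 5 → ℝ) (h0 : θ ≠ 0)
    (h : ∀ j, ∑ i, (θ i : ℂ) * w j i = 0) :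
    ∃ S T : Matrix (Fin 5) (Fin 5) ℝ, S * T = 1 ∧ T * S = 1 ∧
      (∀ j i, ∑ m, (T i m : ℂ) * w j m = std5 j i) ∧ ∀ m, T 4 m = θ m := by
  have hn : 0 < ∑ i, θ i ^ 2 := by
    obtain ⟨i, hi⟩ : ∃ i, θ i ≠ 0 := by
      by_contra hc
      push Not at hc
      exact h0 (funext hc)
    exact lt_of_lt_of_le (by positivity)
      (Finset.single_le_sum (f := fun i => θ i ^ 2) (fun k _ => sq_nonneg (θ k)) (Finset.mem_univ i))
  set τ : Fin 5 → ℝ := fun m => θ m / ∑ i, θ i ^ 2 with hτ
  have hθτ : ∑ m, θ m * τ m = 1 := by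
    have : ∑ m, θ m * τ m = (∑ m, θ m ^ 2) / ∑ i, θ i ^ 2 := by
      rw [Finset.sum_div]
      exact Finset.sum_congr rfl fun m _ => by rw [hτ]; ring
    rw [this, div_self hn.ne']
  obtain ⟨r0, i0⟩ := rm θ (w 0) (h 0)
  obtain ⟨r1, i1⟩ := rm θ (w 1) (h 1)
  -- the row `θ`
  have hrow : ∀ i, ∑ m, θ m * SM w τ m i = if i = 4 then 1 else 0 := by
    intro i
    fin_cases i
    · change ∑ m, θ m * (2 * (w 0 m).re) = 0
      have : ∑ m, θ m * (2 * (w 0 m).re) = 2 * ∑ m, θ m * (w 0 m).re := by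
        rw [Finset.mul_sum]; exact Finset.sum_congr rfl fun m _ => by ring
      rw [this, r0, mul_zero]
    · change ∑ m, θ m * (2 * (w 0 m).im) = 0
      have : ∑ m, θ m * (2 * (w 0 m).im) = 2 * ∑ m, θ m * (w 0 m).im := by
        rw [Finset.mul_sum]; exact Finset.sum_congr rfl fun m _ => by ring
      rw [this, i0, mul_zero]
    · change ∑ m, θ m * (2 * (w 1 m).re) = 0
      have : ∑ m, θ m * (2 * (w 1 m).re) = 2 * ∑ m, θ m * (w 1 m).re := by
        rw [Finset.mul_sum]; exact Finset.sum_congr rfl fun m _ => by ring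
      rw [this, r1, mul_zero]
    · change ∑ m, θ m * (2 * (w 1 m).im) = 0
      have : ∑ m, θ m * (2 * (w 1 m).im) = 2 * ∑ m, θ m * (w 1 m).im := by
        rw [Finset.mul_sum]; exact Finset.sum_congr rfl fun m _ => by ring
      rw [this, i1, mul_zero]
    · change ∑ m, θ m * τ m = 1
      exact hθτ
  have hinj : ∀ x : Fin 5 → ℝ, (SM w τ).mulVec x = 0 → x = 0 := by
    intro x hx
    have hm : ∀ m, ∑ i, SM w τ m i * x i = 0 := fun m => congrFun hx m
    have hx4 : x 4 = 0 := by
      have h1 : ∑ m, θ m * ∑ i, SM w τ m i * x i = 0 := by simp [hm]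
      have h2 : ∑ m, θ m * ∑ i, SM w τ m i * x i = ∑ i, (∑ m, θ m * SM w τ m i) * x i := by
        simp only [Finset.mul_sum, Finset.sum_mul]
        rw [Finset.sum_comm]
        exact Finset.sum_congr rfl fun i _ => Finset.sum_congr rfl fun m _ => by ring
      rw [h2] at h1
      simpa [hrow] using h1
    obtain ⟨hs, ht⟩ := hw ![(x 0 : ℂ) - Complex.I * x 1, (x 2 : ℂ) - Complex.I * x 3]
      ![(x 0 : ℂ) + Complex.I * x 1, (x 2 : ℂ) + Complex.I * x 3] (by
        intro m
        have h3 := hm m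
        simp only [Fin.sum_univ_five, SM, Matrix.of_apply] at h3
        simp at h3
        rw [hx4, mul_zero, add_zero] at h3
        simp only [Fin.sum_univ_two]
        simp
        apply Complex.ext
        · simp
          linarith
        · simp
          ring)
    have e0 := congrFun hs 0
    have e1 := congrFun hs 1
    simp at e0 e1
    have a0 := congrArg Complex.re e0
    have a1 := congrArg Complex.im e0
    have a2 := congrArg Complex.re e1
    have a3 := congrArg Complex.im e1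
    simp at a0 a1 a2 a3
    funext i
    fin_cases i
    · exact a0
    · exact a1
    · exact a2
    · exact a3
    · exact hx4
  have hdet : (SM w τ).det ≠ 0 := by
    intro hd
    obtain ⟨x, hx0, hx⟩ := Matrix.exists_mulVec_eq_zero_iff.2 hd
    exact hx0 (hinj x hx)
  have hu : IsUnit (SM w τ).det := isUnit_iff_ne_zero.2 hdet
  have hST : SM w τ * (SM w τ)⁻¹ = 1 := Matrix.mul_nonsing_inv _ hu
  have hTS : (SM w τ)⁻¹ * SM w τ = 1 := Matrix.nonsing_inv_mul _ hu
  refine ⟨SM w τ, (SM w τ)⁻¹, hST, hTS, ?_, ?_⟩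
  · intro j i
    have h1 : ∀ i', ∑ m, ((SM w τ)⁻¹ i m : ℂ) * (SM w τ m i' : ℂ) = if i = i' then 1 else 0 := by
      intro i'
      have := congrArg (fun M : Matrix (Fin 5) (Fin 5) ℝ => M i i') hTS
      simp only [Matrix.mul_apply, Matrix.one_apply] at this
      have h2 := congrArg (fun r : ℝ => (r : ℂ)) this
      simp only [Complex.ofReal_sum, Complex.ofReal_mul] at h2
      rw [h2]
      split_ifs <;> simp
    calc ∑ m, ((SM w τ)⁻¹ i m : ℂ) * w j m
        = ∑ m, ((SM w τ)⁻¹ i m : ℂ) * ∑ i', (SM w τ m i' : ℂ) * std5 j i' := by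
          exact Finset.sum_congr rfl fun m _ => by rw [SM_std]
      _ = ∑ i', (∑ m, ((SM w τ)⁻¹ i m : ℂ) * (SM w τ m i' : ℂ)) * std5 j i' := by
          simp only [Finset.mul_sum, Finset.sum_mul]
          rw [Finset.sum_comm]
          exact Finset.sum_congr rfl fun i _ => Finset.sum_congr rfl fun m _ => by ring
      _ = std5 j i := by simp [h1]
  · intro m
    have h1 : ∀ m', ∑ i, SM w τ m' i * (SM w τ)⁻¹ i m = if m' = m then 1 else 0 := by
      intro m'
      have := congrArg (fun M : Matrix (Fin 5) (Fin 5) ℝ => M m' m) hST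
      simpa only [Matrix.mul_apply, Matrix.one_apply] using this
    have h2 : ∑ m', θ m' * ∑ i, SM w τ m' i * (SM w τ)⁻¹ i m = θ m := by simp [h1]
    have h3 : ∑ m', θ m' * ∑ i, SM w τ m' i * (SM w τ)⁻¹ i m
        = ∑ i, (∑ m', θ m' * SM w τ m' i) * (SM w τ)⁻¹ i m := by
      simp only [Finset.mul_sum, Finset.sum_mul]
      rw [Finset.sum_comm]
      exact Finset.sum_congr rfl fun i _ => Finset.sum_congr rfl fun m _ => by ring
    rw [← h2, h3]
    simp [hrow]

theorem ind_comb (v : Fin 2 → Fin 5 → ℂ) (hv : Ind4 v) (P Q : Matrix (Fin 2) (Fin 2) ℂ)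
    (hPQ : P * Q = 1) : Ind4 fun j m => ∑ k, P j k * v k m := by
  intro s t hst
  have hP : ∀ i j, ∑ k, P i k * Q k j = if i = j then 1 else 0 := by
    intro i j
    have := congrArg (fun M : Matrix (Fin 2) (Fin 2) ℂ => M i j) hPQ
    simpa only [Matrix.mul_apply, Matrix.one_apply] using this
  obtain ⟨h1, h2⟩ := hv (fun k => ∑ j, s j * P j k) (fun k => ∑ j, t j * conj (P j k)) (by
    intro i
    rw [← hst i]
    simp only [Fin.sum_univ_two, map_add, map_mul]
    ring)
  have h1' : ∀ k, ∑ j, s j * P j k = 0 := fun k => congrFun h1 k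
  have h2' : ∀ k, ∑ j, t j * conj (P j k) = 0 := fun k => congrFun h2 k
  have p00 := hP 0 0
  have p01 := hP 0 1
  have p10 := hP 1 0
  have p11 := hP 1 1
  have u0 := h1' 0
  have u1 := h1' 1
  have w0 := h2' 0
  have w1 := h2' 1
  simp only [Fin.sum_univ_two] at p00 p01 p10 p11 u0 u1 w0 w1
  simp at p00 p01 p10 p11
  have q00 := congrArg (starRingEnd ℂ) p00
  have q01 := congrArg (starRingEnd ℂ) p01
  have q10 := congrArg (starRingEnd ℂ) p10
  have q11 := congrArg (starRingEnd ℂ) p11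
  simp only [map_add, map_mul, map_one, map_zero] at q00 q01 q10 q11
  constructor
  · funext j
    fin_cases j
    · change s 0 = 0
      linear_combination Q 0 0 * u0 + Q 1 0 * u1 - s 0 * p00 - s 1 * p10
    · change s 1 = 0
      linear_combination Q 0 1 * u0 + Q 1 1 * u1 - s 0 * p01 - s 1 * p11
  · funext j
    fin_cases j
    · change t 0 = 0
      linear_combination conj (Q 0 0) * w0 + conj (Q 1 0) * w1 - t 0 * q00 - t 1 * q10
    · change t 1 = 0
      linear_combination conj (Q 0 1) * w0 + conj (Q 1 1) * w1 - t 0 * q01 - t 1 * q11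

end ILin

theorem piLin (hHer : S_iHer) : S_iLin := by
  intro v B hv hB hL
  obtain ⟨θ, h0, hθ⟩ := ILin.exists_theta v
  set Λ : Fin 2 → Fin 2 → ℂ := fun j k => -Complex.I * ∑ m, (θ m : ℂ) * B j k m with hΛ
  have hΛ1 : ∀ j k, Λ k j = conj (Λ j k) := by
    intro j k
    simp only [hΛ, map_mul, map_neg, Complex.conj_I, map_sum, Complex.conj_ofReal]
    have : ∑ m, (θ m : ℂ) * B k j m = -∑ m, (θ m : ℂ) * conj (B j k m) := by
      rw [← Finset.sum_neg_distrib]
      exact Finset.sum_congr rfl fun m _ => by rw [hB j k m]; ring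
    rw [this]
    ring
  have hX : ∀ c : Fin 2 → Fin 2 → ℂ, ∑ m, (θ m : ℂ) * ∑ j, ∑ k, c j k * B j k m
      = Complex.I * ∑ j, ∑ k, c j k * Λ j k := by
    intro c
    have h1 : ∀ j k, ∑ m, (θ m : ℂ) * B j k m = Complex.I * Λ j k := by
      intro j k
      simp only [hΛ]
      linear_combination (∑ m, (θ m : ℂ) * B j k m) * Complex.I_mul_I
    calc ∑ m, (θ m : ℂ) * ∑ j, ∑ k, c j k * B j k m
        = ∑ j, ∑ k, c j k * ∑ m, (θ m : ℂ) * B j k m := by
          simp only [Finset.mul_sum]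
          rw [Finset.sum_comm]
          refine Finset.sum_congr rfl fun j _ => ?_
          rw [Finset.sum_comm]
          exact Finset.sum_congr rfl fun k _ => Finset.sum_congr rfl fun m _ => by ring
      _ = Complex.I * ∑ j, ∑ k, c j k * Λ j k := by
          simp only [h1, Finset.mul_sum]
          exact Finset.sum_congr rfl fun j _ => Finset.sum_congr rfl fun k _ => by ring
  have hΛ2 : ∀ q : Fin 2 → ℂ, q ≠ 0 → ∑ j, ∑ k, q j * conj (q k) * Λ j k ≠ 0 := by
    intro q hq hz
    have h1 := hX fun j k => q j * conj (q k)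
    rw [hz, mul_zero] at h1
    obtain ⟨s, t, hst⟩ := ILin.span_theta v hv θ h0 hθ _ h1
    exact hL q hq s t hst
  obtain ⟨σ, P, Q, hσ, hPQ, hQP, hP⟩ := hHer Λ hΛ1 hΛ2
  have hσ0 : σ ≠ 0 := by rcases hσ with h | h <;> rw [h] <;> norm_num
  have hσ2 : (σ : ℂ) * σ = 1 := by rcases hσ with h | h <;> rw [h] <;> norm_num
  have hw := ILin.ind_comb v hv P Q hPQ
  obtain ⟨S, T, hST, hTS, hT, hT4⟩ := ILin.main (fun j m => ∑ k, P j k * v k m) hw
    (fun m => σ * θ m) (by
      intro hz
      apply h0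
      funext m
      have := congrFun hz m
      simpa [hσ0] using this) (by
      intro j
      have h1 : ∑ i, ((σ * θ i : ℝ) : ℂ) * ∑ k, P j k * v k i
          = σ * ∑ k, P j k * ∑ i, (θ i : ℂ) * v k i := by
        simp only [Finset.mul_sum]
        rw [Finset.sum_comm]
        exact Finset.sum_congr rfl fun k _ => Finset.sum_congr rfl fun i _ => by
          push_cast
          ring
      rw [h1]
      simp [hθ])
  refine ⟨P, Q, S, T, hPQ, hQP, hST, hTS, hT, ?_⟩
  intro j j'
  have h1 : ∑ m, (T 4 m : ℂ) * ∑ k, ∑ l, P j k * conj (P j' l) * B k l m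
      = σ * ∑ m, (θ m : ℂ) * ∑ k, ∑ l, P j k * conj (P j' l) * B k l m := by
    rw [Finset.mul_sum]
    exact Finset.sum_congr rfl fun m _ => by
      rw [hT4]
      push_cast
      ring
  rw [h1, hX fun k l => P j k * conj (P j' l), hP]
  split_ifs with hj
  · linear_combination 2 * Complex.I * hσ2
  · simp

end Pool.Agent.CR5
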