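import Pool.Agent.Lib.CR5.SpecI2
import Pool.Agent.Lib.CR5.B.Geo

/-!
# CR5, block I: the normal frame commutes (helper9)
-/

open MeasureTheory Set Filter Topology
open scoped ENNReal ComplexConjugate

noncomputable section

namespace Pool.Agent.CR5

namespace iNkx

theorem pd_congr {F G : E5 → ℂ} {x : E5} (h : F =ᶠ[𝓝 x] G) (i : Fin 5) : pd i F x = pd i G x := by
  unfold pd
  rw [h.fderiv_eq]

theorem vf_congr {F G : E5 → ℂ} {x : E5} (h : F =ᶠ[𝓝 x] G) (c : Fin 5 → E5 → ℂ) :
    vf c F x = vf c G x :=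
  Finset.sum_congr rfl fun i _ => by rw [pd_congr h i]

theorem brk_self (c : Fin 5 → E5 → ℂ) (i : Fin 5) (x : E5) : brk c c i x = 0 := sub_self _

theorem brk_anti (c d : Fin 5 → E5 → ℂ) (i : Fin 5) (x : E5) : brk c d i x = -brk d c i x := by
  unfold brk; ring

theorem vf_const (c : Fin 5 → E5 → ℂ) (z : ℂ) (x : E5) : vf c (fun _ => z) x = 0 := by
  unfold vf
  simp [pd_const]

theorem near_ball {r : ℝ} {x : E5} (hx : ‖x‖ < r) : ∀ᶠ y in 𝓝 x, ‖y‖ < r :=
  (isOpen_lt continuous_norm continuous_const).mem_nhds hx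

theorem vf_zb (c : Fin 2 → Fin 5 → E5 → ℂ) (k m : Fin 2) (x : E5) :
    vf (c k) (fun y => conj (zc m y)) x = Mc c k m x := by
  have hm : m = 0 ∨ m = 1 := by fin_cases m <;> simp
  rcases hm with rfl | rfl
  · simp only [vf, pd_conj (Sm.zc _), geo_pd_zc0, Fin.sum_univ_succ, Mc]
    simp
    ring
  · simp only [vf, pd_conj (Sm.zc _), geo_pd_zc1, Fin.sum_univ_succ, Mc]
    simp
    ring

end iNkx

open iNkx in
theorem piNk (h1 : S_iBr) (h2 : S_iBc) (h3 : S_iNb) : S_iNk := by
  intro ρ c a N r hc ha hN hr hrρ hNM hMN haG l x hx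
  obtain ⟨p, hp⟩ := hc.inv
  have hcs := hc.sm
  set X : Fin 2 → Fin 5 → E5 → ℂ := fun j i y => ∑ k, N j k y * c k i y with hX
  have hXs : ∀ j i, Sm (X j i) := fun j i => Sm.sum _ fun k _ => (hN j k).mul (hcs k i)
  have hL : ∀ j (g : E5 → ℂ) y, ‖y‖ < r → L a j g y = vf (X j) g y := by
    intro j g y hy
    rw [h3 c a N y (fun j k => hNM j k y hy) (fun j l => haG j l y hy) g j]
    simp only [vf, hX, Finset.mul_sum, Finset.sum_mul]
    rw [Finset.sum_comm]
    exact Finset.sum_congr rfl fun i _ => Finset.sum_congr rfl fun k _ => by ring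
  have hxρ : ‖x‖ < ρ := lt_of_lt_of_le hx hrρ
  set lam : Fin 2 → ℂ := fun k => (N 0 0 x * N 1 1 x - N 0 1 x * N 1 0 x) * p k x
    + vf (X 0) (N 1 k) x - vf (X 1) (N 0 k) x with hlam
  have hbr : ∀ i, brk (X 0) (X 1) i x = ∑ k, lam k * c k i x := by
    intro i
    have h := h2 c c (N 0) (N 1) hcs hcs (hN 0) (hN 1) i x
    have e : brk (X 0) (X 1) i x = brk (fun i y => ∑ k, N 0 k y * c k i y)
        (fun i y => ∑ k, N 1 k y * c k i y) i x := rfl
    rw [e, h]
    have hp' := hp x hxρ i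
    have h10 := brk_anti (c 1) (c 0) i x
    have e0 : vf (fun i y => ∑ k, N 0 k y * c k i y) = vf (X 0) := rfl
    have e1 : vf (fun i y => ∑ k, N 1 k y * c k i y) = vf (X 1) := rfl
    rw [e0, e1]
    simp only [Fin.sum_univ_two, brk_self, h10, hp', hlam]
    ring
  have star : ∀ g : E5 → ℂ, Sm g → vf (X 0) (vf (X 1) g) x - vf (X 1) (vf (X 0) g) x
      = ∑ k, lam k * vf (c k) g x := by
    intro g hg
    rw [h1 (X 0) (X 1) (hXs 0) (hXs 1) g hg x]
    simp only [vf, hbr, Fin.sum_univ_two, Finset.mul_sum, ← Finset.sum_add_distrib]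
    exact Finset.sum_congr rfl fun i _ => by ring
  -- the coefficients vanish
  have hz : ∀ m, ∑ k, lam k * Mc c k m x = 0 := by
    intro m
    have h := star _ (Sm.zc m).conj
    have hloc : ∀ j, vf (X j) (fun y => conj (zc m y)) =ᶠ[𝓝 x] fun _ => if j.castSucc = m.castSucc
        then 1 else 0 := by
      intro j
      filter_upwards [near_ball hx] with y hy
      rw [← hL j _ y hy]
      simp only [L, geo_dz_zb, geo_db_zb, mul_zero, Finset.sum_const_zero, add_zero]
    rw [vf_congr (hloc 1), vf_congr (hloc 0), vf_const, vf_const, sub_zero] at h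
    rw [h]
    exact Finset.sum_congr rfl fun k _ => by rw [vf_zb]
  have hlam0 : ∀ n, lam n = 0 := by
    intro n
    have h : ∑ m, (∑ k, lam k * Mc c k m x) * N m n x = lam n := by
      have e : ∑ m, (∑ k, lam k * Mc c k m x) * N m n x
          = ∑ k, lam k * ∑ m, Mc c k m x * N m n x := by
        simp only [Fin.sum_univ_two]; ring
      rw [e]
      simp only [hMN _ _ x hx, mul_ite, mul_one, mul_zero, Finset.sum_ite_eq', Finset.mem_univ,
        if_true]
    rw [← h]
    simp only [hz, zero_mul, Finset.sum_const_zero]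
  -- the commutator
  have key : ∀ g : E5 → ℂ, Sm g → (∀ (j : Fin 2) y, L a j g y = a j l y) → kap a l x = 0 := by
    intro g hg hgl
    have h := star g hg
    simp only [hlam0, zero_mul, Finset.sum_const_zero] at h
    have hloc : ∀ j, vf (X j) g =ᶠ[𝓝 x] a j l := by
      intro j
      filter_upwards [near_ball hx] with y hy
      rw [← hL j _ y hy, hgl]
    rw [vf_congr (hloc 1), vf_congr (hloc 0), ← hL 0 _ x hx, ← hL 1 _ x hx] at h
    exact h
  rcases fin3_cases l with rfl | rfl | rfl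
  · refine key (zc 0) (Sm.zc 0) fun j y => ?_
    simp only [L, geo_db_zc, geo_dz_zc, Fin.sum_univ_three]
    simp
  · refine key (zc 1) (Sm.zc 1) fun j y => ?_
    simp only [L, geo_db_zc, geo_dz_zc, Fin.sum_univ_three]
    simp
  · refine key (fun y => (y 4 : ℂ)) (Sm.coord 4) fun j y => ?_
    simp only [L, geo_db_t, geo_dz_t, Fin.sum_univ_three]
    fin_cases j <;> simp

end Pool.Agent.CR5
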