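import Pool.Agent.Lib.CR5.SpecI2
import Pool.Agent.Lib.CR5.Basic2

/-!
# CR5, block I2: removal of the quadratic terms (helper76)
-/

open MeasureTheory Set Filter Topology
open scoped ENNReal ComplexConjugate

noncomputable section

namespace Pool.Agent.CR5

namespace IQd

theorem pd_co (i k : Fin 5) (x : E5) :
    pd k (fun y => ((y i : ℝ) : ℂ)) x = if k = i then 1 else 0 := by
  unfold pd
  have h : HasFDerivAt (fun y : E5 => ((y i : ℝ) : ℂ))
      (Complex.ofRealCLM.comp (EuclideanSpace.proj i : E5 →L[ℝ] ℝ)) x :=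
    (Complex.ofRealCLM.comp (EuclideanSpace.proj i : E5 →L[ℝ] ℝ)).hasFDerivAt
  rw [h.fderiv]
  show (((EuclideanSpace.single k (1 : ℝ) : E5) i : ℝ) : ℂ) = _
  by_cases hk : k = i
  · subst hk; simp
  · rw [if_neg hk]
    have : (EuclideanSpace.single k (1 : ℝ) : E5) i = 0 := by
      simp
      exact fun h => hk h.symm
    rw [this]; simp

/-- a linear form -/
theorem pd_lin (c : Fin 5 → ℂ) (k : Fin 5) (x : E5) :
    pd k (fun y => ∑ m, c m * ((y m : ℝ) : ℂ)) x = c k := by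
  rw [pd_sum _ (fun m _ => (Sm.const (c m)).mul (Sm.coord m))]
  simp only [pd_const_mul (Sm.coord _), pd_co]
  simp

/-- the quadratic form with the matrix `A` -/
def qf (A : Fin 5 → Fin 5 → ℝ) (x : E5) : ℝ := (1 / 2) * ∑ i, ∑ k, A i k * (x i * x k)

theorem qf_sm (A : Fin 5 → Fin 5 → ℝ) : ContDiff ℝ (⊤ : ℕ∞) (qf A) :=
  contDiff_const.mul (ContDiff.sum fun i _ => ContDiff.sum fun k _ =>
    contDiff_const.mul ((contDiff_coord i).mul (contDiff_coord k)))

theorem qf_cast (A : Fin 5 → Fin 5 → ℝ) (x : E5) :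
    ((qf A x : ℝ) : ℂ) = (1 / 2) * ∑ i, ∑ k, (A i k : ℂ) * ((x i : ℂ) * (x k : ℂ)) := by
  unfold qf
  push_cast
  ring

theorem pd_qf (A : Fin 5 → Fin 5 → ℝ) (hA : ∀ i k, A i k = A k i) (m : Fin 5) (x : E5) :
    pd m (fun u => ((qf A u : ℝ) : ℂ)) x = ∑ k, (A m k : ℂ) * (x k : ℂ) := by
  have e : (fun u => ((qf A u : ℝ) : ℂ))
      = fun u : E5 => (1 / 2 : ℂ) * ∑ i, ∑ k, (A i k : ℂ) * ((u i : ℂ) * (u k : ℂ)) :=
    funext fun u => qf_cast A u
  have s1 : ∀ i k, Sm fun u : E5 => ((u i : ℝ) : ℂ) * ((u k : ℝ) : ℂ) := fun i k =>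
    (Sm.coord i).mul (Sm.coord k)
  have s2 : ∀ i k, Sm fun u : E5 => (A i k : ℂ) * (((u i : ℝ) : ℂ) * ((u k : ℝ) : ℂ)) := fun i k =>
    (Sm.const _).mul (s1 i k)
  rw [e, pd_const_mul (Sm.sum _ fun i _ => Sm.sum _ fun k _ => s2 i k),
    pd_sum _ fun i _ => Sm.sum _ fun k _ => s2 i k]
  have h1 : ∀ i, pd m (fun u : E5 => ∑ k, (A i k : ℂ) * (((u i : ℝ) : ℂ) * ((u k : ℝ) : ℂ))) x
      = ∑ k, (A i k : ℂ) * ((if m = i then 1 else 0) * (x k : ℂ)
        + (x i : ℂ) * (if m = k then 1 else 0)) := by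
    intro i
    rw [pd_sum _ fun k _ => s2 i k]
    refine Finset.sum_congr rfl fun k _ => ?_
    rw [pd_const_mul (s1 i k), pd_mul (Sm.coord i) (Sm.coord k), pd_co, pd_co]
    ring
  have h2 : ∑ i, pd m (fun u : E5 => ∑ k, (A i k : ℂ) * (((u i : ℝ) : ℂ) * ((u k : ℝ) : ℂ))) x
      = ∑ k, (A m k : ℂ) * (x k : ℂ) + ∑ i, (A i m : ℂ) * (x i : ℂ) := by
    simp only [h1, mul_add, Finset.sum_add_distrib]
    congr 1
    · rw [Finset.sum_comm]
      refine Finset.sum_congr rfl fun k _ => ?_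
      simp
    · refine Finset.sum_congr rfl fun i _ => ?_
      simp
  rw [h2]
  have h3 : ∑ i, (A i m : ℂ) * (x i : ℂ) = ∑ k, (A m k : ℂ) * (x k : ℂ) :=
    Finset.sum_congr rfl fun i _ => by rw [hA i m]
  rw [h3]
  ring

/-- the matrix -/
def AM (c : Fin 2 → Fin 5 → ℂ) (i k : Fin 5) : ℝ :=
  if i = 4 ∨ k = 4 then 0 else if i = 0 then 2 * (c 0 k).re else if i = 1 then 2 * (c 0 k).im
  else if i = 2 then 2 * (c 1 k).re else 2 * (c 1 k).im

theorem AM_symm (c : Fin 2 → Fin 5 → ℂ) (h1 : (c 0 1).re = (c 0 0).im) (h2 : (c 1 3).re = (c 1 2).im)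
    (h3 : (c 0 2).re = (c 1 0).re) (h4 : (c 0 3).re = (c 1 0).im) (h5 : (c 0 2).im = (c 1 1).re)
    (h6 : (c 0 3).im = (c 1 1).im) (i k : Fin 5) : AM c i k = AM c k i := by
  fin_cases i <;> fin_cases k <;> simp [AM] <;> linarith

theorem qf_inv (c : Fin 2 → Fin 5 → ℂ) (x : E5) (s : ℝ) :
    qf (AM c) (x + s • e5 4) = qf (AM c) x := by
  unfold qf
  congr 1
  refine Finset.sum_congr rfl fun i _ => Finset.sum_congr rfl fun k _ => ?_
  have h : ∀ i : Fin 5, i ≠ 4 → (x + s • e5 4) i = x i := by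
    intro i hi
    simp [e5, hi]
  by_cases hi : i = 4
  · simp [AM, hi]
  by_cases hk : k = 4
  · simp [AM, hk]
  rw [h i hi, h k hk]

theorem db_qf (c : Fin 2 → Fin 5 → ℂ) (hA : ∀ i k, AM c i k = AM c k i) (j : Fin 2) (x : E5) :
    db j.castSucc (fun u => ((qf (AM c) u : ℝ) : ℂ)) x
      = ∑ m, (if m = 4 then 0 else c j m) * (x m : ℂ) := by
  have h (z : ℂ) : (z.re : ℂ) + (z.im : ℂ) * Complex.I = z := Complex.re_add_im z
  fin_cases j
  · change db 0 (fun u => ((qf (AM c) u : ℝ) : ℂ)) x = _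
    rw [db_zero, pd_qf _ hA, pd_qf _ hA]
    simp only [Fin.sum_univ_five, AM]
    simp
    linear_combination (x 0 : ℂ) * h (c 0 0) + (x 1 : ℂ) * h (c 0 1) + (x 2 : ℂ) * h (c 0 2)
      + (x 3 : ℂ) * h (c 0 3)
  · change db 1 (fun u => ((qf (AM c) u : ℝ) : ℂ)) x = _
    rw [db_one, pd_qf _ hA, pd_qf _ hA]
    simp only [Fin.sum_univ_five, AM]
    simp
    linear_combination (x 0 : ℂ) * h (c 1 0) + (x 1 : ℂ) * h (c 1 1) + (x 2 : ℂ) * h (c 1 2)
      + (x 3 : ℂ) * h (c 1 3)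

theorem dz_qf (A : Fin 5 → Fin 5 → ℝ) (hA : ∀ i k, A i k = A k i) (l : Fin 3) :
    dz l (fun u => ((qf A u : ℝ) : ℂ)) 0 = 0 := by
  have h : ∀ m, pd m (fun u => ((qf A u : ℝ) : ℂ)) 0 = 0 := fun m => by
    rw [pd_qf A hA]
    simp
  rcases fin3_cases l with rfl | rfl | rfl
  · rw [dz_zero, h, h]; simp
  · rw [dz_one, h, h]; simp
  · rw [dz_two, h]

theorem pd_zero_of (A : Fin 5 → Fin 5 → ℝ) (v : E5) : fderiv ℝ (qf A) 0 v = 0 := by
  have h : HasFDerivAt (qf A) (0 : E5 →L[ℝ] ℝ) 0 := by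
    have h1 : ∀ i k : Fin 5, HasFDerivAt (fun x : E5 => A i k * (x i * x k)) (0 : E5 →L[ℝ] ℝ) 0 := by
      intro i k
      have hi : HasFDerivAt (fun x : E5 => x i) (EuclideanSpace.proj i : E5 →L[ℝ] ℝ) 0 :=
        (EuclideanSpace.proj i : E5 →L[ℝ] ℝ).hasFDerivAt
      have hk : HasFDerivAt (fun x : E5 => x k) (EuclideanSpace.proj k : E5 →L[ℝ] ℝ) 0 :=
        (EuclideanSpace.proj k : E5 →L[ℝ] ℝ).hasFDerivAt
      have := (hi.mul hk).const_mul (A i k)
      refine this.congr_fderiv ?_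
      ext v
      simp
    have h2 := (HasFDerivAt.fun_sum (u := Finset.univ) fun i _ =>
      HasFDerivAt.fun_sum (u := Finset.univ) fun k _ => h1 i k).const_mul (1 / 2 : ℝ)
    unfold qf
    refine h2.congr_fderiv ?_
    simp
  rw [h.fderiv]
  rfl

theorem pd_comp_shr (q : E5 → ℝ) (hq : ContDiff ℝ (⊤ : ℕ∞) q) (h0 : q 0 = 0)
    (hd : ∀ v, fderiv ℝ q 0 v = 0) (G : E5 → ℂ) (hG : Sm G) (i : Fin 5) :
    pd i (fun y => G (shr (fun u => -q u) y)) 0 = pd i G 0 := by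
  have hqd : HasFDerivAt q (0 : E5 →L[ℝ] ℝ) 0 := by
    have h1 := (hq.differentiable (by simp)).differentiableAt (x := (0 : E5)) |>.hasFDerivAt
    refine h1.congr_fderiv ?_
    ext v
    exact hd v
  have hs : HasFDerivAt (shr fun u => -q u) (ContinuousLinearMap.id ℝ E5) 0 := by
    have h1 : HasFDerivAt (fun x : E5 => x + (-q x) • e5 4)
        (ContinuousLinearMap.id ℝ E5 + (-(0 : E5 →L[ℝ] ℝ)).smulRight (e5 4)) 0 :=
      (hasFDerivAt_id (0 : E5)).add (hqd.neg.smul_const (e5 4))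
    refine h1.congr_fderiv ?_
    ext v
    simp
  have hs0 : shr (fun u => -q u) 0 = 0 := by simp [shr, h0]
  have hG0 : HasFDerivAt G (fderiv ℝ G 0) (shr (fun u => -q u) 0) := by
    rw [hs0]
    exact (hG.diffAt 0).hasFDerivAt
  have hc := hG0.comp (0 : E5) hs
  unfold pd
  have : fderiv ℝ (fun y => G (shr (fun u => -q u) y)) 0
      = (fderiv ℝ G 0).comp (ContinuousLinearMap.id ℝ E5) := hc.fderiv
  rw [this]
  rfl

theorem pd_a0_two (j : Fin 2) (i : Fin 5) (x : E5) :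
    pd i (a0 j 2) x = if j = 0 then (if i = 0 then -Complex.I else if i = 1 then 1 else 0)
      else (if i = 2 then -Complex.I else if i = 3 then 1 else 0) := by
  fin_cases j
  · have e : a0 0 2 = fun y : E5 =>
        ∑ m : Fin 5, (if m = 0 then -Complex.I else if m = 1 then 1 else 0) * ((y m : ℝ) : ℂ) := by
      funext y
      simp only [a0, zc, Fin.sum_univ_five]
      simp
      linear_combination (-(y 1 : ℂ)) * Complex.I_mul_I
    change pd i (a0 0 2) x = _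
    rw [e, pd_lin]
    rfl
  · have e : a0 1 2 = fun y : E5 =>
        ∑ m : Fin 5, (if m = 2 then -Complex.I else if m = 3 then 1 else 0) * ((y m : ℝ) : ℂ) := by
      funext y
      simp only [a0, zc, Fin.sum_univ_five]
      simp
      linear_combination (-(y 3 : ℂ)) * Complex.I_mul_I
    change pd i (a0 1 2) x = _
    rw [e, pd_lin]
    rfl

end IQd

open IQd in
theorem piQd : S_iQd := by
  intro a ha ha0 hk hLev
  -- the first derivatives of `a j 2` at the origin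
  have hL0 : ∀ (j : Fin 2) (f : E5 → ℂ), L a j f 0 = db j.castSucc f 0 := by
    intro j f
    simp [L, ha0]
  have hk2 : db 0 (a 1 2) 0 = db 1 (a 0 2) 0 := by
    have h := hk 2
    unfold kap at h
    rw [hL0, hL0] at h
    exact sub_eq_zero.1 h
  have hl00 := hLev 0 0
  have hl01 := hLev 0 1
  have hl11 := hLev 1 1
  rw [db_conj (ha _ 2)] at hl00 hl01 hl11
  change conj (dz 0 (a 0 2) 0) - dz 0 (a 0 2) 0 = _ at hl00
  change conj (dz 0 (a 1 2) 0) - dz 1 (a 0 2) 0 = _ at hl01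
  change conj (dz 1 (a 1 2) 0) - dz 1 (a 1 2) 0 = _ at hl11
  rw [dz_zero] at hl00
  rw [dz_zero, dz_one] at hl01
  rw [dz_one] at hl11
  rw [db_zero, db_one] at hk2
  have hhalf : ∀ z : ℂ, conj (z / 2) = conj z / 2 := fun z => by
    rw [map_div₀, Complex.conj_ofNat]
  rw [hhalf] at hl00 hl01 hl11
  simp only [if_true] at hl00 hl11
  rw [if_neg (by decide)] at hl01
  set c : Fin 2 → Fin 5 → ℂ := fun j i => pd i (a0 j 2) 0 - pd i (a j 2) 0 with hc
  have r00 := congrArg Complex.im hl00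
  have r11 := congrArg Complex.im hl11
  have r01 := congrArg Complex.re hl01
  have s01 := congrArg Complex.im hl01
  have k1 := congrArg Complex.re hk2
  have k2 := congrArg Complex.im hk2
  simp at r00 r11 r01 s01 k1 k2
  have hA : ∀ i k, AM c i k = AM c k i := by
    apply AM_symm
    all_goals
      simp only [hc, pd_a0_two]
      simp
      linarith
  set q : E5 → ℝ := qf (AM c) with hq
  have hq0 : q 0 = 0 := by simp [hq, qf]
  have hqsm : ContDiff ℝ (⊤ : ℕ∞) q := qf_sm _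
  have hqd : ∀ v, fderiv ℝ q 0 v = 0 := pd_zero_of _
  have hdb : ∀ j : Fin 2, db j.castSucc (fun u => (q u : ℂ)) 0 = 0 := fun j => by
    rw [hq, db_qf c hA]
    simp
  have hdz : ∀ l, dz l (fun u => (q u : ℂ)) 0 = 0 := fun l => dz_qf _ hA l
  have hsh0 : shr (fun u => -q u) 0 = 0 := by simp [shr, hq0]
  refine ⟨q, ⟨hqsm, qf_inv c⟩, hq0, ?_, ?_⟩
  · intro j l
    unfold shA
    by_cases hl : l = 2
    · rw [if_pos hl]
      show (a j 2 (shr (fun u => -q u) 0) + _ + _ + _) = (0 : ℂ)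
      rw [hsh0]
      simp [ha0, hdb]
    · rw [if_neg hl, hsh0, ha0]
  · intro j i hi
    have sq : Sm fun u => (q u : ℂ) := Sm.ofReal hqsm
    have sG : Sm fun x => a j 2 x + db j.castSucc (fun u => (q u : ℂ)) x
        + a j 0 x * dz 0 (fun u => (q u : ℂ)) x + a j 1 x * dz 1 (fun u => (q u : ℂ)) x :=
      (((ha j 2).add (sq.db _)).add ((ha j 0).mul (sq.dz _))).add ((ha j 1).mul (sq.dz _))
    have e : shA q a j 2 = fun y => (fun x => a j 2 x + db j.castSucc (fun u => (q u : ℂ)) x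
        + a j 0 x * dz 0 (fun u => (q u : ℂ)) x + a j 1 x * dz 1 (fun u => (q u : ℂ)) x)
        (shr (fun u => -q u) y) := by
      funext y
      unfold shA
      rw [if_pos rfl]
    rw [e, pd_comp_shr q hqsm hq0 hqd _ sG]
    rw [pd_add (((ha j 2).add (sq.db _)).add ((ha j 0).mul (sq.dz _))) ((ha j 1).mul (sq.dz _)),
      pd_add ((ha j 2).add (sq.db _)) ((ha j 0).mul (sq.dz _)), pd_add (ha j 2) (sq.db _),
      pd_mul (ha j 0) (sq.dz _), pd_mul (ha j 1) (sq.dz _)]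
    have e2 : pd i (db j.castSucc fun u => (q u : ℂ)) 0 = c j i := by
      have e3 : (db j.castSucc fun u => (q u : ℂ))
          = fun x => ∑ m, (if m = 4 then 0 else c j m) * ((x m : ℝ) : ℂ) :=
        funext fun x => db_qf c hA j x
      rw [e3, pd_lin, if_neg hi]
    rw [e2, hdz, hdz, ha0, ha0]
    simp [hc]

end Pool.Agent.CR5
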