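import Pool.Agent.Lib.CR5.SpecI2

/-!
# CR5, I4: reduction to coefficients which are smooth on the whole space (helper37)
-/

open MeasureTheory Set Filter Topology
open scoped ENNReal ComplexConjugate

noncomputable section

namespace Pool.Agent.CR5

namespace iRedx

theorem pd_congr {f g : E5 → ℂ} {x : E5} (h : f =ᶠ[𝓝 x] g) (i : Fin 5) : pd i f x = pd i g x := by
  unfold pd
  rw [h.fderiv_eq]

theorem vf_congr {c c' : Fin 5 → E5 → ℂ} {f g : E5 → ℂ} {x : E5} (hc : ∀ i, c i x = c' i x)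
    (h : f =ᶠ[𝓝 x] g) : vf c f x = vf c' g x := by
  unfold vf
  exact Finset.sum_congr rfl fun i _ => by rw [hc, pd_congr h]

theorem brk_congr {c c' d d' : Fin 5 → E5 → ℂ} {x : E5} (hc : ∀ i, c i =ᶠ[𝓝 x] c' i)
    (hd : ∀ i, d i =ᶠ[𝓝 x] d' i) (i : Fin 5) : brk c d i x = brk c' d' i x := by
  unfold brk
  rw [vf_congr (fun k => (hc k).eq_of_nhds) (hd i), vf_congr (fun k => (hd k).eq_of_nhds) (hc i)]

theorem cj_congr {c c' : Fin 5 → E5 → ℂ} {x : E5} (hc : ∀ i, c i =ᶠ[𝓝 x] c' i) (i : Fin 5) :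
    cj c i =ᶠ[𝓝 x] cj c' i := by
  filter_upwards [hc i] with y hy
  simp only [cj, hy]

end iRedx

open iRedx

theorem piRed : S_iRed := by
  intro U c h
  obtain ⟨ε, hε, hball⟩ := Metric.isOpen_iff.1 h.op 0 h.zero
  have hρ : 0 < ε / 3 := by positivity
  let b : ContDiffBump (0 : E5) := ⟨ε / 3, 2 * (ε / 3), hρ, by linarith⟩
  have hb1 : ∀ x : E5, ‖x‖ < ε / 3 → b x = 1 := by
    intro x hx
    apply b.one_of_mem_closedBall
    rw [mem_closedBall_zero_iff]
    exact hx.le
  have hev : ∀ j i (x : E5), ‖x‖ < ε / 3 →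
      (fun y => (b y : ℂ) * c j i y) =ᶠ[𝓝 x] c j i := by
    intro j i x hx
    have hopen : IsOpen {y : E5 | ‖y‖ < ε / 3} := isOpen_lt continuous_norm continuous_const
    filter_upwards [hopen.mem_nhds hx] with y hy
    rw [hb1 y hy]; simp
  have hz : ‖(0 : E5)‖ < ε / 3 := by rw [norm_zero]; exact hρ
  refine ⟨ε / 3, fun j i x => (b x : ℂ) * c j i x, ⟨hρ, ?_, ?_, ?_, ?_⟩, ?_, ?_⟩
  · -- smoothness
    intro j i
    have hcb : ContDiff ℝ (⊤ : ℕ∞) fun x : E5 => (b x : ℂ) :=
      Complex.ofRealCLM.contDiff.comp b.contDiff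
    refine contDiff_iff_contDiffAt.2 fun x => ?_
    by_cases hx : x ∈ U
    · exact hcb.contDiffAt.mul ((h.sm j i).contDiffAt (h.op.mem_nhds hx))
    · have hx2 : x ∉ tsupport (b : E5 → ℝ) := by
        rw [b.tsupport_eq]
        intro hx3
        apply hx
        apply hball
        rw [mem_closedBall_zero_iff] at hx3
        rw [mem_ball_zero_iff]
        have : ‖x‖ ≤ 2 * (ε / 3) := hx3
        linarith
      have he : (b : E5 → ℝ) =ᶠ[𝓝 x] 0 := notMem_tsupport_iff_eventuallyEq.1 hx2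
      have he2 : (fun y : E5 => (b y : ℂ) * c j i y) =ᶠ[𝓝 x] fun _ => 0 := by
        filter_upwards [he] with y hy
        rw [hy]; simp
      exact contDiffAt_const.congr_of_eventuallyEq he2
  · intro x hx
    have hxU : x ∈ U := hball (by rw [mem_ball_zero_iff]; linarith)
    have := h.ind x hxU
    simp only [hb1 x hx, Complex.ofReal_one, one_mul]
    exact this
  · obtain ⟨p, hp⟩ := h.inv
    refine ⟨p, fun x hx i => ?_⟩
    have hxU : x ∈ U := hball (by rw [mem_ball_zero_iff]; linarith)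
    have e := brk_congr (c := fun i y => (b y : ℂ) * c 0 i y) (c' := c 0)
      (d := fun i y => (b y : ℂ) * c 1 i y) (d' := c 1) (fun i => hev 0 i x hx)
      (fun i => hev 1 i x hx) i
    simp only [hb1 x hx, Complex.ofReal_one, one_mul]
    exact e.trans (hp x hxU i)
  · have h0 : (b (0 : E5) : ℂ) = 1 := by rw [hb1 0 hz]; simp
    have e1 : (fun (j : Fin 2) (i : Fin 5) => (b (0 : E5) : ℂ) * c j i 0) = fun j i => c j i 0 := by
      funext j i
      rw [h0, one_mul]
    have e2 : (fun (j k : Fin 2) (i : Fin 5) => brk ((fun j i x => (b x : ℂ) * c j i x) j)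
        (cj ((fun j i x => (b x : ℂ) * c j i x) k)) i 0)
        = fun j k i => brk (c j) (cj (c k)) i 0 := by
      funext j k i
      exact brk_congr (fun i => hev j i 0 hz) (fun i => cj_congr (fun i => hev k i 0 hz) i) i
    have := h.lev
    rw [← e1, ← e2] at this
    exact this
  · intro x hx
    apply hball
    rw [mem_ball_zero_iff] at hx ⊢
    linarith
  · intro j i x hx
    simp only [hb1 x hx, Complex.ofReal_one, one_mul]

end Pool.Agent.CR5
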